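import Mathlib
import Pool.Agent.Lib.CauchyPompeiu

/-!
# CarA/Defs : definitions for the analysis half of the carpet theorem (MP_efd072_an)

`X` is a compact plane set, `F` an integrable function with `F = 0` off `X` whose distributional
derivative `dbar F` is a measure: `|∫ F dbar φ| ≤ ∫ |φ| dm` for all test functions `φ`.
(`F` is the Cauchy transform of a measure orthogonal to the rational functions, cut off near
its atoms.)

The *cost* of a set `E` is the price for cutting `F` off near `E`: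
`cost F E = inf ∫ |F| (|∇g| + (1 - g))` over all `C^1` functions `0 ≤ g ≤ 1` which vanish near `E`.
`dd F B x y` is the infimum of the costs of the continua `E ⊆ B` which contain `x` and `y`, and
`rel F B x y` means `dd F B x y = 0`.
-/

open MeasureTheory Complex Set Filter Topology Metric
open scoped ENNReal
open Pool.Lib (dbar)

namespace CarA

/-- the data of the analysis part -/
structure Dat (X : Set ℂ) (F : ℂ → ℂ) (m : Measure ℂ) : Prop where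
  comp : IsCompact X
  fin : IsFiniteMeasure m
  meas : Measurable F
  int : Integrable F
  off : ∀ z, z ∉ X → F z = 0
  weak : ∀ φ : ℂ → ℂ, ContDiff ℝ 1 φ → HasCompactSupport φ →
    ‖∫ z, F z * dbar φ z‖ ≤ ∫ z, ‖φ z‖ ∂m
  small : ∀ x : ℂ, Tendsto (fun ρ : ℝ => (∫ z in closedBall x ρ, ‖F z‖) / ρ) (𝓝[>] 0) (𝓝 0)
  ne : ¬ F =ᵐ[volume] 0

/-- the data before the atoms of the measure are removed -/
structure Pre (X : Set ℂ) (F : ℂ → ℂ) (m : Measure ℂ) : Prop where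
  comp : IsCompact X
  fin : IsFiniteMeasure m
  meas : Measurable F
  int : Integrable F
  off : ∀ z, z ∉ X → F z = 0
  weak : ∀ φ : ℂ → ℂ, ContDiff ℝ 1 φ → HasCompactSupport φ →
    ‖∫ z, F z * dbar φ z‖ ≤ ∫ z, ‖φ z‖ ∂m
  atom : ∀ x : ℂ, ∀ ε : ℝ, 0 < ε → ∀ᶠ ρ in 𝓝[>] (0 : ℝ),
    ∫ z in closedBall x ρ, ‖F z‖ ≤ ρ * (6 * m.real {x} + ε)
  ne : ¬ F =ᵐ[volume] 0

/-- `C^1` functions `0 ≤ g ≤ 1` -/
def Unit1 : Set (ℂ → ℝ) := {g | ContDiff ℝ 1 g ∧ ∀ z, 0 ≤ g z ∧ g z ≤ 1}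

/-- the admissible cut-off functions for `E`: they vanish near `E` -/
def Adm (E : Set ℂ) : Set (ℂ → ℝ) :=
  {g | g ∈ Unit1 ∧ ∃ U, IsOpen U ∧ E ⊆ U ∧ ∀ z ∈ U, g z = 0}

/-- the value of a cut-off function -/
noncomputable def val (F : ℂ → ℂ) (g : ℂ → ℝ) : ℝ≥0∞ :=
  ∫⁻ z, ‖F z‖ₑ * (‖fderiv ℝ g z‖ₑ + ENNReal.ofReal (1 - g z))

/-- the cost of `E` -/
noncomputable def cost (F : ℂ → ℂ) (E : Set ℂ) : ℝ≥0∞ := ⨅ g ∈ Adm E, val F g

/-- the continua in `B` which contain `x` and `y` -/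
def Conts (B : Set ℂ) (x y : ℂ) : Set (Set ℂ) :=
  {E | IsCompact E ∧ IsPreconnected E ∧ E ⊆ B ∧ x ∈ E ∧ y ∈ E}

/-- the pseudometric -/
noncomputable def dd (F : ℂ → ℂ) (B : Set ℂ) (x y : ℂ) : ℝ≥0∞ := ⨅ E ∈ Conts B x y, cost F E

/-- the relation -/
def rel (F : ℂ → ℂ) (B : Set ℂ) (x y : ℂ) : Prop := x ∈ B ∧ y ∈ B ∧ dd F B x y = 0

theorem norm_dbar_le (φ : ℂ → ℂ) (z : ℂ) : ‖dbar φ z‖ ≤ ‖fderiv ℝ φ z‖ := by
  unfold dbar
  have h1 : ‖fderiv ℝ φ z 1‖ ≤ ‖fderiv ℝ φ z‖ := by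
    simpa using (fderiv ℝ φ z).le_opNorm 1
  have h2 : ‖I * fderiv ℝ φ z I‖ ≤ ‖fderiv ℝ φ z‖ := by
    rw [norm_mul, norm_I, one_mul]
    simpa using (fderiv ℝ φ z).le_opNorm I
  rw [norm_div]
  have h3 : ‖(2 : ℂ)‖ = 2 := by simp
  rw [h3, div_le_iff₀ (by norm_num)]
  calc ‖fderiv ℝ φ z 1 + I * fderiv ℝ φ z I‖ ≤ ‖fderiv ℝ φ z 1‖ + ‖I * fderiv ℝ φ z I‖ := norm_add_le _ _
    _ ≤ ‖fderiv ℝ φ z‖ * 2 := by linarith

theorem fderiv_ofReal (g : ℂ → ℝ) (z : ℂ) (hg : DifferentiableAt ℝ g z) :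
    fderiv ℝ (fun w => (g w : ℂ)) z = ofRealCLM.comp (fderiv ℝ g z) :=
  (ofRealCLM.hasFDerivAt.comp z hg.hasFDerivAt).fderiv

theorem norm_dbar_ofReal_le (g : ℂ → ℝ) (z : ℂ) (hg : DifferentiableAt ℝ g z) :
    ‖dbar (fun w => (g w : ℂ)) z‖ ≤ ‖fderiv ℝ g z‖ := by
  refine (norm_dbar_le _ _).trans ?_
  rw [fderiv_ofReal g z hg]
  refine ContinuousLinearMap.opNorm_le_bound _ (norm_nonneg _) fun v => ?_
  rw [ContinuousLinearMap.comp_apply, ofRealCLM_apply, Complex.norm_real]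
  exact (fderiv ℝ g z).le_opNorm v

theorem dbar_mul (f g : ℂ → ℂ) (z : ℂ) (hf : DifferentiableAt ℝ f z) (hg : DifferentiableAt ℝ g z) :
    dbar (fun w => f w * g w) z = f z * dbar g z + g z * dbar f z := by
  have h : fderiv ℝ (fun w => f w * g w) z = f z • fderiv ℝ g z + g z • fderiv ℝ f z :=
    fderiv_fun_mul hf hg
  unfold dbar
  rw [h]
  simp only [_root_.add_apply, _root_.smul_apply, smul_eq_mul]
  ring

end CarA
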