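import Mathlib
import Pool.Agent.CarA.Defs

/-!
# CarA/AtA : multiplication by an infinite product of cut-off functions

`χ i : ℂ → ℝ` of class `C^1`, `0 ≤ χ i ≤ 1`; `kk χ z = inf_n ∏_{i<n} (1 - χ i z)`.

* `fderiv_prod_le`: `|∇ ∏_{i<n} (1 - χ i)| ≤ ∑_{i<n} |∇ χ i|`: induction on `n` (product rule, factors in `[0,1]`).
* `cut_weak`: for a test function `φ` and `k_n = ∏_{i<n}(1 - χ i)`: `∫ F k_n dbar φ = ∫ F dbar(k_n φ) - ∫ F φ dbar k_n`
  (`dbar_mul`), and `k_n φ` is a test function, so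
  `|∫ k_n F dbar φ| ≤ ∫ |k_n φ| dm + ∫ |F| |φ| ∑_{i<n} |∇χ i| ≤ ∫ |φ| dm'`,
  `m' = m + volume.withDensity (|F| ∑' |∇χ i|)`, which is finite by assumption. Let `n → ∞`: `k_n → kk χ` pointwise
  (antitone, bounded below: `tendsto_atTop_ciInf`), dominated convergence with the bound `|F| |dbar φ|`.
  (The integral with respect to `m'` of a bounded continuous function is the sum of the two integrals:
  `integral_add_measure`, `integral_withDensity_eq_integral_toReal_smul` or bound everything with `∫⁻`.)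
-/

open MeasureTheory Metric Set Filter Topology
open scoped ENNReal
open Pool.Lib (dbar)
open Complex (ofRealCLM continuous_ofReal)

namespace CarA

/-- the infinite product -/
noncomputable def kk (χ : ℕ → ℂ → ℝ) (z : ℂ) : ℝ := ⨅ n : ℕ, ∏ i ∈ Finset.range n, (1 - χ i z)

/-- the new measure -/
noncomputable def mm (F : ℂ → ℂ) (m : Measure ℂ) (χ : ℕ → ℂ → ℝ) : Measure ℂ :=
  m + volume.withDensity (fun z => ‖F z‖ₑ * ∑' i, ‖fderiv ℝ (χ i) z‖ₑ)

theorem one_sub_mem {χ : ℕ → ℂ → ℝ} (h : ∀ i, χ i ∈ Unit1) (i : ℕ) (z : ℂ) :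
    0 ≤ 1 - χ i z ∧ 1 - χ i z ≤ 1 := by
  have := (h i).2 z
  constructor <;> linarith [this.1, this.2]

theorem prod_mem {χ : ℕ → ℂ → ℝ} (h : ∀ i, χ i ∈ Unit1) (n : ℕ) (z : ℂ) :
    0 ≤ ∏ i ∈ Finset.range n, (1 - χ i z) ∧ ∏ i ∈ Finset.range n, (1 - χ i z) ≤ 1 :=
  ⟨Finset.prod_nonneg fun i _ => (one_sub_mem h i z).1,
    Finset.prod_le_one (fun i _ => (one_sub_mem h i z).1) fun i _ => (one_sub_mem h i z).2⟩

theorem prod_bdd {χ : ℕ → ℂ → ℝ} (h : ∀ i, χ i ∈ Unit1) (z : ℂ) :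
    BddBelow (Set.range fun n : ℕ => ∏ i ∈ Finset.range n, (1 - χ i z)) :=
  ⟨0, by rintro _ ⟨n, rfl⟩; exact (prod_mem h n z).1⟩

theorem prod_anti {χ : ℕ → ℂ → ℝ} (h : ∀ i, χ i ∈ Unit1) (z : ℂ) :
    Antitone (fun n : ℕ => ∏ i ∈ Finset.range n, (1 - χ i z)) := by
  refine antitone_nat_of_succ_le fun n => ?_
  rw [Finset.prod_range_succ]
  exact mul_le_of_le_one_right (prod_mem h n z).1 (one_sub_mem h n z).2

theorem prod_tendsto {χ : ℕ → ℂ → ℝ} (h : ∀ i, χ i ∈ Unit1) (z : ℂ) :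
    Tendsto (fun n : ℕ => ∏ i ∈ Finset.range n, (1 - χ i z)) atTop (𝓝 (kk χ z)) :=
  tendsto_atTop_ciInf (prod_anti h z) (prod_bdd h z)

theorem prod_contDiff {χ : ℕ → ℂ → ℝ} (h : ∀ i, χ i ∈ Unit1) (n : ℕ) :
    ContDiff ℝ 1 (fun w => ∏ i ∈ Finset.range n, (1 - χ i w)) :=
  contDiff_prod fun i _ => contDiff_const.sub (h i).1

theorem kk_mem {χ : ℕ → ℂ → ℝ} (h : ∀ i, χ i ∈ Unit1) (z : ℂ) : 0 ≤ kk χ z ∧ kk χ z ≤ 1 := by
  refine ⟨le_ciInf fun n => (prod_mem h n z).1, ?_⟩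
  have := ciInf_le (prod_bdd h z) 0
  rw [Finset.range_zero, Finset.prod_empty] at this
  exact this

theorem kk_zero {χ : ℕ → ℂ → ℝ} (h : ∀ i, χ i ∈ Unit1) (z : ℂ) (i : ℕ) (hi : χ i z = 1) :
    kk χ z = 0 := by
  refine le_antisymm ?_ (kk_mem h z).1
  have := ciInf_le (prod_bdd h z) (i + 1)
  refine this.trans (le_of_eq ?_)
  rw [Finset.prod_range_succ, hi]
  simp

theorem kk_one {χ : ℕ → ℂ → ℝ} (z : ℂ) (h0 : ∀ i, χ i z = 0) : kk χ z = 1 := by
  simp [kk, h0]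

theorem measurable_kk {χ : ℕ → ℂ → ℝ} (h : ∀ i, χ i ∈ Unit1) : Measurable (kk χ) := by
  refine Measurable.iInf fun n => ?_
  exact (prod_contDiff h n).continuous.measurable

theorem norm_fderiv_prod_le {χ : ℕ → ℂ → ℝ} (h : ∀ i, χ i ∈ Unit1) (n : ℕ) (z : ℂ) :
    ‖fderiv ℝ (fun w => ∏ i ∈ Finset.range n, (1 - χ i w)) z‖ ≤
      ∑ i ∈ Finset.range n, ‖fderiv ℝ (χ i) z‖ := by
  induction n with
  | zero =>
    have e : (fun w : ℂ => ∏ i ∈ Finset.range 0, (1 - χ i w)) = fun _ => (1 : ℝ) := by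
      funext w; simp
    rw [e]
    simp
  | succ n ih =>
    rw [Finset.sum_range_succ]
    have e : (fun w => ∏ i ∈ Finset.range (n + 1), (1 - χ i w)) =
        fun w => (∏ i ∈ Finset.range n, (1 - χ i w)) * (1 - χ n w) := by
      funext w
      rw [Finset.prod_range_succ]
    have hd1 : DifferentiableAt ℝ (fun w => ∏ i ∈ Finset.range n, (1 - χ i w)) z :=
      (prod_contDiff h n).differentiable (by norm_num) z
    have hd0 : DifferentiableAt ℝ (χ n) z := (h n).1.differentiable (by norm_num) z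
    have hd2 : DifferentiableAt ℝ (fun w => 1 - χ n w) z := hd0.const_sub 1
    rw [e, fderiv_fun_mul hd1 hd2, fderiv_const_sub]
    refine (norm_add_le _ _).trans ?_
    rw [norm_smul, norm_smul, norm_neg, add_comm]
    have h1 := prod_mem h n z
    have h2 := one_sub_mem h n z
    rw [Real.norm_of_nonneg h1.1, Real.norm_of_nonneg h2.1]
    refine add_le_add ?_ ?_
    · exact (mul_le_of_le_one_left (norm_nonneg _) h2.2).trans ih
    · exact mul_le_of_le_one_left (norm_nonneg _) h1.2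

theorem fderiv_prod_le {χ : ℕ → ℂ → ℝ} (h : ∀ i, χ i ∈ Unit1) (n : ℕ) (z : ℂ) :
    ‖fderiv ℝ (fun w => ∏ i ∈ Finset.range n, (1 - χ i w)) z‖ₑ ≤
      ∑ i ∈ Finset.range n, ‖fderiv ℝ (χ i) z‖ₑ := by
  have h1 := ENNReal.ofReal_le_ofReal (norm_fderiv_prod_le h n z)
  rw [ENNReal.ofReal_sum_of_nonneg fun i _ => norm_nonneg _] at h1
  simpa only [ofReal_norm] using h1

/-- `dbar φ` is continuous -/
theorem continuous_dbar {φ : ℂ → ℂ} (h : ContDiff ℝ 1 φ) : Continuous (dbar φ) := by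
  have h1 : Continuous (fderiv ℝ φ) := h.continuous_fderiv (by norm_num)
  unfold dbar
  exact ((h1.clm_apply continuous_const).add
    (continuous_const.mul (h1.clm_apply continuous_const))).div_const 2

theorem bdd_dbar {φ : ℂ → ℂ} (h : ContDiff ℝ 1 φ) (hc : HasCompactSupport φ) :
    ∃ C, ∀ z, ‖dbar φ z‖ ≤ C := by
  have h1 : Continuous (fderiv ℝ φ) := h.continuous_fderiv (by norm_num)
  obtain ⟨C, hC⟩ := (hc.fderiv (𝕜 := ℝ)).exists_bound_of_continuous h1
  exact ⟨C, fun z => (norm_dbar_le φ z).trans (hC z)⟩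

theorem cut_weak {F : ℂ → ℂ} {m : Measure ℂ} (hm : IsFiniteMeasure m) (hF : Measurable F)
    (hi : Integrable F) (hw : ∀ φ : ℂ → ℂ, ContDiff ℝ 1 φ → HasCompactSupport φ →
      ‖∫ z, F z * dbar φ z‖ ≤ ∫ z, ‖φ z‖ ∂m) {χ : ℕ → ℂ → ℝ} (h : ∀ i, χ i ∈ Unit1)
    (hS : ∫⁻ z, ‖F z‖ₑ * ∑' i, ‖fderiv ℝ (χ i) z‖ₑ ≠ ∞) :
    IsFiniteMeasure (mm F m χ) ∧ ∀ φ : ℂ → ℂ, ContDiff ℝ 1 φ → HasCompactSupport φ →
      ‖∫ z, (kk χ z * F z) * dbar φ z‖ ≤ ∫ z, ‖φ z‖ ∂(mm F m χ) := by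
  have hfin2 : IsFiniteMeasure (volume.withDensity
      (fun z => ‖F z‖ₑ * ∑' i, ‖fderiv ℝ (χ i) z‖ₑ)) := isFiniteMeasure_withDensity hS
  have hfin : IsFiniteMeasure (mm F m χ) := by
    unfold mm
    infer_instance
  refine ⟨hfin, fun φ hφ hc => ?_⟩
  have hdens : Measurable (fun z => ‖F z‖ₑ * ∑' i, ‖fderiv ℝ (χ i) z‖ₑ) := by
    refine hF.enorm.mul (Measurable.tsum fun i => ?_)
    exact ((h i).1.continuous_fderiv (by norm_num)).enorm.measurable
  obtain ⟨C, hC⟩ := bdd_dbar hφ hc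
  obtain ⟨C', hC'⟩ := hc.exists_bound_of_continuous hφ.continuous
  have hdm : Measurable (dbar φ) := (continuous_dbar hφ).measurable
  have hφn : ∀ μ : Measure ℂ, IsFiniteMeasure μ → Integrable (fun z => ‖φ z‖) μ := by
    intro μ hμ
    refine Integrable.of_bound hφ.continuous.norm.aestronglyMeasurable C' ?_
    exact Eventually.of_forall fun z => by simpa using hC' z
  -- the bound for every partial product
  have key : ∀ n : ℕ, ‖∫ z, (((∏ i ∈ Finset.range n, (1 - χ i z) : ℝ) : ℂ) * F z) * dbar φ z‖ ≤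
      ∫ z, ‖φ z‖ ∂(mm F m χ) := by
    intro n
    set k : ℂ → ℝ := fun w => ∏ i ∈ Finset.range n, (1 - χ i w) with hk
    have hkd : ContDiff ℝ 1 k := prod_contDiff h n
    have hkC : ContDiff ℝ 1 (fun w => (k w : ℂ)) := ofRealCLM.contDiff.comp hkd
    set ψ : ℂ → ℂ := fun w => (k w : ℂ) * φ w with hψ
    have hψd : ContDiff ℝ 1 ψ := hkC.mul hφ
    have hψc : HasCompactSupport ψ := hc.mul_left
    have hdb : ∀ z, dbar ψ z = (k z : ℂ) * dbar φ z + φ z * dbar (fun w => (k w : ℂ)) z := by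
      intro z
      exact dbar_mul _ _ z (hkC.differentiable (by norm_num) z) (hφ.differentiable (by norm_num) z)
    obtain ⟨D, hD⟩ := bdd_dbar hψd hψc
    have hI1 : Integrable (fun z => F z * dbar ψ z) :=
      hi.mul_bdd (c := D) (continuous_dbar hψd).aestronglyMeasurable (Eventually.of_forall hD)
    have hI2 : Integrable (fun z => ((k z : ℂ) * F z) * dbar φ z) := by
      have : (fun z => ((k z : ℂ) * F z) * dbar φ z) = fun z => F z * ((k z : ℂ) * dbar φ z) := by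
        funext z; ring
      rw [this]
      refine hi.mul_bdd (c := C) (hkC.continuous.mul (continuous_dbar hφ)).aestronglyMeasurable
        (Eventually.of_forall fun z => ?_)
      rw [norm_mul, Complex.norm_real, Real.norm_of_nonneg (prod_mem h n z).1]
      exact (mul_le_of_le_one_left (norm_nonneg _) (prod_mem h n z).2).trans (hC z)
    have hI3 : Integrable (fun z => F z * (φ z * dbar (fun w => (k w : ℂ)) z)) := by
      have : (fun z => F z * (φ z * dbar (fun w => (k w : ℂ)) z)) =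
          fun z => F z * dbar ψ z - ((k z : ℂ) * F z) * dbar φ z := by
        funext z; rw [hdb z]; ring
      rw [this]
      exact hI1.sub hI2
    have e : ∫ z, ((k z : ℂ) * F z) * dbar φ z =
        (∫ z, F z * dbar ψ z) - ∫ z, F z * (φ z * dbar (fun w => (k w : ℂ)) z) := by
      rw [← integral_sub hI1 hI3]
      refine integral_congr_ae (Eventually.of_forall fun z => ?_)
      show ((k z : ℂ) * F z) * dbar φ z =
        F z * dbar ψ z - F z * (φ z * dbar (fun w => (k w : ℂ)) z)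
      rw [hdb z]; ring
    have b1 : ‖∫ z, F z * dbar ψ z‖ ≤ ∫ z, ‖φ z‖ ∂m := by
      refine (hw ψ hψd hψc).trans ?_
      refine integral_mono_of_nonneg (Eventually.of_forall fun z => norm_nonneg _) (hφn m hm)
        (Eventually.of_forall fun z => ?_)
      show ‖(k z : ℂ) * φ z‖ ≤ ‖φ z‖
      rw [norm_mul, Complex.norm_real, Real.norm_of_nonneg (prod_mem h n z).1]
      exact mul_le_of_le_one_left (norm_nonneg _) (prod_mem h n z).2
    have b2 : ‖∫ z, F z * (φ z * dbar (fun w => (k w : ℂ)) z)‖ ≤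
        ∫ z, ‖φ z‖ ∂(volume.withDensity (fun z => ‖F z‖ₑ * ∑' i, ‖fderiv ℝ (χ i) z‖ₑ)) := by
      have c1 : ‖∫ z, F z * (φ z * dbar (fun w => (k w : ℂ)) z)‖ₑ ≤
          ∫⁻ z, ‖φ z‖ₑ ∂(volume.withDensity (fun z => ‖F z‖ₑ * ∑' i, ‖fderiv ℝ (χ i) z‖ₑ)) := by
        refine (enorm_integral_le_lintegral_enorm _).trans ?_
        rw [lintegral_withDensity_eq_lintegral_mul _ hdens hφ.continuous.enorm.measurable]
        refine lintegral_mono fun z => ?_
        show ‖F z * (φ z * dbar (fun w => (k w : ℂ)) z)‖ₑ ≤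
          (‖F z‖ₑ * ∑' i, ‖fderiv ℝ (χ i) z‖ₑ) * ‖φ z‖ₑ
        rw [enorm_mul, enorm_mul]
        have d1 : ‖dbar (fun w => (k w : ℂ)) z‖ₑ ≤ ∑' i, ‖fderiv ℝ (χ i) z‖ₑ := by
          have d2 : ‖dbar (fun w => (k w : ℂ)) z‖ₑ ≤ ‖fderiv ℝ k z‖ₑ := by
            have := ENNReal.ofReal_le_ofReal
              (norm_dbar_ofReal_le k z (hkd.differentiable (by norm_num) z))
            simpa only [ofReal_norm] using this
          exact (d2.trans (fderiv_prod_le h n z)).trans (ENNReal.sum_le_tsum _)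
        calc ‖F z‖ₑ * (‖φ z‖ₑ * ‖dbar (fun w => (k w : ℂ)) z‖ₑ)
            ≤ ‖F z‖ₑ * (‖φ z‖ₑ * ∑' i, ‖fderiv ℝ (χ i) z‖ₑ) := by gcongr
          _ = _ := by ring
      have c2 : ∫⁻ z, ‖φ z‖ₑ ∂(volume.withDensity (fun z => ‖F z‖ₑ * ∑' i, ‖fderiv ℝ (χ i) z‖ₑ)) =
          ENNReal.ofReal (∫ z, ‖φ z‖
            ∂(volume.withDensity (fun z => ‖F z‖ₑ * ∑' i, ‖fderiv ℝ (χ i) z‖ₑ))) := by
        rw [ofReal_integral_eq_lintegral_ofReal (hφn _ hfin2)
          (Eventually.of_forall fun z => norm_nonneg _)]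
        simp only [ofReal_norm]
      rw [c2, ← ofReal_norm, ENNReal.ofReal_le_ofReal_iff
        (integral_nonneg fun z => norm_nonneg _)] at c1
      exact c1
    have e2 : ∫ z, ‖φ z‖ ∂(mm F m χ) = (∫ z, ‖φ z‖ ∂m) +
        ∫ z, ‖φ z‖ ∂(volume.withDensity (fun z => ‖F z‖ₑ * ∑' i, ‖fderiv ℝ (χ i) z‖ₑ)) :=
      integral_add_measure (hφn m hm) (hφn _ hfin2)
    rw [e2]
    have : ‖∫ z, ((k z : ℂ) * F z) * dbar φ z‖ ≤ ‖∫ z, F z * dbar ψ z‖ +
        ‖∫ z, F z * (φ z * dbar (fun w => (k w : ℂ)) z)‖ := by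
      rw [e]; exact norm_sub_le _ _
    exact this.trans (add_le_add b1 b2)
  -- the limit
  have hlim : Tendsto (fun n : ℕ =>
      ∫ z, (((∏ i ∈ Finset.range n, (1 - χ i z) : ℝ) : ℂ) * F z) * dbar φ z) atTop
      (𝓝 (∫ z, (kk χ z * F z) * dbar φ z)) := by
    refine tendsto_integral_of_dominated_convergence (fun z => ‖F z‖ * C) (fun n => ?_)
      (hi.norm.mul_const C) (fun n => ?_) ?_
    · have hkd : ContDiff ℝ 1 _ := prod_contDiff h n
      exact (((continuous_ofReal.comp hkd.continuous).measurable.mul hF).mul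
        hdm).aestronglyMeasurable
    · refine Eventually.of_forall fun z => ?_
      rw [norm_mul, norm_mul, Complex.norm_real, Real.norm_of_nonneg (prod_mem h n z).1]
      have h1 := (prod_mem h n z).2
      have h2 := hC z
      have h3 := norm_nonneg (F z)
      have h4 := norm_nonneg (dbar φ z)
      have h5 := (prod_mem h n z).1
      calc (∏ i ∈ Finset.range n, (1 - χ i z)) * ‖F z‖ * ‖dbar φ z‖ ≤ 1 * ‖F z‖ * C := by
            gcongr
        _ = ‖F z‖ * C := by ring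
    · refine Eventually.of_forall fun z => ?_
      exact (((continuous_ofReal.tendsto _).comp (prod_tendsto h z)).mul_const (F z)).mul_const _
  exact le_of_tendsto hlim.norm (Eventually.of_forall key)

end CarA
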