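import Mathlib

/-!
# CarA/Bump : bump functions for discs and rectangles with gradient bounds

* `bump`: fix one smooth function `p : ℝ → [0,1]` (`Real.smoothTransition`), `p s = 0` for `s ≤ 0`, `p s = 1` for
  `s ≥ 1`; its derivative is continuous and vanishes off `[0,1]`, so `|p'| ≤ C₀`. Put
  `χ z = p ((4ρ² - |z - a|²)/(3ρ²))`: it is `1` if `|z - a| ≤ ρ`, `0` if `|z - a| ≥ 2ρ`. Its derivative is
  `p'(…) · (-2⟨z - a, ·⟩/(3ρ²))`, which vanishes for `|z - a| > 2ρ` and has norm `≤ C₀ · 4ρ/(3ρ²)` otherwise.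
* `strip`: `χ z = q((re z - c)/t) · q((im z - (y₁+y₂)/2)/…)`, more precisely
  `χ z = p(2 - |re z - c|²/t² …)`; one possible formula: let `q s = p ((4 - s²)/3)` (`1` for `|s| ≤ 1`, `0` for `|s| ≥ 2`, smooth, `|q'| ≤ C₁`) and
  `e s = p (2 + s)` (`0` for `s ≤ -2`, `1` for `s ≥ -1`, `|e'| ≤ C₀`). Then
  `χ z = q((re z - c)/t) · e((im z - y₁)/τ) · e((y₂ - im z)/τ)` is `1` on the rectangle
  `|re z - c| ≤ t`, `y₁ - τ ≤ im z ≤ y₂ + τ` and vanishes if `|re z - c| ≥ 2t` or `im z ≤ y₁ - 2τ` or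
  `im z ≥ y₂ + 2τ`; its gradient is at most `C₁/t + 2C₀/τ`.
-/

open Metric Set

namespace CarA

open Complex

/-- a smooth step -/
noncomputable def bmE (s : ℝ) : ℝ := Real.smoothTransition (2 + s)

theorem bmE_zero {s : ℝ} (h : s ≤ -2) : bmE s = 0 :=
  Real.smoothTransition.zero_of_nonpos (by linarith)

theorem bmE_one {s : ℝ} (h : -1 ≤ s) : bmE s = 1 :=
  Real.smoothTransition.one_of_one_le (by linarith)

theorem bmE_contDiff : ContDiff ℝ 1 bmE :=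
  Real.smoothTransition.contDiff.comp (contDiff_const.add contDiff_id)

theorem bmE_deriv : ∃ C : ℝ, 0 < C ∧ ∀ s, |deriv bmE s| ≤ C := by
  have hc : Continuous (deriv bmE) := bmE_contDiff.continuous_deriv (le_refl _)
  have hs : HasCompactSupport (deriv bmE) := by
    refine HasCompactSupport.of_support_subset_isCompact (isCompact_Icc (a := (-2 : ℝ)) (b := -1)) ?_
    intro s hs
    by_contra h
    apply hs
    rw [mem_Icc, not_and_or, not_le, not_le] at h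
    rcases h with h | h
    · have h1 : bmE =ᶠ[nhds s] fun _ => 0 := by
        filter_upwards [Iio_mem_nhds h] with x hx
        exact bmE_zero (le_of_lt hx)
      rw [h1.deriv_eq, deriv_const]
    · have h1 : bmE =ᶠ[nhds s] fun _ => 1 := by
        filter_upwards [Ioi_mem_nhds h] with x hx
        exact bmE_one (le_of_lt hx)
      rw [h1.deriv_eq, deriv_const]
  obtain ⟨C, hC⟩ := hc.bounded_above_of_compact_support hs
  refine ⟨max C 1, by positivity, fun s => ?_⟩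
  exact (hC s).trans (le_max_left _ _)

/-- functions with values in `[0,1]` and bounded gradient -/
def BmB (f : ℂ → ℝ) (A : ℝ) : Prop :=
  ContDiff ℝ 1 f ∧ (∀ z, 0 ≤ f z ∧ f z ≤ 1) ∧ ∀ z, ‖fderiv ℝ f z‖ ≤ A

theorem BmB.mul {f g : ℂ → ℝ} {A B : ℝ} (hf : BmB f A) (hg : BmB g B) :
    BmB (fun z => f z * g z) (A + B) := by
  refine ⟨hf.1.mul hg.1, fun z => ?_, fun z => ?_⟩
  · exact ⟨mul_nonneg (hf.2.1 z).1 (hg.2.1 z).1, mul_le_one₀ (hf.2.1 z).2 (hg.2.1 z).1 (hg.2.1 z).2⟩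
  · have h1 : fderiv ℝ (fun z => f z * g z) z = f z • fderiv ℝ g z + g z • fderiv ℝ f z :=
      fderiv_fun_mul (hf.1.differentiable (by norm_num)).differentiableAt
        (hg.1.differentiable (by norm_num)).differentiableAt
    rw [h1]
    refine (norm_add_le _ _).trans ?_
    rw [norm_smul, norm_smul, Real.norm_of_nonneg (hf.2.1 z).1, Real.norm_of_nonneg (hg.2.1 z).1]
    have h2 : f z * ‖fderiv ℝ g z‖ ≤ 1 * B :=
      mul_le_mul (hf.2.1 z).2 (hg.2.2 z) (norm_nonneg _) zero_le_one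
    have h3 : g z * ‖fderiv ℝ f z‖ ≤ 1 * A :=
      mul_le_mul (hg.2.1 z).2 (hf.2.2 z) (norm_nonneg _) zero_le_one
    linarith

theorem BmB.aff {C : ℝ} (hC0 : 0 < C) (hC : ∀ s, |deriv bmE s| ≤ C) (L : ℂ →L[ℝ] ℝ) (b : ℝ) {A : ℝ}
    (hL : ‖L‖ ≤ A) : BmB (fun z => bmE (L z + b)) (C * A) := by
  refine ⟨bmE_contDiff.comp (L.contDiff.add contDiff_const), fun z => ?_, fun z => ?_⟩
  · exact ⟨Real.smoothTransition.nonneg _, Real.smoothTransition.le_one _⟩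
  · have h1 : HasFDerivAt (fun z => L z + b) L z := L.hasFDerivAt.add_const b
    have h2 : HasDerivAt bmE (deriv bmE (L z + b)) (L z + b) :=
      (bmE_contDiff.differentiable (by norm_num)).differentiableAt.hasDerivAt
    have h3 := h2.comp_hasFDerivAt z h1
    have h4 : fderiv ℝ (fun z => bmE (L z + b)) z = deriv bmE (L z + b) • L := h3.fderiv
    rw [h4, norm_smul, Real.norm_eq_abs]
    exact mul_le_mul (hC _) hL (norm_nonneg _) hC0.le

theorem bm_re {t : ℝ} (ht : 0 < t) (a : ℝ) (ha : |a| = 1) : ‖(a / t) • reCLM‖ ≤ 1 / t := by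
  rw [norm_smul, reCLM_norm, mul_one, Real.norm_eq_abs, abs_div, ha, abs_of_pos ht]

theorem bm_im {t : ℝ} (ht : 0 < t) (a : ℝ) (ha : |a| = 1) : ‖(a / t) • imCLM‖ ≤ 1 / t := by
  rw [norm_smul, imCLM_norm, mul_one, Real.norm_eq_abs, abs_div, ha, abs_of_pos ht]

theorem bump : ∃ C : ℝ, 0 < C ∧ ∀ (a : ℂ) (ρ : ℝ), 0 < ρ → ∃ χ : ℂ → ℝ, ContDiff ℝ 1 χ ∧
    (∀ z, 0 ≤ χ z ∧ χ z ≤ 1) ∧ (∀ z ∈ closedBall a ρ, χ z = 1) ∧
    (∀ z, z ∉ ball a (2 * ρ) → χ z = 0) ∧ ∀ z, ‖fderiv ℝ χ z‖ ≤ C / ρ := by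
  set η : ContDiffBump (0 : ℂ) := ⟨1, 2, by norm_num, by norm_num⟩ with hη
  have hcd : ContDiff ℝ 1 η := η.contDiff
  obtain ⟨C, hC⟩ := (hcd.continuous_fderiv (by norm_num)).bounded_above_of_compact_support
    (η.hasCompactSupport.fderiv ℝ)
  refine ⟨max C 1, by positivity, fun a ρ hρ => ?_⟩
  have hn : ∀ z, dist (ρ⁻¹ • (z - a)) 0 = dist z a / ρ := by
    intro z
    rw [dist_zero_right, norm_smul, Real.norm_of_nonneg (inv_nonneg.2 hρ.le), dist_eq_norm]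
    ring
  refine ⟨fun z => η (ρ⁻¹ • (z - a)), ?_, fun z => ⟨η.nonneg, η.le_one⟩, ?_, ?_, ?_⟩
  · exact hcd.comp ((contDiff_id.sub contDiff_const).const_smul ρ⁻¹)
  · intro z hz
    apply η.one_of_mem_closedBall
    rw [mem_closedBall, hn, div_le_iff₀ hρ, hη, one_mul]
    exact hz
  · intro z hz
    apply η.zero_of_le_dist
    rw [mem_ball, not_lt] at hz
    rw [hn, le_div_iff₀ hρ]
    exact hz
  · intro z
    have h1 : HasFDerivAt (fun z : ℂ => ρ⁻¹ • (z - a)) (ρ⁻¹ • ContinuousLinearMap.id ℝ ℂ) z :=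
      ((hasFDerivAt_id z).sub_const a).const_smul ρ⁻¹
    have h2 : HasFDerivAt η (fderiv ℝ η (ρ⁻¹ • (z - a))) (ρ⁻¹ • (z - a)) :=
      (hcd.differentiable (by norm_num)).differentiableAt.hasFDerivAt
    have h3 := h2.comp z h1
    have h4 : fderiv ℝ (fun z => η (ρ⁻¹ • (z - a))) z =
        ρ⁻¹ • fderiv ℝ η (ρ⁻¹ • (z - a)) := by
      have h5 : fderiv ℝ (fun z => η (ρ⁻¹ • (z - a))) z =
        (fderiv ℝ η (ρ⁻¹ • (z - a))).comp (ρ⁻¹ • ContinuousLinearMap.id ℝ ℂ) := h3.fderiv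
      rw [h5]
      ext v
      simp
    rw [h4, norm_smul, Real.norm_of_nonneg (inv_nonneg.2 hρ.le), div_eq_inv_mul]
    exact mul_le_mul_of_nonneg_left ((hC _).trans (le_max_left _ _)) (inv_nonneg.2 hρ.le)

theorem strip : ∃ C : ℝ, 0 < C ∧ ∀ (c y₁ y₂ t τ : ℝ), 0 < t → 0 < τ → y₁ ≤ y₂ →
    ∃ χ : ℂ → ℝ, ContDiff ℝ 1 χ ∧ (∀ z, 0 ≤ χ z ∧ χ z ≤ 1) ∧
      (∀ z : ℂ, |z.re - c| ≤ t → y₁ - τ ≤ z.im → z.im ≤ y₂ + τ → χ z = 1) ∧
      (∀ z : ℂ, (2 * t ≤ |z.re - c| ∨ z.im ≤ y₁ - 2 * τ ∨ y₂ + 2 * τ ≤ z.im) → χ z = 0) ∧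
      ∀ z, ‖fderiv ℝ χ z‖ ≤ C / t + C / τ := by
  obtain ⟨C, hC0, hC⟩ := bmE_deriv
  refine ⟨2 * C, by positivity, fun c y₁ y₂ t τ ht hτ hy => ?_⟩
  have f1 := BmB.aff hC0 hC ((1 / t) • reCLM) (-c / t) (bm_re ht 1 (by simp))
  have f2 := BmB.aff hC0 hC ((-1 / t) • reCLM) (c / t) (bm_re ht (-1) (by simp))
  have f3 := BmB.aff hC0 hC ((1 / τ) • imCLM) (-y₁ / τ) (bm_im hτ 1 (by simp))
  have f4 := BmB.aff hC0 hC ((-1 / τ) • imCLM) (y₂ / τ) (bm_im hτ (-1) (by simp))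
  have e1 : ∀ z : ℂ, ((1 / t) • reCLM) z + -c / t = (z.re - c) / t := by
    intro z
    simp only [_root_.smul_apply, reCLM_apply, smul_eq_mul]
    ring
  have e2 : ∀ z : ℂ, ((-1 / t) • reCLM) z + c / t = (c - z.re) / t := by
    intro z
    simp only [_root_.smul_apply, reCLM_apply, smul_eq_mul]
    ring
  have e3 : ∀ z : ℂ, ((1 / τ) • imCLM) z + -y₁ / τ = (z.im - y₁) / τ := by
    intro z
    simp only [_root_.smul_apply, imCLM_apply, smul_eq_mul]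
    ring
  have e4 : ∀ z : ℂ, ((-1 / τ) • imCLM) z + y₂ / τ = (y₂ - z.im) / τ := by
    intro z
    simp only [_root_.smul_apply, imCLM_apply, smul_eq_mul]
    ring
  have h := (f1.mul f2).mul (f3.mul f4)
  refine ⟨_, h.1, h.2.1, ?_, ?_, ?_⟩
  · intro z h1 h2 h3
    rw [abs_le] at h1
    rw [e1, e2, e3, e4, bmE_one, bmE_one, bmE_one, bmE_one]
    · norm_num
    · rw [le_div_iff₀ hτ]
      linarith
    · rw [le_div_iff₀ hτ]
      linarith
    · rw [le_div_iff₀ ht]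
      linarith
    · rw [le_div_iff₀ ht]
      linarith
  · intro z hz
    rw [e1, e2, e3, e4]
    rcases hz with h1 | h1 | h1
    · rcases le_abs.1 h1 with h2 | h2
      · have h3 : bmE ((c - z.re) / t) = 0 := by
          apply bmE_zero
          rw [div_le_iff₀ ht]
          linarith
        rw [h3, mul_zero, zero_mul]
      · have h3 : bmE ((z.re - c) / t) = 0 := by
          apply bmE_zero
          rw [div_le_iff₀ ht]
          linarith
        rw [h3, zero_mul, zero_mul]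
    · have h3 : bmE ((z.im - y₁) / τ) = 0 := by
        apply bmE_zero
        rw [div_le_iff₀ hτ]
        linarith
      rw [h3, zero_mul, mul_zero]
    · have h3 : bmE ((y₂ - z.im) / τ) = 0 := by
        apply bmE_zero
        rw [div_le_iff₀ hτ]
        linarith
      rw [h3, mul_zero, mul_zero]
  · intro z
    refine (h.2.2 z).trans (le_of_eq ?_)
    ring

end CarA
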