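import Mathlib
import Pool.Agent.CarA.Defs
import Pool.Agent.CarA.Bump
import Pool.Agent.CarA.AtA

/-!
# CarA/AtB : removal of the atoms

`Pre X F m` gives `Dat X F' m'` with `F' = kk χ · F`.

Proof. The set `ι = {a | m {a} ≠ 0}` is countable (`Measure.countable_meas_pos_of_disjoint_iUnion` or the like:
`∑ m{a} ≤ m univ < ∞`). Let `v = volume {F ≠ 0} > 0`. Choose numbers `ε_a > 0` (`a ∈ ι`) with `∑ ε_a < min(1, v/…)`
(`ENNReal.exists_pos_sum_of_countable`), and by `atom` radii `ρ_a ∈ (0, 1)` with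
`∫_{closedBall a (2ρ_a)} |F| ≤ 2ρ_a (6 m{a} + ε_a)` and `volume (closedBall a (2ρ_a)) ≤ ε_a`. Let `χ_a` be the bump of
`bump` for `a, ρ_a`; enumerate `ι` by `ℕ` with an encoding: `χ i = χ_a` if `decode i = some a`, `0` otherwise. Then
`∫ |F| ∑ |∇χ i| ≤ ∑_a (C/ρ_a) ∫_{closedBall a (2ρ_a)} |F| ≤ ∑_a 2C (6 m{a} + ε_a) < ∞` (the gradient vanishes off
`closedBall a (2ρ_a)`, as `χ_a = 0` off the ball), so `cut_weak` gives `weak`.
* `small` at `x`: if `m{x} = 0`: `|F'| ≤ |F|` and `atom` with `m{x} = 0` (all `ε`). If `x = a ∈ ι`: `F' = 0` on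
  `closedBall a ρ_a` (`kk_zero`).
* `ne`: `kk χ = 1` off the union of the discs (`kk_one`), whose volume is `< v` (if `v = ∞` or finite alike), so
  `F' = F ≠ 0` on a set of positive measure.
-/

open MeasureTheory Metric Set Filter Topology
open scoped ENNReal

namespace CarA

theorem exists_dat {X : Set ℂ} {F : ℂ → ℂ} {m : Measure ℂ} (h : Pre X F m) :
    ∃ (F' : ℂ → ℂ) (m' : Measure ℂ), Dat X F' m' := by
  sorry

end CarA
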