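import Mathlib

/-!
# CarA/Branch : a holomorphic square root of `(w - a)/(w - b)` off a path from `a` to `b`

`γ : [0,1] → ℂ` continuous, `K = γ '' [0,1] ⊆ closedBall a r`, `a = γ 0`, `b = γ 1`, `|b - a| = r`.

Proof. (1) A continuous logarithm of `(w - a)/(w - b)` on the open set `Kᶜ`: the homotopy
`H(t, w) = (w - a)/(w - γ t)`, `t ∈ [0,1]`, `w ∈ Kᶜ`, takes values in `ℂ \ {0}` and `H(0, ·) = 1`; lift it through the
covering `exp : ℂ → ℂ \ {0}` starting from the constant `0` (`Complex.isCoveringMap_exp` or similar, `IsCoveringMap.liftHomotopy`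
in `Mathlib/Topology/Homotopy/Lifting`); the lift at `t = 1` is a continuous `l` with `exp (l w) = (w - a)/(w - b)`.
(2) `l` is holomorphic: locally `l = log(…) + const` for a branch of the logarithm (or: a continuous `l` with holomorphic
`exp ∘ l` is holomorphic, since `exp` is a local homeomorphism with holomorphic inverse: `HasStrictDerivAt.to_localInverse`,
or `HasDerivAt.of_local_left_inverse`). Put `s w = exp (l w / 2)`: `s² = (w - a)/(w - b)`, holomorphic on `Kᶜ`.
(3) Normalisation: on the set `D = {w | 3 r < |w - a|}`, which is connected (it is the image of the convex set `{Re ζ > log (3r)}` under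
`ζ ↦ a + exp ζ`), `(w - a)/(w - b) = 1 + (b - a)/(w - b)` and `|(b - a)/(w - b)| < 1/2`, so `s²` has positive real part and
`Re s ≠ 0` on `D`. By connectedness `Re s` has a constant sign on `D`; replace `s` by `-s` if it is negative. By continuity
`Re s > 0` for `3r ≤ |w - a|` too (or use `2r <` instead); we only state it for `3 r < |w - a|`.
-/

open Set Metric Complex

namespace CarA

private theorem log_of_homotopy {A : Type*} [TopologicalSpace A] {H : unitInterval × A → ℂ}
    (hH : Continuous H) (h0 : ∀ p, H p ≠ 0) (c : ℂ) (hc : ∀ a, H (0, a) = Complex.exp c) :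
    ∃ g : A → ℂ, Continuous g ∧ ∀ a, Complex.exp (g a) = H (1, a) := by
  have cov := Complex.isCoveringMap_exp
  have hH' : Continuous fun p => (⟨H p, h0 p⟩ : {z : ℂ // z ≠ 0}) := hH.subtype_mk h0
  let HH : C(unitInterval × A, {z : ℂ // z ≠ 0}) := ⟨fun p => ⟨H p, h0 p⟩, hH'⟩
  let f : C(A, ℂ) := ContinuousMap.const A c
  have H0 : ∀ a, HH (0, a) = (fun z : ℂ => (⟨_, z.exp_ne_zero⟩ : {z : ℂ // z ≠ 0})) (f a) :=
    fun a => Subtype.ext (hc a)
  let G := cov.liftHomotopy HH f H0
  refine ⟨fun a => G (1, a), G.continuous.comp (by fun_prop), fun a => ?_⟩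
  have h1 := congrFun (cov.liftHomotopy_lifts HH f H0) (1, a)
  exact congrArg Subtype.val h1

/-- a continuous logarithm off the path -/
private theorem exists_log {γ : ℝ → ℂ} (hγ : ContinuousOn γ (Icc 0 1)) :
    ∃ l : ℂ → ℂ, ContinuousOn l (γ '' Icc 0 1)ᶜ ∧
      ∀ w ∉ γ '' Icc 0 1, exp (l w) = (w - γ 0) / (w - γ 1) := by
  classical
  have hc : Continuous fun t : unitInterval => γ t :=
    hγ.comp_continuous continuous_subtype_val fun t => t.2
  have hne : ∀ (t : unitInterval) (w : ((γ '' Icc 0 1)ᶜ : Set ℂ)), (w : ℂ) - γ t ≠ 0 := by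
    intro t w h
    rw [sub_eq_zero] at h
    exact w.2 ⟨t, t.2, h.symm⟩
  obtain ⟨g, hg, hg2⟩ := log_of_homotopy
    (A := ((γ '' Icc 0 1)ᶜ : Set ℂ))
    (H := fun p => ((p.2 : ℂ) - γ (0 : unitInterval)) / ((p.2 : ℂ) - γ p.1))
    (by
      refine Continuous.div (by fun_prop) ?_ fun p => hne p.1 p.2
      exact (continuous_subtype_val.comp continuous_snd).sub (hc.comp continuous_fst))
    (fun p => div_ne_zero (hne 0 p.2) (hne p.1 p.2)) 0
    (fun w => by
      simp only
      rw [div_self (hne 0 w), Complex.exp_zero])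
  refine ⟨fun z => if h : z ∈ (γ '' Icc 0 1)ᶜ then g ⟨z, h⟩ else 0, ?_, fun z hz => ?_⟩
  · rw [continuousOn_iff_continuous_domRestrict]
    have e : (γ '' Icc 0 1)ᶜ.domRestrict
        (fun z => if h : z ∈ (γ '' Icc 0 1)ᶜ then g ⟨z, h⟩ else 0) = g := by
      funext a
      rw [Set.domRestrict_apply, dif_pos a.2]
    rw [e]
    exact hg
  · have hz' : z ∈ (γ '' Icc 0 1)ᶜ := hz
    simp only
    rw [dif_pos hz', hg2 ⟨z, hz'⟩]
    simp

/-- a continuous square root of a differentiable function without zeros is differentiable -/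
private theorem differentiableAt_sqrt {s q : ℂ → ℂ} {w : ℂ} (hs : ContinuousAt s w)
    (hq : DifferentiableAt ℂ q w) (h : ∀ᶠ z in nhds w, s z ^ 2 = q z) (h0 : s w ≠ 0) :
    DifferentiableAt ℂ s w := by
  have h2 : s w + s w ≠ 0 := by
    intro h3
    apply h0
    linear_combination (1 / 2 : ℂ) * h3
  have hcont : ContinuousAt (fun z => s z + s w) w := hs.add continuousAt_const
  have hev : ∀ᶠ z in nhds w, s z + s w ≠ 0 := hcont.eventually_ne h2
  have hd : HasDerivAt s (deriv q w / (s w + s w)) w := by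
    rw [hasDerivAt_iff_tendsto_slope]
    have h3 : Filter.Tendsto (slope q w) (nhdsWithin w {w}ᶜ) (nhds (deriv q w)) :=
      hasDerivAt_iff_tendsto_slope.1 hq.hasDerivAt
    have h4 : Filter.Tendsto (fun z => s z + s w) (nhdsWithin w {w}ᶜ) (nhds (s w + s w)) :=
      hcont.tendsto.mono_left nhdsWithin_le_nhds
    refine (h3.div h4 h2).congr' ?_
    have h5 : ∀ᶠ z in nhdsWithin w {w}ᶜ, s z + s w ≠ 0 ∧ s z ^ 2 = q z :=
      (hev.and h).filter_mono nhdsWithin_le_nhds
    filter_upwards [h5] with z hz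
    have hw : s w ^ 2 = q w := h.self_of_nhds
    simp only [Pi.div_apply, slope, vsub_eq_sub, smul_eq_mul]
    rw [← hz.2, ← hw]
    have h6 := hz.1
    field_simp
    ring
  exact hd.differentiableAt

private theorem preconnected_far (a : ℂ) {R : ℝ} (hR : 0 < R) :
    IsPreconnected {w : ℂ | R < ‖w - a‖} := by
  have h1 : {w : ℂ | R < ‖w - a‖} =
      (fun ζ : ℂ => a + exp ζ) '' {ζ : ℂ | Real.log R < ζ.re} := by
    ext w
    constructor
    · intro hw
      have hw' : R < ‖w - a‖ := hw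
      have hne : w - a ≠ 0 := norm_pos_iff.1 (hR.trans hw')
      refine ⟨log (w - a), ?_, ?_⟩
      · show Real.log R < (log (w - a)).re
        rw [Complex.log_re]
        exact Real.log_lt_log hR hw'
      · simp only
        rw [Complex.exp_log hne]
        ring
    · rintro ⟨ζ, hζ, rfl⟩
      show R < ‖a + exp ζ - a‖
      rw [add_sub_cancel_left, Complex.norm_exp]
      rw [← Real.log_lt_iff_lt_exp hR]
      exact hζ
  rw [h1]
  refine ((convex_halfSpace_re_gt (Real.log R)).isPreconnected).image _ ?_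
  fun_prop

theorem exists_sqrt {γ : ℝ → ℂ} (hγ : ContinuousOn γ (Icc 0 1)) {a : ℂ} {r : ℝ} (hr : 0 < r)
    (h0 : γ 0 = a) (h1 : dist (γ 1) a = r) (hd : ∀ t ∈ Icc (0 : ℝ) 1, dist (γ t) a ≤ r) :
    ∃ s : ℂ → ℂ, DifferentiableOn ℂ s (γ '' Icc 0 1)ᶜ ∧
      (∀ w ∉ γ '' Icc 0 1, s w ^ 2 = (w - a) / (w - γ 1)) ∧
      ∀ w, 3 * r < ‖w - a‖ → 0 < (s w).re := by
  obtain ⟨l, hl, hl2⟩ := exists_log hγ
  rw [h0] at hl2
  have hK : IsOpen (γ '' Icc 0 1)ᶜ := (isCompact_Icc.image_of_continuousOn hγ).isClosed.isOpen_compl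
  set s : ℂ → ℂ := fun w => exp (l w / 2) with hs
  have hsq : ∀ w ∉ γ '' Icc 0 1, s w ^ 2 = (w - a) / (w - γ 1) := by
    intro w hw
    rw [← hl2 w hw, hs]
    simp only
    rw [← Complex.exp_nat_mul]
    congr 1
    push_cast
    ring
  have hsc : ContinuousOn s (γ '' Icc 0 1)ᶜ := (hl.div_const 2).cexp
  have hsd : DifferentiableOn ℂ s (γ '' Icc 0 1)ᶜ := by
    intro w hw
    refine DifferentiableAt.differentiableWithinAt ?_
    have hn := hK.mem_nhds hw
    have hne : w - γ 1 ≠ 0 := by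
      intro h
      rw [sub_eq_zero] at h
      exact hw ⟨1, by norm_num, h.symm⟩
    refine differentiableAt_sqrt (q := fun z => (z - a) / (z - γ 1)) (hsc.continuousAt hn) ?_ ?_
      (Complex.exp_ne_zero _)
    · exact DifferentiableAt.div (by fun_prop) (by fun_prop) hne
    · filter_upwards [hn] with z hz
      exact hsq z hz
  have hDK : ∀ w, 3 * r < ‖w - a‖ → w ∉ γ '' Icc 0 1 := by
    rintro w hw ⟨t, ht, rfl⟩
    have := hd t ht
    rw [dist_eq_norm] at this
    linarith
  have hne : ∀ w, 3 * r < ‖w - a‖ → (s w).re ≠ 0 := by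
    intro w hw hre
    have h3 := hsq w (hDK w hw)
    have hb : ‖γ 1 - a‖ = r := by rw [← dist_eq_norm]; exact h1
    have h4 : 2 * r < ‖w - γ 1‖ := by
      have h5 : ‖w - a‖ ≤ ‖w - γ 1‖ + ‖γ 1 - a‖ := by
        have : w - a = (w - γ 1) + (γ 1 - a) := by ring
        rw [this]
        exact norm_add_le _ _
      linarith
    have hwb : w - γ 1 ≠ 0 := by
      intro h
      rw [h, norm_zero] at h4
      linarith
    have h5 : (w - a) / (w - γ 1) = 1 + (γ 1 - a) / (w - γ 1) := by
      field_simp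
      ring
    have h6 : ‖(γ 1 - a) / (w - γ 1)‖ < 1 := by
      rw [norm_div, hb, div_lt_one (by linarith)]
      linarith
    have h7 : 0 < ((w - a) / (w - γ 1)).re := by
      rw [h5, Complex.add_re, Complex.one_re]
      have := (abs_lt.1 ((Complex.abs_re_le_norm _).trans_lt h6)).1
      linarith
    rw [← h3, pow_two, Complex.mul_re, hre] at h7
    nlinarith [mul_self_nonneg (s w).im]
  have hpre := preconnected_far a (R := 3 * r) (by linarith)
  have hcon : ContinuousOn (fun w => (s w).re) {w : ℂ | 3 * r < ‖w - a‖} :=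
    Complex.continuous_re.comp_continuousOn (hsc.mono fun w hw => hDK w hw)
  by_cases hex : ∃ w, 3 * r < ‖w - a‖ ∧ (s w).re < 0
  · obtain ⟨w₀, hw₀, hneg⟩ := hex
    refine ⟨fun w => - s w, hsd.neg, fun w hw => by simp only; rw [neg_sq]; exact hsq w hw,
      fun w hw => ?_⟩
    simp only [Complex.neg_re]
    by_contra hcon2
    have hpos : 0 < (s w).re := lt_of_le_of_ne (by linarith) (hne w hw).symm
    obtain ⟨z, hz, hz0⟩ := hpre.intermediate_value (a := w₀) (b := w) hw₀ hw hcon ⟨hneg.le, hpos.le⟩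
    exact hne z hz hz0
  · push Not at hex
    exact ⟨s, hsd, hsq, fun w hw => lt_of_le_of_ne (hex w hw) (hne w hw).symm⟩

end CarA
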