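import Mathlib

/-!
# CarA/Kern : integrals of `1/|w - z|` over discs

* `kern_center`: `∫⁻_{|z - w| ≤ R} 1/|w - z| = 2 π R`. Polar coordinates (`Complex.lintegral_comp_polarCoord_symm` or
  `Complex.integral_comp_polarCoord_symm`): the integrand in polar coordinates is `s · (1/s) = 1` on
  `(0, R] × (-π, π)`.
* `kern`: `∫⁻_{closedBall x ρ} 1/|w - z| ≤ 6 π ρ`. If `|w - x| ≤ 2ρ` then `closedBall x ρ ⊆ closedBall w (3ρ)` and
  `kern_center` gives `6πρ`; otherwise `|w - z| ≥ ρ` on `closedBall x ρ`, so the integral is at most `π ρ² / ρ`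
  (`Complex.volume_closedBall`).
* `kern_far`: if `2ρ ≤ |w - x|` then `|w - z| ≥ |w - x|/2` on `closedBall x ρ`, so the integral is at most
  `2πρ²/|w - x|`.
-/

open MeasureTheory Metric Set

namespace CarA

theorem kern_center (w : ℂ) (R : ℝ) (hR : 0 < R) :
    ∫⁻ z in closedBall w R, ENNReal.ofReal (1 / ‖w - z‖) ≤ ENNReal.ofReal (2 * Real.pi * R) := by
  sorry

theorem kern (x w : ℂ) (ρ : ℝ) (hρ : 0 < ρ) :
    ∫⁻ z in closedBall x ρ, ENNReal.ofReal (1 / ‖w - z‖) ≤ ENNReal.ofReal (6 * Real.pi * ρ) := by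
  sorry

theorem kern_far (x w : ℂ) (ρ : ℝ) (hρ : 0 < ρ) (hw : 2 * ρ ≤ ‖w - x‖) :
    ∫⁻ z in closedBall x ρ, ENNReal.ofReal (1 / ‖w - z‖) ≤
      ENNReal.ofReal (2 * Real.pi * ρ ^ 2 / ‖w - x‖) := by
  sorry

end CarA
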