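import Mathlib
import Pool.Agent.CarA.Defs
import Pool.Agent.CarA.Kern

/-!
# CarA/CT : the Cauchy transform `ctr m h z = ∫ h(w)/(w - z) dm(w)` of the measure `h m`

`m` is a finite Borel measure on the plane, `h` is measurable with `|h| ≤ 1`.

* `measurable_ctr`: `StronglyMeasurable.integral_prod_right` (the integrand is a measurable function of `(z, w)`).
* `ctr_ball`: `|ctr z| ≤ ∫⁻ 1/|w - z| dm(w)` (`enorm_integral_le_lintegral_enorm`), Tonelli, `kern`.
* `ctr_dbar`: `∫ ctr · dbar φ = π ∫ φ h dm`. Fubini: `∫∫ |h(w)| |dbar φ(z)| / |w - z| dz dm(w) < ∞` (`dbar φ` is bounded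
  and vanishes off a disc, `kern`), and for fixed `w`:
  `∫ dbar φ(z)/(w - z) dz = - ∫ dbar φ(z)/(z - w) dz = π φ(w)` (`Pool.Lib.integral_dbar_div_sub`).
-/

open MeasureTheory Metric Set Filter Topology
open scoped ENNReal
open Pool.Lib (dbar)

namespace CarA

/-- the Cauchy transform -/
noncomputable def ctr (m : Measure ℂ) (h : ℂ → ℂ) (z : ℂ) : ℂ := ∫ w, h w / (w - z) ∂m

theorem measurable_ctr (m : Measure ℂ) [IsFiniteMeasure m] (h : ℂ → ℂ) (hm : Measurable h) :
    Measurable (ctr m h) := by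
  have h1 : StronglyMeasurable (fun z => ∫ w, h w / (w - z) ∂m) := by
    apply StronglyMeasurable.integral_prod_right
    apply Measurable.stronglyMeasurable
    exact (hm.comp measurable_snd).div (measurable_snd.sub measurable_fst)
  exact h1.measurable

private lemma ct_tonelli (m : Measure ℂ) [IsFiniteMeasure m] (h : ℂ → ℂ)
    (h1 : ∀ z, ‖h z‖ ≤ 1) (x : ℂ) (ρ : ℝ) :
    ∫⁻ z in closedBall x ρ, ‖ctr m h z‖ₑ ≤
      ∫⁻ w, (∫⁻ z in closedBall x ρ, ENNReal.ofReal (1 / ‖w - z‖)) ∂m := by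
  have h2 : ∀ z, ‖ctr m h z‖ₑ ≤ ∫⁻ w, ENNReal.ofReal (1 / ‖w - z‖) ∂m := by
    intro z
    unfold ctr
    refine (enorm_integral_le_lintegral_enorm _).trans (lintegral_mono fun w => ?_)
    rw [← ofReal_norm_eq_enorm]
    apply ENNReal.ofReal_le_ofReal
    rw [norm_div]
    exact div_le_div_of_nonneg_right (h1 w) (norm_nonneg _)
  refine (lintegral_mono h2).trans ?_
  rw [lintegral_lintegral_swap]
  apply Measurable.aemeasurable
  apply Measurable.ennreal_ofReal
  fun_prop

/-- integrability on the product -/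
private lemma ct_integrable (m : Measure ℂ) [IsFiniteMeasure m] (h : ℂ → ℂ) (hm : Measurable h)
    (h1 : ∀ z, ‖h z‖ ≤ 1) {g : ℂ → ℂ} (hg : Continuous g) (hc : HasCompactSupport g) :
    Integrable (fun p : ℂ × ℂ => h p.2 / (p.2 - p.1) * g p.1) (volume.prod m) := by
  obtain ⟨C, hC⟩ := hc.exists_bound_of_continuous hg
  obtain ⟨ρ', hρ'⟩ := hc.isCompact.isBounded.subset_closedBall (0 : ℂ)
  obtain ⟨ρ, hρdef⟩ : ∃ ρ, ρ = max ρ' 1 := ⟨_, rfl⟩
  have hρ0 : 0 < ρ := by rw [hρdef]; exact lt_max_of_lt_right one_pos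
  have hρ : tsupport g ⊆ closedBall (0 : ℂ) ρ :=
    hρ'.trans (closedBall_subset_closedBall (by rw [hρdef]; exact le_max_left _ _))
  have hC0 : 0 ≤ C := (norm_nonneg _).trans (hC 0)
  have hmeas : Measurable (fun p : ℂ × ℂ => h p.2 / (p.2 - p.1) * g p.1) :=
    ((hm.comp measurable_snd).div (measurable_snd.sub measurable_fst)).mul
      (hg.measurable.comp measurable_fst)
  refine ⟨hmeas.aestronglyMeasurable, ?_⟩
  unfold HasFiniteIntegral
  rw [lintegral_prod_symm _ hmeas.enorm.aemeasurable]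
  have hb : ∀ w z : ℂ, ‖h w / (w - z) * g z‖ₑ ≤
      (closedBall (0 : ℂ) ρ).indicator
        (fun z => ENNReal.ofReal C * ENNReal.ofReal (1 / ‖w - z‖)) z := by
    intro w z
    by_cases hz : z ∈ closedBall (0 : ℂ) ρ
    · rw [Set.indicator_of_mem hz, ← ENNReal.ofReal_mul hC0, ← ofReal_norm_eq_enorm]
      apply ENNReal.ofReal_le_ofReal
      rw [norm_mul, norm_div, mul_comm]
      apply mul_le_mul (hC z) _ (by positivity) hC0
      exact div_le_div_of_nonneg_right (h1 w) (norm_nonneg _)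
    · have h0 : g z = 0 := by
        by_contra hne
        exact hz (hρ (subset_tsupport g hne))
      rw [h0, mul_zero, enorm_zero]
      exact zero_le
  calc ∫⁻ w, ∫⁻ z, ‖h w / (w - z) * g z‖ₑ ∂volume ∂m
      ≤ ∫⁻ _w, ENNReal.ofReal C * ENNReal.ofReal (6 * Real.pi * ρ) ∂m := by
        apply lintegral_mono
        intro w
        calc ∫⁻ z, ‖h w / (w - z) * g z‖ₑ
            ≤ ∫⁻ z, (closedBall (0 : ℂ) ρ).indicator
              (fun z => ENNReal.ofReal C * ENNReal.ofReal (1 / ‖w - z‖)) z :=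
              lintegral_mono (hb w)
          _ = ∫⁻ z in closedBall (0 : ℂ) ρ, ENNReal.ofReal C * ENNReal.ofReal (1 / ‖w - z‖) :=
              lintegral_indicator measurableSet_closedBall _
          _ = ENNReal.ofReal C * ∫⁻ z in closedBall (0 : ℂ) ρ, ENNReal.ofReal (1 / ‖w - z‖) := by
              rw [lintegral_const_mul]
              apply Measurable.ennreal_ofReal
              fun_prop
          _ ≤ ENNReal.ofReal C * ENNReal.ofReal (6 * Real.pi * ρ) := by
              gcongr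
              exact kern 0 w ρ hρ0
    _ = ENNReal.ofReal C * ENNReal.ofReal (6 * Real.pi * ρ) * m univ := lintegral_const _
    _ < ⊤ := ENNReal.mul_lt_top (ENNReal.mul_lt_top ENNReal.ofReal_lt_top ENNReal.ofReal_lt_top)
        (measure_lt_top m _)

theorem ctr_ball (m : Measure ℂ) [IsFiniteMeasure m] (h : ℂ → ℂ) (hm : Measurable h)
    (h1 : ∀ z, ‖h z‖ ≤ 1) (x : ℂ) (ρ : ℝ) (hρ : 0 < ρ) :
    ∫⁻ z in closedBall x ρ, ‖ctr m h z‖ₑ ≤ ENNReal.ofReal (6 * Real.pi * ρ) * m univ := by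
  refine (ct_tonelli m h h1 x ρ).trans ?_
  rw [← lintegral_const]
  exact lintegral_mono fun w => kern x w ρ hρ

theorem ctr_dbar (m : Measure ℂ) [IsFiniteMeasure m] (h : ℂ → ℂ) (hm : Measurable h)
    (h1 : ∀ z, ‖h z‖ ≤ 1) (φ : ℂ → ℂ) (hφ : ContDiff ℝ 1 φ) (hc : HasCompactSupport φ) :
    ∫ z, ctr m h z * dbar φ z = Real.pi * ∫ w, φ w * h w ∂m := by
  have hg : Continuous (dbar φ) := Pool.Lib.continuous_dbar hφ
  have hgc : HasCompactSupport (dbar φ) :=
    hc.of_isClosed_subset (isClosed_tsupport _) (Pool.Lib.tsupport_dbar_subset φ)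
  have hint := ct_integrable m h hm h1 hg hgc
  have e1 : ∀ z, ctr m h z * dbar φ z = ∫ w, h w / (w - z) * dbar φ z ∂m := by
    intro z
    unfold ctr
    exact (integral_mul_const _ _).symm
  have e2 : ∀ w, ∫ z, h w / (w - z) * dbar φ z = Real.pi * (φ w * h w) := by
    intro w
    have h2 : ∀ z, h w / (w - z) * dbar φ z = -h w * (dbar φ z / (z - w)) := by
      intro z
      have h3 : w - z = -(z - w) := by ring
      rw [h3, div_neg]
      ring
    rw [integral_congr_ae (Eventually.of_forall h2), integral_const_mul,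
      Pool.Lib.integral_dbar_div_sub φ hφ hc w]
    ring
  calc ∫ z, ctr m h z * dbar φ z = ∫ z, ∫ w, h w / (w - z) * dbar φ z ∂m ∂volume :=
        integral_congr_ae (Eventually.of_forall e1)
    _ = ∫ w, (∫ z, h w / (w - z) * dbar φ z) ∂m := integral_integral_swap hint
    _ = ∫ w, Real.pi * (φ w * h w) ∂m := integral_congr_ae (Eventually.of_forall e2)
    _ = Real.pi * ∫ w, φ w * h w ∂m := integral_const_mul _ _

end CarA
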