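import Mathlib
import Pool.Agent.CarA.CT

/-!
# CarA/CTSmall : the mass of the Cauchy transform near a point

`ctr_atom`: `∫_{closedBall x ρ} |ctr m h| ≤ ρ (6 π m{x} + ε)` for small `ρ > 0`.

Proof. By Tonelli the left side is at most `∫⁻ K_ρ(w) dm(w)`, `K_ρ(w) = ∫⁻_{closedBall x ρ} 1/|w - z| dz`. By `kern`
`K_ρ(w)/ρ ≤ 6π`, and by `kern_far` `K_ρ(w)/ρ ≤ 2πρ/|w - x| → 0` as `ρ → 0` for `w ≠ x`. Split `∫⁻` into `{x}` (at most
`6π m{x}`) and `{x}ᶜ`; the second part tends to `0` by dominated convergence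
(`tendsto_lintegral_filter_of_dominated_convergence`, bound `6π` on a finite measure). To avoid the measurability
of `K_ρ` use the explicit bound `min(6π, 2πρ/|w-x|)` for `w ≠ x` and small `ρ` instead of `K_ρ(w)/ρ`
(`K_ρ(w)/ρ ≤ 6π` if `|w - x| < 2ρ`, where the second expression is `≥ π`; so `12 π min(1, ρ/|w-x|)` is a bound in
all cases).
-/

open MeasureTheory Metric Set Filter Topology
open scoped ENNReal

namespace CarA

private noncomputable def ctsB (x : ℂ) (ρ : ℝ) (w : ℂ) : ℝ :=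
  if w = x then 6 * Real.pi else 12 * Real.pi * min 1 (ρ / ‖w - x‖)

private lemma cts_meas (x : ℂ) (ρ : ℝ) : Measurable (fun w => ENNReal.ofReal (ctsB x ρ w)) := by
  unfold ctsB
  apply Measurable.ennreal_ofReal
  apply Measurable.ite (measurableSet_singleton x) measurable_const
  fun_prop

private lemma cts_K (x w : ℂ) {ρ : ℝ} (hρ : 0 < ρ) :
    ∫⁻ z in closedBall x ρ, ENNReal.ofReal (1 / ‖w - z‖) ≤
      ENNReal.ofReal ρ * ENNReal.ofReal (ctsB x ρ w) := by
  have hpi := Real.pi_pos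
  rw [← ENNReal.ofReal_mul hρ.le]
  unfold ctsB
  by_cases hw : w = x
  · rw [if_pos hw]
    refine (kern x w ρ hρ).trans (ENNReal.ofReal_le_ofReal ?_)
    nlinarith
  · rw [if_neg hw]
    have hn : 0 < ‖w - x‖ := norm_pos_iff.mpr (sub_ne_zero.mpr hw)
    by_cases h2 : 2 * ρ ≤ ‖w - x‖
    · refine (kern_far x w ρ hρ h2).trans (ENNReal.ofReal_le_ofReal ?_)
      have h3 : ρ / ‖w - x‖ ≤ 1 := by
        rw [div_le_one hn]
        linarith
      rw [min_eq_right h3]
      have h4 : 0 ≤ ρ / ‖w - x‖ := by positivity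
      have h5 : 2 * Real.pi * ρ ^ 2 / ‖w - x‖ = ρ * (2 * Real.pi * (ρ / ‖w - x‖)) := by
        field_simp
      rw [h5]
      apply mul_le_mul_of_nonneg_left _ hρ.le
      nlinarith [mul_nonneg hpi.le h4]
    · push Not at h2
      refine (kern x w ρ hρ).trans (ENNReal.ofReal_le_ofReal ?_)
      have h3 : 1 / 2 ≤ min 1 (ρ / ‖w - x‖) := by
        apply le_min (by norm_num)
        rw [div_le_div_iff₀ (by norm_num) hn]
        linarith
      have h4 : 6 * Real.pi ≤ 12 * Real.pi * min 1 (ρ / ‖w - x‖) := by nlinarith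
      calc 6 * Real.pi * ρ = ρ * (6 * Real.pi) := by ring
        _ ≤ ρ * (12 * Real.pi * min 1 (ρ / ‖w - x‖)) := mul_le_mul_of_nonneg_left h4 hρ.le

private lemma cts_tonelli (m : Measure ℂ) [IsFiniteMeasure m] (h : ℂ → ℂ)
    (h1 : ∀ z, ‖h z‖ ≤ 1) (x : ℂ) (ρ : ℝ) :
    ∫⁻ z in closedBall x ρ, ‖ctr m h z‖ₑ ≤
      ∫⁻ w, (∫⁻ z in closedBall x ρ, ENNReal.ofReal (1 / ‖w - z‖)) ∂m := by
  have h2 : ∀ z, ‖ctr m h z‖ₑ ≤ ∫⁻ w, ENNReal.ofReal (1 / ‖w - z‖) ∂m := by
    intro z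
    unfold ctr
    refine (enorm_integral_le_lintegral_enorm _).trans (lintegral_mono fun w => ?_)
    rw [← ofReal_norm_eq_enorm]
    apply ENNReal.ofReal_le_ofReal
    rw [norm_div]
    exact div_le_div_of_nonneg_right (h1 w) (norm_nonneg _)
  refine (lintegral_mono h2).trans ?_
  rw [lintegral_lintegral_swap]
  apply Measurable.aemeasurable
  apply Measurable.ennreal_ofReal
  fun_prop

private lemma cts_lim (m : Measure ℂ) [IsFiniteMeasure m] (x : ℂ) :
    Tendsto (fun ρ : ℝ => ∫⁻ w, ENNReal.ofReal (ctsB x ρ w) ∂m) (𝓝[>] 0)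
      (𝓝 (ENNReal.ofReal (6 * Real.pi) * m {x})) := by
  have hpi := Real.pi_pos
  have hlim : ∫⁻ w, ({x} : Set ℂ).indicator (fun _ => ENNReal.ofReal (6 * Real.pi)) w ∂m =
      ENNReal.ofReal (6 * Real.pi) * m {x} := by
    rw [lintegral_indicator (measurableSet_singleton x), setLIntegral_const]
  rw [← hlim]
  apply tendsto_lintegral_filter_of_dominated_convergence (fun _ => ENNReal.ofReal (12 * Real.pi))
  · exact Eventually.of_forall fun ρ => cts_meas x ρ
  · refine Eventually.of_forall fun ρ => Eventually.of_forall fun w => ENNReal.ofReal_le_ofReal ?_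
    unfold ctsB
    split_ifs
    · linarith
    · have : min 1 (ρ / ‖w - x‖) ≤ 1 := min_le_left _ _
      nlinarith
  · rw [lintegral_const]
    exact ENNReal.mul_ne_top ENNReal.ofReal_ne_top (measure_ne_top m _)
  · refine Eventually.of_forall fun w => ?_
    by_cases hw : w = x
    · subst hw
      simp only [ctsB, if_true, Set.indicator_of_mem (Set.mem_singleton w)]
      exact tendsto_const_nhds
    · have hnot : w ∉ ({x} : Set ℂ) := hw
      rw [Set.indicator_of_notMem hnot]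
      simp only [ctsB, if_neg hw]
      have h1 : Tendsto (fun ρ : ℝ => 12 * Real.pi * min 1 (ρ / ‖w - x‖)) (𝓝 0)
          (𝓝 (12 * Real.pi * min 1 (0 / ‖w - x‖))) := by
        apply Tendsto.const_mul
        apply Tendsto.min tendsto_const_nhds
        exact tendsto_id.div_const _
      rw [zero_div, min_eq_right zero_le_one, mul_zero] at h1
      have h2 := (ENNReal.tendsto_ofReal h1).mono_left (nhdsWithin_le_nhds (s := Set.Ioi (0 : ℝ)))
      rwa [ENNReal.ofReal_zero] at h2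

theorem ctr_atom (m : Measure ℂ) [IsFiniteMeasure m] (h : ℂ → ℂ) (hm : Measurable h)
    (h1 : ∀ z, ‖h z‖ ≤ 1) (x : ℂ) (ε : ℝ) (hε : 0 < ε) :
    ∀ᶠ ρ in 𝓝[>] (0 : ℝ), ∫⁻ z in closedBall x ρ, ‖ctr m h z‖ₑ ≤
      ENNReal.ofReal (ρ * (6 * Real.pi * m.real {x} + ε)) := by
  have hpi := Real.pi_pos
  have hlt : ENNReal.ofReal (6 * Real.pi) * m {x} < ENNReal.ofReal (6 * Real.pi * m.real {x} + ε) := by
    have h2 : m {x} = ENNReal.ofReal (m.real {x}) := by
      rw [Measure.real, ENNReal.ofReal_toReal (measure_ne_top m _)]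
    rw [h2, ← ENNReal.ofReal_mul (by positivity)]
    rw [ENNReal.ofReal_lt_ofReal_iff (by positivity)]
    linarith
  have h3 := (cts_lim m x).eventually (eventually_le_nhds hlt)
  filter_upwards [h3, self_mem_nhdsWithin] with ρ h4 hρ
  have hρ' : 0 < ρ := hρ
  calc ∫⁻ z in closedBall x ρ, ‖ctr m h z‖ₑ
      ≤ ∫⁻ w, (∫⁻ z in closedBall x ρ, ENNReal.ofReal (1 / ‖w - z‖)) ∂m := cts_tonelli m h h1 x ρ
    _ ≤ ∫⁻ w, ENNReal.ofReal ρ * ENNReal.ofReal (ctsB x ρ w) ∂m :=
        lintegral_mono fun w => cts_K x w hρ'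
    _ = ENNReal.ofReal ρ * ∫⁻ w, ENNReal.ofReal (ctsB x ρ w) ∂m :=
        lintegral_const_mul _ (cts_meas x ρ)
    _ ≤ ENNReal.ofReal ρ * ENNReal.ofReal (6 * Real.pi * m.real {x} + ε) := by gcongr
    _ = ENNReal.ofReal (ρ * (6 * Real.pi * m.real {x} + ε)) := (ENNReal.ofReal_mul hρ'.le).symm

end CarA
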