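import Mathlib
import Pool.Agent.CarA.Defs

/-!
# CarA/HInt : the integral of `h dbar χ`

`χ` a real `C^1` function, `1` on `closedBall a (Nr)`, `0` off `ball a (2Nr)`, `|∇χ| ≤ C/(Nr)`; `N ≥ 4` and
`N ≥ 40 π C`, say. `h w = 1/2 - (b-a)/(8(w-a)) + e(w)`, `|e| ≤ r²/|w-a|²` for `|w - a| ≥ 4r`.

`∫ h dbar χ = (1/2) ∫ dbar χ - ((b-a)/8) ∫ dbar χ/(w - a) + ∫ e dbar χ`; `dbar χ = 0` on `ball a (Nr)` and off
`closedBall a (2Nr)`. The first integral is `0` (`integral_fderiv_eq_zero…`/integration by parts with compact support, e.g. from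
`integral_dbar_div_sub` applied to `w ↦ (w - a) χ(w)`: `∫ (w - a) dbar χ /(w - a) = -π · 0`), the second is `-π χ(a) = -π`
(`Pool.Lib.integral_dbar_div_sub`), so the first two terms give `π (b-a)/8`, of norm `π r/8 > 0.39 r`. The third is at most
`(r²/(Nr)²) (C/(Nr)) · π (2Nr)² = 4 π C r/N ≤ r/10`. Total `≥ r/4`.
-/

open MeasureTheory Set Metric Complex Filter Topology
open Pool.Lib (dbar)

namespace CarA

theorem h_integral (C : ℝ) (hC : 0 < C) : ∃ N : ℝ, 4 ≤ N ∧ ∀ (a b : ℂ) (r : ℝ), 0 < r →
    ‖b - a‖ = r → ∀ h : ℂ → ℂ, ContinuousOn h {w | 4 * r ≤ ‖w - a‖} →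
    (∀ w, 4 * r ≤ ‖w - a‖ → ‖h w - 1 / 2 + (b - a) / (8 * (w - a))‖ ≤ r ^ 2 / ‖w - a‖ ^ 2) →
    ∀ χ : ℂ → ℝ, ContDiff ℝ 1 χ → (∀ z ∈ closedBall a (N * r), χ z = 1) →
    (∀ z, z ∉ ball a (2 * (N * r)) → χ z = 0) → (∀ z, ‖fderiv ℝ χ z‖ ≤ C / (N * r)) →
    r / 4 ≤ ‖∫ w, h w * dbar (fun z => (χ z : ℂ)) w‖ := by
  refine ⟨max 4 (40 * Real.pi * C), le_max_left _ _, ?_⟩
  set N : ℝ := max 4 (40 * Real.pi * C) with hN
  have hN4 : 4 ≤ N := le_max_left _ _
  have hNC : 40 * Real.pi * C ≤ N := le_max_right _ _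
  intro a b r hr hba h hcont hexp χ hχ hχ1 hχ0 hχd
  have hNr : 0 < N * r := by positivity
  set χc : ℂ → ℂ := fun z => (χ z : ℂ) with hχc
  have hχcC : ContDiff ℝ 1 χc := ofRealCLM.contDiff.comp hχ
  set D : ℂ → ℂ := dbar χc with hD
  have hDc : Continuous D := Pool.Lib.continuous_dbar hχcC
  have hDb : ∀ w, ‖D w‖ ≤ C / (N * r) := fun w =>
    (norm_dbar_ofReal_le χ w (hχ.differentiable one_ne_zero w)).trans (hχd w)
  have hDout : ∀ w, w ∉ closedBall a (2 * (N * r)) → D w = 0 := by
    intro w hw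
    have : χc =ᶠ[𝓝 w] fun _ => 0 := by
      filter_upwards [isClosed_closedBall.isOpen_compl.mem_nhds hw] with z hz
      rw [hχc]
      simp only
      rw [hχ0 z fun h => hz (ball_subset_closedBall h)]; simp
    rw [hD, Pool.Lib.dbar_congr this, Pool.Lib.dbar_eq_zero (differentiableAt_const _)]
  have hDin : ∀ w, ‖w - a‖ < N * r → D w = 0 := by
    intro w hw
    have : χc =ᶠ[𝓝 w] fun _ => 1 := by
      have hw' : w ∈ ball a (N * r) := by rw [mem_ball, dist_eq_norm]; exact hw
      filter_upwards [isOpen_ball.mem_nhds hw'] with z hz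
      rw [hχc]
      simp only
      rw [hχ1 z (ball_subset_closedBall hz)]; simp
    rw [hD, Pool.Lib.dbar_congr this, Pool.Lib.dbar_eq_zero (differentiableAt_const _)]
  have hsupp : HasCompactSupport χc := by
    refine HasCompactSupport.intro (isCompact_closedBall a (2 * (N * r))) fun w hw => ?_
    rw [hχc]
    simp only
    rw [hχ0 w fun h => hw (ball_subset_closedBall h)]; simp
  have hDi : Integrable D volume := by
    refine hDc.integrable_of_hasCompactSupport ?_
    exact HasCompactSupport.intro (isCompact_closedBall a (2 * (N * r))) hDout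
  have hχa : χc a = 1 := by
    rw [hχc]
    simp only
    rw [hχ1 a (mem_closedBall_self hNr.le)]; simp
  -- the first integral
  have hIA : ∫ w, D w = 0 := by
    have h1 := Pool.Lib.integral_dbar_div_sub (fun w => (w - a) * χc w)
      ((contDiff_id.sub contDiff_const).mul hχcC) (hsupp.mul_left) a
    have h2 : ∀ w, dbar (fun w => (w - a) * χc w) w / (w - a) = D w := by
      intro w
      have hd : DifferentiableAt ℂ (fun w : ℂ => w - a) w := by fun_prop
      rw [dbar_mul (fun w => w - a) χc w (hd.restrictScalars ℝ) (hχcC.differentiable one_ne_zero w),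
        Pool.Lib.dbar_eq_zero hd, mul_zero, add_zero]
      by_cases hw : w = a
      · subst hw
        rw [sub_self, zero_mul, zero_div]
        exact (hDin w (by simpa using hNr)).symm
      · exact mul_div_cancel_left₀ _ (sub_ne_zero.2 hw)
    simp only [h2] at h1
    rw [h1]
    simp
  -- the second integral
  have hIB : ∫ w, D w / (w - a) = -Real.pi := by
    have h1 := Pool.Lib.integral_dbar_div_sub χc hχcC hsupp a
    rw [h1, hχa, mul_one]
  have hBi : Integrable (fun w => D w / (w - a)) volume := by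
    refine Integrable.mono' (hDi.norm.const_mul (1 / (N * r))) ?_ (Eventually.of_forall fun w => ?_)
    · have h1 : Measurable (fun w : ℂ => D w / (w - a)) :=
        hDc.measurable.div (measurable_id.sub_const a)
      exact h1.aestronglyMeasurable
    · rcases lt_or_ge ‖w - a‖ (N * r) with hw | hw
      · rw [hDin w hw]; simp
      · rw [norm_div, div_eq_mul_one_div, mul_comm]
        exact mul_le_mul_of_nonneg_right (one_div_le_one_div_of_le hNr hw) (norm_nonneg _)
  have h4N : 4 * r ≤ N * r := mul_le_mul_of_nonneg_right hN4 hr.le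
  -- integrability of h D
  have hhD : Integrable (fun w => h w * D w) volume := by
    refine Integrable.mono' hDi.norm ?_ (Eventually.of_forall fun w => ?_)
    · have hS : MeasurableSet {w : ℂ | 4 * r ≤ ‖w - a‖} :=
        (isClosed_le continuous_const (by fun_prop)).measurableSet
      have h1 : AEStronglyMeasurable (fun w => h w * D w)
          (volume.restrict {w : ℂ | 4 * r ≤ ‖w - a‖}) :=
        (hcont.mul hDc.continuousOn).aestronglyMeasurable hS
      have h2 : ({w : ℂ | 4 * r ≤ ‖w - a‖}).indicator (fun w => h w * D w) = fun w => h w * D w := by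
        funext w
        by_cases hw : w ∈ {w : ℂ | 4 * r ≤ ‖w - a‖}
        · rw [indicator_of_mem hw]
        · rw [indicator_of_notMem hw]
          have hw' : ‖w - a‖ < N * r := by
            have : ¬ 4 * r ≤ ‖w - a‖ := hw
            linarith
          rw [hDin w hw', mul_zero]
      rw [← h2]
      exact (aestronglyMeasurable_indicator_iff hS).2 h1
    · rcases lt_or_ge ‖w - a‖ (N * r) with hw | hw
      · rw [hDin w hw]; simp
      · have hw4 : 4 * r ≤ ‖w - a‖ := h4N.trans hw
        have h1 := hexp w hw4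
        have hpos : 0 < ‖w - a‖ := by linarith
        have h2 : r ^ 2 / ‖w - a‖ ^ 2 ≤ 1 / 16 := by
          rw [div_le_div_iff₀ (by positivity) (by norm_num)]
          nlinarith
        have h3 : ‖(b - a) / (8 * (w - a))‖ ≤ 1 / 32 := by
          rw [norm_div, norm_mul, hba]
          have : ‖(8 : ℂ)‖ = 8 := by simp
          rw [this, div_le_div_iff₀ (by positivity) (by norm_num)]
          linarith
        have h4 : ‖h w‖ ≤ 1 := by
          have h5 : h w = (h w - 1 / 2 + (b - a) / (8 * (w - a))) + (1 / 2 - (b - a) / (8 * (w - a))) := by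
            ring
          have h6 : ‖(1 / 2 : ℂ)‖ = 1 / 2 := by simp
          calc ‖h w‖ = ‖(h w - 1 / 2 + (b - a) / (8 * (w - a))) + (1 / 2 - (b - a) / (8 * (w - a)))‖ := by
                rw [← h5]
            _ ≤ ‖h w - 1 / 2 + (b - a) / (8 * (w - a))‖ + (‖(1 / 2 : ℂ)‖ + ‖(b - a) / (8 * (w - a))‖) :=
                (norm_add_le _ _).trans (add_le_add le_rfl (norm_sub_le _ _))
            _ ≤ 1 / 16 + (1 / 2 + 1 / 32) := by rw [h6]; linarith
            _ ≤ 1 := by norm_num
        rw [norm_mul]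
        calc ‖h w‖ * ‖D w‖ ≤ 1 * ‖D w‖ := mul_le_mul_of_nonneg_right h4 (norm_nonneg _)
          _ = ‖D w‖ := one_mul _
  -- the third integral
  set e : ℂ → ℂ := fun w => h w - 1 / 2 + (b - a) / (8 * (w - a)) with he
  have heq : ∀ w, e w * D w = h w * D w - (1 / 2) * D w + ((b - a) / 8) * (D w / (w - a)) := by
    intro w
    rw [he]
    simp only
    rw [← div_div, div_eq_mul_inv ((b - a) / 8) (w - a), div_eq_mul_inv (D w) (w - a)]
    ring
  have hIC : ∫ w, e w * D w = (∫ w, h w * D w) - (1 / 2) * (∫ w, D w) +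
      ((b - a) / 8) * ∫ w, D w / (w - a) := by
    have hi1 : Integrable (fun w => h w * D w - (1 / 2) * D w) volume := hhD.sub (hDi.const_mul _)
    have hi2 : Integrable (fun w => ((b - a) / 8) * (D w / (w - a))) volume := hBi.const_mul _
    rw [integral_congr_ae (Eventually.of_forall heq), integral_add hi1 hi2,
      integral_sub hhD (hDi.const_mul _), integral_const_mul, integral_const_mul]
  have hCb : ‖∫ w, e w * D w‖ ≤ r / 10 := by
    have h1 : ∫ w, e w * D w = ∫ w in closedBall a (2 * (N * r)), e w * D w := by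
      refine (setIntegral_eq_integral_of_forall_compl_eq_zero fun w hw => ?_).symm
      rw [hDout w hw, mul_zero]
    have h2 : ∀ w ∈ closedBall a (2 * (N * r)), ‖e w * D w‖ ≤ 1 / N ^ 2 * (C / (N * r)) := by
      intro w _
      rcases lt_or_ge ‖w - a‖ (N * r) with hw | hw
      · rw [hDin w hw, mul_zero, norm_zero]; positivity
      · have h3 := hexp w (h4N.trans hw)
        have hpos : 0 < ‖w - a‖ := by linarith
        have h4 : r ^ 2 / ‖w - a‖ ^ 2 ≤ 1 / N ^ 2 := by
          rw [div_le_div_iff₀ (by positivity) (by positivity), one_mul, ← mul_pow, mul_comm]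
          exact pow_le_pow_left₀ hNr.le hw 2
        rw [norm_mul]
        exact mul_le_mul (h3.trans h4) (hDb w) (norm_nonneg _) (by positivity)
    have h3 : volume (closedBall a (2 * (N * r))) < ⊤ := measure_closedBall_lt_top
    have h4 := norm_setIntegral_le_of_norm_le_const h3 h2
    rw [h1]
    refine h4.trans ?_
    have h5 : volume.real (closedBall a (2 * (N * r))) = Real.pi * (2 * (N * r)) ^ 2 := by
      rw [Measure.real, Complex.volume_closedBall]
      rw [ENNReal.toReal_mul, ← ENNReal.ofReal_pow (by positivity), ENNReal.toReal_ofReal (by positivity)]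
      simp [mul_comm]
    rw [h5]
    have h6 : 1 / N ^ 2 * (C / (N * r)) * (Real.pi * (2 * (N * r)) ^ 2) = 4 * Real.pi * C * r / N := by
      field_simp
      ring
    rw [h6, div_le_iff₀ (by positivity)]
    nlinarith
  have hmain : ∫ w, h w * D w = (∫ w, e w * D w) + Real.pi * ((b - a) / 8) := by
    rw [hIC, hIA, hIB]; ring
  change r / 4 ≤ ‖∫ w, h w * D w‖
  rw [hmain]
  have h7 : ‖(Real.pi : ℂ) * ((b - a) / 8)‖ = Real.pi * r / 8 := by
    rw [norm_mul, norm_div, hba, Complex.norm_real, Real.norm_of_nonneg Real.pi_pos.le]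
    have : ‖(8 : ℂ)‖ = 8 := by simp
    rw [this]; ring
  have h8 : ‖(Real.pi : ℂ) * ((b - a) / 8)‖ ≤
      ‖(∫ w, e w * D w) + Real.pi * ((b - a) / 8)‖ + ‖∫ w, e w * D w‖ := by
    have := norm_sub_le ((∫ w, e w * D w) + Real.pi * ((b - a) / 8)) (∫ w, e w * D w)
    rwa [add_sub_cancel_left] at this
  rw [h7] at h8
  have hpi := Real.pi_gt_three
  nlinarith

end CarA
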