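import Mathlib
import Pool.Agent.CarA.Branch

/-!
# CarA/Hfun : the bounded holomorphic function off a path

`h = 1/(1 + s)`, `s` from `exists_sqrt`, `b = γ 1`, `K = γ '' [0,1]`.

* `|1 + s w| ≥ 1/5` for all `w ∉ K`: suppose `|1 + s w| < 1/5`, put `σ = - s w`, `|σ - 1| < 1/5`, so `|σ² - 1| < 11/25 < 1/2`
  and `σ² = s² = (w - a)/(w - b) = 1 + (b - a)/(w - b)`, so `r/|w - b| < 1/2`… hence `|w - b| > 2r` and more precisely
  `|w - b| ≥ 25 r/11`. This only gives `|w - a| > 25r/11 - r`, so treat `s` near `w` as follows: the set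
  `D' = {w | 2 r < |w - b|}` is connected, disjoint from `K`, and contains `{w | 3r < |w - a|}`; on it `Re (s²) > 0`, so `Re s ≠ 0`
  and `Re s > 0` by connectedness and the normalisation. But `Re (s w) = - Re σ < 0`, contradiction.
  (`K ⊆ closedBall a r ⊆ closedBall b (2r)`.)
* Hence `|h| ≤ 5` on `Kᶜ` and `h` is holomorphic there.
* Expansion: let `|w - a| ≥ 4r`, `δ = (b - a)/(w - b)`, `|δ| ≤ r/(|w - a| - r) ≤ (4/3) r/|w - a| ≤ 1/3`, `s² = 1 + δ`, `Re s > 0`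
  so `|1 + s| ≥ 1`. `s - 1 = δ/(1 + s)`, `|s - 1| ≤ |δ|`. `h - 1/2 = (1 - s)/(2(1 + s)) = - δ/(2 (1 + s)²)` and
  `h - 1/2 + δ/8 = δ ((1+s)² - 4)/(8 (1+s)²) = δ (s - 1)(s + 3)/(8(1+s)²)`, with
  `|s + 3| ≤ |1 + s| + 2 ≤ 3 |1+s|`, so this is at most `3|δ|²/8`. And `δ - (b-a)/(w-a) = (b-a)²/((w-a)(w-b))`, of size at most
  `(4/3) r²/|w - a|²`. Total: `|h - 1/2 + (b-a)/(8(w-a))| ≤ (3/8)(16/9) r²/|w-a|² + (1/6) r²/|w-a|² ≤ r²/|w - a|²`.
-/

open Set Metric Complex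

namespace CarA

/-- the exterior of a disc is preconnected -/
theorem preconnected_ext (b : ℂ) {R : ℝ} (hR : 0 < R) : IsPreconnected {w : ℂ | R < ‖w - b‖} := by
  have e : {w : ℂ | R < ‖w - b‖} = (fun z : ℂ => b + exp z) '' {z : ℂ | Real.log R < z.re} := by
    ext w
    constructor
    · intro hw
      have hw' : R < ‖w - b‖ := hw
      have hne : w - b ≠ 0 := by
        intro h0
        rw [h0, norm_zero] at hw'
        linarith
      refine ⟨log (w - b), ?_, ?_⟩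
      · show Real.log R < (log (w - b)).re
        rw [log_re]
        exact Real.log_lt_log hR hw'
      · show b + exp (log (w - b)) = w
        rw [exp_log hne]; ring
    · rintro ⟨z, hz, rfl⟩
      show R < ‖b + exp z - b‖
      have hz' : Real.log R < z.re := hz
      rw [add_sub_cancel_left, norm_exp]
      calc R = Real.exp (Real.log R) := (Real.exp_log hR).symm
        _ < _ := Real.exp_lt_exp.2 hz'
  rw [e]
  refine IsPreconnected.image ?_ _ (by fun_prop)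
  exact (convex_halfSpace_re_gt _).isPreconnected

theorem exists_h {γ : ℝ → ℂ} (hγ : ContinuousOn γ (Icc 0 1)) {a : ℂ} {r : ℝ} (hr : 0 < r)
    (h0 : γ 0 = a) (h1 : dist (γ 1) a = r) (hd : ∀ t ∈ Icc (0 : ℝ) 1, dist (γ t) a ≤ r) :
    ∃ h : ℂ → ℂ, DifferentiableOn ℂ h (γ '' Icc 0 1)ᶜ ∧
      (∀ w ∉ γ '' Icc 0 1, ‖h w‖ ≤ 5) ∧
      ∀ w, 4 * r ≤ ‖w - a‖ →
        ‖h w - 1 / 2 + (γ 1 - a) / (8 * (w - a))‖ ≤ r ^ 2 / ‖w - a‖ ^ 2 := by
  obtain ⟨s, hsd, hs2, hs3⟩ := exists_sqrt hγ hr h0 h1 hd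
  set b : ℂ := γ 1 with hb
  set K : Set ℂ := γ '' Icc 0 1 with hK
  have hba : ‖b - a‖ = r := by rw [← dist_eq_norm]; exact h1
  have hbK : b ∈ K := ⟨1, ⟨zero_le_one, le_rfl⟩, rfl⟩
  have hfar : ∀ w, r < ‖w - a‖ → w ∉ K := by
    rintro w hw ⟨t, ht, rfl⟩
    have := hd t ht
    rw [dist_eq_norm] at this
    linarith
  have hne : ∀ w, w ∉ K → w - b ≠ 0 := by
    intro w hw h
    exact hw (by rw [sub_eq_zero.1 h]; exact hbK)
  have hsq : ∀ w, w ∉ K → s w ^ 2 = 1 + (b - a) / (w - b) := by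
    intro w hw
    rw [hs2 w hw]
    have := hne w hw
    field_simp
    ring
  -- the exterior of the disc around `b`
  have hD : ∀ w, 2 * r < ‖w - b‖ → w ∉ K := by
    intro w hw
    refine hfar w ?_
    have : ‖w - b‖ ≤ ‖w - a‖ + ‖b - a‖ := by
      have e : w - b = (w - a) - (b - a) := by ring
      rw [e]; exact norm_sub_le _ _
    linarith
  have hre : ∀ w, 2 * r < ‖w - b‖ → (s w).re ≠ 0 := by
    intro w hw h
    have h2 := hsq w (hD w hw)
    have h3 : ‖(b - a) / (w - b)‖ < 1 := by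
      rw [norm_div, hba, div_lt_one (by linarith)]
      linarith
    have h4 : -1 < ((b - a) / (w - b)).re := by
      have := abs_re_le_norm ((b - a) / (w - b))
      have := (abs_le.1 this).1
      linarith
    have h5 := congrArg Complex.re h2
    rw [pow_two, mul_re, h, add_re, one_re] at h5
    nlinarith [mul_self_nonneg (s w).im]
  have hpos : ∀ w, 2 * r < ‖w - b‖ → 0 < (s w).re := by
    intro w hw
    by_contra hcon
    have hneg : (s w).re < 0 := lt_of_le_of_ne (not_lt.1 hcon) (hre w hw)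
    have hpre := preconnected_ext b (R := 2 * r) (by linarith)
    have hcont : ContinuousOn (fun z => (s z).re) {w : ℂ | 2 * r < ‖w - b‖} := by
      refine continuous_re.comp_continuousOn (hsd.continuousOn.mono fun z hz => ?_)
      exact hD z hz
    -- a far point
    have hw1 : 3 * r < ‖(a + ((4 * r : ℝ) : ℂ)) - a‖ := by
      rw [add_sub_cancel_left, norm_real, Real.norm_of_nonneg (by linarith)]
      linarith
    have hw2 : 2 * r < ‖(a + ((4 * r : ℝ) : ℂ)) - b‖ := by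
      have e : (a + ((4 * r : ℝ) : ℂ)) - b = ((4 * r : ℝ) : ℂ) - (b - a) := by ring
      rw [e]
      have := norm_sub_norm_le ((4 * r : ℝ) : ℂ) (b - a)
      rw [hba, norm_real, Real.norm_of_nonneg (by linarith)] at this
      linarith
    have himg := hpre.image _ hcont
    have hmem : (0 : ℝ) ∈ (fun z => (s z).re) '' {w : ℂ | 2 * r < ‖w - b‖} :=
      himg.Icc_subset ⟨w, hw, rfl⟩ ⟨_, hw2, rfl⟩ ⟨hneg.le, (hs3 _ hw1).le⟩
    obtain ⟨z, hz, hz0⟩ := hmem
    exact hre z hz hz0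
  have hlow : ∀ w, w ∉ K → 1 / 5 ≤ ‖1 + s w‖ := by
    intro w hw
    by_contra hcon
    push Not at hcon
    have h2 : ‖s w ^ 2 - 1‖ < 1 / 2 := by
      have e : s w ^ 2 - 1 = (1 + s w) * ((1 + s w) - 2) := by ring
      rw [e, norm_mul]
      have h3 : ‖(1 + s w) - 2‖ ≤ ‖1 + s w‖ + 2 := by
        refine (norm_sub_le _ _).trans ?_
        simp
      have h4 := norm_nonneg (1 + s w)
      nlinarith
    rw [hsq w hw, add_sub_cancel_left, norm_div, hba] at h2
    have h5 : 0 < ‖w - b‖ := norm_pos_iff.2 (hne w hw)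
    rw [div_lt_iff₀ h5] at h2
    have h6 := hpos w (by linarith)
    have h7 : (1 + s w).re ≤ ‖1 + s w‖ := re_le_norm _
    rw [add_re, one_re] at h7
    linarith
  have hne1 : ∀ w, w ∉ K → 1 + s w ≠ 0 := by
    intro w hw h
    have := hlow w hw
    rw [h, norm_zero] at this
    linarith
  refine ⟨fun w => (1 + s w)⁻¹, ?_, ?_, ?_⟩
  · exact ((differentiableOn_const 1).add hsd).inv fun w hw => hne1 w hw
  · intro w hw
    show ‖(1 + s w)⁻¹‖ ≤ 5
    rw [norm_inv]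
    refine inv_le_of_inv_le₀ (by norm_num) ?_
    have := hlow w hw
    linarith
  · intro w hw
    have hwK : w ∉ K := hfar w (by linarith)
    have hwb := hne w hwK
    have hρ : 0 < ‖w - a‖ := by linarith
    have hwa : w - a ≠ 0 := norm_pos_iff.1 hρ
    have hs1 := hs3 w (by linarith)
    have hn1 := hne1 w hwK
    have h1s : 1 ≤ ‖1 + s w‖ := by
      have : (1 + s w).re ≤ ‖1 + s w‖ := re_le_norm _
      rw [add_re, one_re] at this
      linarith
    set δ : ℂ := (b - a) / (w - b) with hδ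
    have hs := hsq w hwK
    have hwbn : 3 / 4 * ‖w - a‖ ≤ ‖w - b‖ := by
      have e : w - b = (w - a) - (b - a) := by ring
      have := norm_sub_norm_le (w - a) (b - a)
      rw [← e, hba] at this
      linarith
    have hδn : ‖δ‖ ≤ 4 / 3 * (r / ‖w - a‖) := by
      rw [hδ, norm_div, hba]
      calc r / ‖w - b‖ ≤ r / (3 / 4 * ‖w - a‖) := by gcongr
        _ = 4 / 3 * (r / ‖w - a‖) := by field_simp
    have e1 : (1 + s w)⁻¹ - 1 / 2 + (b - a) / (8 * (w - a)) =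
        δ * (s w - 1) * (s w + 3) / (8 * (1 + s w) ^ 2) -
          1 / 8 * ((b - a) ^ 2 / ((w - a) * (w - b))) := by
      have hδ2 : δ = (s w - 1) * (s w + 1) := by
        have : δ = s w ^ 2 - 1 := by rw [hs]; ring
        rw [this]; ring
      have e2 : (b - a) / (8 * (w - a)) = 1 / 8 * δ - 1 / 8 * ((b - a) ^ 2 / ((w - a) * (w - b))) := by
        rw [hδ]
        field_simp
        ring
      rw [e2, hδ2]
      have e3 : s w + 1 = 1 + s w := by ring
      rw [e3]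
      field_simp
      ring
    have hsm : ‖s w - 1‖ ≤ ‖δ‖ := by
      have : δ = (s w - 1) * (1 + s w) := by
        have : δ = s w ^ 2 - 1 := by rw [hs]; ring
        rw [this]; ring
      rw [this, norm_mul]
      exact le_mul_of_one_le_right (norm_nonneg _) h1s
    have hsp : ‖s w + 3‖ ≤ 3 * ‖1 + s w‖ := by
      have e : s w + 3 = (1 + s w) + 2 := by ring
      rw [e]
      refine (norm_add_le _ _).trans ?_
      have : ‖(2 : ℂ)‖ = 2 := by simp
      rw [this]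
      linarith
    have b1 : ‖δ * (s w - 1) * (s w + 3) / (8 * (1 + s w) ^ 2)‖ ≤ 3 / 8 * ‖δ‖ ^ 2 := by
      rw [norm_div, norm_mul, norm_mul, norm_mul, norm_pow]
      have h8 : ‖(8 : ℂ)‖ = 8 := by simp
      rw [h8, div_le_iff₀ (by positivity)]
      have h9 := norm_nonneg δ
      have h10 := norm_nonneg (s w - 1)
      have h11 := norm_nonneg (s w + 3)
      calc ‖δ‖ * ‖s w - 1‖ * ‖s w + 3‖ ≤ ‖δ‖ * ‖δ‖ * (3 * ‖1 + s w‖) := by gcongr
        _ ≤ ‖δ‖ * ‖δ‖ * (3 * ‖1 + s w‖ ^ 2) := by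
            gcongr
            nlinarith
        _ = 3 / 8 * ‖δ‖ ^ 2 * (8 * ‖1 + s w‖ ^ 2) := by ring
    have b2 : ‖1 / 8 * ((b - a) ^ 2 / ((w - a) * (w - b)))‖ ≤ 1 / 6 * (r ^ 2 / ‖w - a‖ ^ 2) := by
      have h8 : ‖(1 / 8 : ℂ)‖ = 1 / 8 := by simp
      rw [norm_mul, h8, norm_div, norm_pow, norm_mul, hba]
      calc 1 / 8 * (r ^ 2 / (‖w - a‖ * ‖w - b‖)) ≤
            1 / 8 * (r ^ 2 / (‖w - a‖ * (3 / 4 * ‖w - a‖))) := by gcongr
        _ = 1 / 6 * (r ^ 2 / ‖w - a‖ ^ 2) := by field_simp; ring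
    have b3 : 3 / 8 * ‖δ‖ ^ 2 ≤ 2 / 3 * (r ^ 2 / ‖w - a‖ ^ 2) := by
      calc 3 / 8 * ‖δ‖ ^ 2 ≤ 3 / 8 * (4 / 3 * (r / ‖w - a‖)) ^ 2 := by gcongr
        _ = 2 / 3 * (r ^ 2 / ‖w - a‖ ^ 2) := by rw [mul_pow, div_pow]; ring
    show ‖(1 + s w)⁻¹ - 1 / 2 + (b - a) / (8 * (w - a))‖ ≤ r ^ 2 / ‖w - a‖ ^ 2
    rw [e1]
    refine (norm_sub_le _ _).trans ?_
    have h12 : 0 ≤ r ^ 2 / ‖w - a‖ ^ 2 := by positivity
    linarith

end CarA
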