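import Mathlib

/-!
# CarA/PathIn : a path near a continuum up to the first exit from a disc

`E` preconnected, `E ⊆ U` open, `a, y ∈ E`, `dist y a ≥ r > 0`. Then there is a path `γ` in `U` from `a` to a point at
distance `r` from `a`, inside the closed disc of radius `r`.

Proof. The connected component of `a` in `U` is open, connected, so path connected (`IsOpen.isConnected_iff_isPathConnected`) and
contains `E`; let `δ` be a path from `a` to `y` in it. The set `{t ∈ [0,1] | r ≤ dist (δ t) a}` is closed and nonempty; let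
`t₀` be its minimum (`IsCompact.exists_isLeast`): `dist (δ t₀) a = r` (intermediate value: `< r` before `t₀`, `δ 0 = a`) and
`dist (δ t) a ≤ r` for `t ≤ t₀`. Put `γ t = δ (t₀ t)`.
-/

open Set Metric

namespace CarA

theorem path_in {E U : Set ℂ} (hE : IsPreconnected E) (hU : IsOpen U) (hEU : E ⊆ U) {a y : ℂ}
    (ha : a ∈ E) (hy : y ∈ E) {r : ℝ} (hr : 0 < r) (hd : r ≤ dist y a) :
    ∃ γ : ℝ → ℂ, ContinuousOn γ (Icc 0 1) ∧ γ 0 = a ∧ dist (γ 1) a = r ∧
      ∀ t ∈ Icc (0 : ℝ) 1, γ t ∈ U ∧ dist (γ t) a ≤ r := by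
  have hCo : IsOpen (connectedComponentIn U a) := hU.connectedComponentIn
  have haC : a ∈ connectedComponentIn U a := mem_connectedComponentIn (hEU ha)
  have hCc : IsConnected (connectedComponentIn U a) :=
    isConnected_connectedComponentIn_iff.2 (hEU ha)
  have hCp : IsPathConnected (connectedComponentIn U a) :=
    (hCo.isConnected_iff_isPathConnected).1 hCc
  have hyC : y ∈ connectedComponentIn U a := hE.subset_connectedComponentIn ha hEU hy
  obtain ⟨p, hp⟩ := hCp.joinedIn a haC y hyC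
  have hpU : ∀ t : ℝ, p.extend t ∈ U := by
    intro t
    have : p.extend t ∈ range p := by
      rw [← p.extend_range]
      exact mem_range_self t
    obtain ⟨s, hs⟩ := this
    rw [← hs]
    exact connectedComponentIn_subset U a (hp s)
  set δ : ℝ → ℂ := fun t => p.extend t with hδ
  have hδc : Continuous δ := p.extend.continuous
  have hδ0 : δ 0 = a := p.extend_zero
  have hδ1 : δ 1 = y := p.extend_one
  set f : ℝ → ℝ := fun t => dist (δ t) a with hf
  have hfc : Continuous f := hδc.dist continuous_const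
  have hSc : IsCompact (Icc (0 : ℝ) 1 ∩ {t | r ≤ f t}) :=
    isCompact_Icc.inter_right (isClosed_le continuous_const hfc)
  have hSn : (Icc (0 : ℝ) 1 ∩ {t | r ≤ f t}).Nonempty := by
    refine ⟨1, ⟨zero_le_one, le_rfl⟩, ?_⟩
    simp only [mem_setOf_eq, hf, hδ1]
    exact hd
  obtain ⟨t₀, ⟨ht₀, ht₀r⟩, hmin⟩ := hSc.exists_isLeast hSn
  have hbelow : ∀ t ∈ Icc (0 : ℝ) t₀, f t ≤ r := by
    intro t ht
    rcases eq_or_lt_of_le ht.2 with h | h
    · -- t = t₀
      by_contra hcon
      push Not at hcon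
      have h0 : f 0 ≤ r := by simp only [hf, hδ0, dist_self]; exact hr.le
      obtain ⟨u, hu, hur⟩ : r ∈ f '' Icc 0 t :=
        intermediate_value_Icc ht.1 hfc.continuousOn ⟨h0, hcon.le⟩
      have hu1 : t₀ ≤ u := hmin ⟨⟨hu.1, hu.2.trans (ht.2.trans ht₀.2)⟩, hur.ge⟩
      have hu2 : u = t := le_antisymm hu.2 (h ▸ hu1)
      rw [hu2] at hur
      linarith
    · by_contra hcon
      push Not at hcon
      have := hmin ⟨⟨ht.1, ht.2.trans ht₀.2⟩, hcon.le⟩
      linarith
  refine ⟨fun s => δ (t₀ * s), ?_, ?_, ?_, ?_⟩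
  · exact (hδc.comp (continuous_const.mul continuous_id)).continuousOn
  · simp only [mul_zero, hδ0]
  · simp only [mul_one]
    exact le_antisymm (hbelow t₀ ⟨ht₀.1, le_rfl⟩) ht₀r
  · intro s hs
    refine ⟨hpU _, hbelow (t₀ * s) ⟨mul_nonneg ht₀.1 hs.1, ?_⟩⟩
    exact mul_le_of_le_one_right ht₀.1 hs.2

end CarA
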