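import Mathlib
import Pool.Agent.CarA.Defs
import Pool.Agent.CarA.Bump
import Pool.Agent.CarA.PathIn
import Pool.Agent.CarA.Hfun
import Pool.Agent.CarA.HInt

/-!
# CarA/Cap : the capacity inequality for one cut-off function

`F` measurable, integrable, with `|∫ F dbar φ| ≤ ∫ |φ| dm` for all test functions. `E` preconnected, `a, y ∈ E`,
`dist y a ≥ r`, `g ∈ Adm E`. Then for every `v ∈ ℂ`
`|v| r ≤ C (m(closedBall a (N r)) + ∫ |F| |∇g| + (1/r) ∫_{closedBall a (N r)} |g F - v|)`.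

Proof. `U ⊇ E` open with `g = 0` on `U`; `path_in` gives `γ` in `U` from `a` to `b = γ 1`; `K = γ '' [0,1] ⊆ U ∩ closedBall a r`; `h` from
`exists_h`; `C₁` the constant of `bump`, `N₁` the number of `h_integral C₁`; `χ` = bump for `a` and radius `N₁ r`;
`N = 2N₁`. Let `φ = χ h g` off `U`, `0` on `U` (define `φ = χ · h · g` everywhere with `h` replaced by `0` on `K`; it vanishes on `U`).
`φ` is of class `C^1`: on the open set `Kᶜ` all factors are (`h` is holomorphic on the open set `Kᶜ`, hence `C^1` over `ℝ`), and it is `0` on the open set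
`U ⊇ K`. Compact support: `χ`. `dbar φ = g h dbar χ + χ h dbar g` on `Kᶜ` (`dbar_mul`, `dbar h = 0`: `Pool.Lib.dbar_eq_zero`), and both sides are `0` on `U`.
So `∫ F g h dbar χ = ∫ F dbar φ - ∫ F χ h dbar g`, whose norm is at most
`∫ |φ| dm + 5 ∫ |F| |∇g| ≤ 5 m(closedBall a (2N₁r)) + 5 ∫ |F||∇g|`. Finally
`∫ F g h dbar χ = v ∫ h dbar χ + ∫ (gF - v) h dbar χ`, `|∫ h dbar χ| ≥ r/4` (`h_integral`), and the last integral is at most
`5 (C₁/(N₁r)) ∫_{closedBall a (2N₁r)} |gF - v|` (`dbar χ = 0` off `closedBall a (2N₁r)` and on `ball a (N₁ r) ⊇ K`).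
(Everything can be done with `∫⁻` and norms, using `enorm_integral_le_lintegral_enorm`; if `∫⁻ ‖F‖ₑ‖∇g‖ₑ = ∞` there is nothing
to prove.)
-/

open MeasureTheory Complex Set Filter Topology Metric
open scoped ENNReal
open Pool.Lib (dbar)

namespace CarA

namespace CapAux

/-- the product of `h` and `g` is of class `C^1` and `dbar (h g) = h dbar g` -/
theorem smooth_hg {K U : Set ℂ} (hK : IsClosed K) (hU : IsOpen U) (hKU : K ⊆ U) {h : ℂ → ℂ}
    (hh : DifferentiableOn ℂ h Kᶜ) {g : ℂ → ℝ} (hg : ContDiff ℝ 1 g) (hgU : ∀ z ∈ U, g z = 0) :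
    ContDiff ℝ 1 (fun w => h w * (g w : ℂ)) ∧
      ∀ w, dbar (fun w => h w * (g w : ℂ)) w = h w * dbar (fun w => (g w : ℂ)) w := by
  have hgc : ContDiff ℝ 1 (fun w => (g w : ℂ)) := ofRealCLM.contDiff.comp hg
  have hnear : ∀ w ∈ U, (fun w => h w * (g w : ℂ)) =ᶠ[𝓝 w] fun _ => 0 := by
    intro w hw
    filter_upwards [hU.mem_nhds hw] with z hz
    rw [hgU z hz]; simp
  have hnear' : ∀ w ∈ U, (fun w => (g w : ℂ)) =ᶠ[𝓝 w] fun _ => 0 := by
    intro w hw
    filter_upwards [hU.mem_nhds hw] with z hz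
    rw [hgU z hz]; simp
  constructor
  · rw [contDiff_iff_contDiffAt]
    intro w
    by_cases hw : w ∈ U
    · exact contDiffAt_const.congr_of_eventuallyEq (hnear w hw)
    · have hwK : w ∈ Kᶜ := fun hk => hw (hKU hk)
      have h1 : ContDiffAt ℂ 1 h w :=
        (hh.contDiffOn hK.isOpen_compl).contDiffAt (hK.isOpen_compl.mem_nhds hwK)
      exact (h1.restrict_scalars ℝ).mul hgc.contDiffAt
  · intro w
    by_cases hw : w ∈ U
    · rw [Pool.Lib.dbar_congr (hnear w hw), Pool.Lib.dbar_congr (hnear' w hw),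
        Pool.Lib.dbar_eq_zero (differentiableAt_const _), mul_zero]
    · have hwK : w ∈ Kᶜ := fun hk => hw (hKU hk)
      have h1 : DifferentiableAt ℂ h w := hh.differentiableAt (hK.isOpen_compl.mem_nhds hwK)
      rw [dbar_mul h _ w (h1.restrictScalars ℝ) (hgc.differentiable one_ne_zero w),
        Pool.Lib.dbar_eq_zero h1, mul_zero, add_zero]

theorem dbar_chi {χ : ℂ → ℝ} (hχ : ContDiff ℝ 1 χ) {a : ℂ} {ρ c : ℝ}
    (hχ0 : ∀ z, z ∉ ball a ρ → χ z = 0) (hc : ∀ z, ‖fderiv ℝ χ z‖ ≤ c) :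
    (∀ w, ‖dbar (fun z => (χ z : ℂ)) w‖ ≤ c) ∧
      ∀ w, w ∉ closedBall a ρ → dbar (fun z => (χ z : ℂ)) w = 0 := by
  constructor
  · intro w
    exact (norm_dbar_ofReal_le χ w (hχ.differentiable one_ne_zero w)).trans (hc w)
  · intro w hw
    have : (fun z => (χ z : ℂ)) =ᶠ[𝓝 w] fun _ => 0 := by
      filter_upwards [isClosed_closedBall.isOpen_compl.mem_nhds hw] with z hz
      rw [hχ0 z fun h => hz (ball_subset_closedBall h)]; simp
    rw [Pool.Lib.dbar_congr this, Pool.Lib.dbar_eq_zero (differentiableAt_const _)]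

theorem est {F : ℂ → ℂ} {m : Measure ℂ} (hm : IsFiniteMeasure m) (hF : Measurable F)
    (hi : Integrable F) (hw : ∀ φ : ℂ → ℂ, ContDiff ℝ 1 φ → HasCompactSupport φ →
      ‖∫ z, F z * dbar φ z‖ ≤ ∫ z, ‖φ z‖ ∂m) {K U : Set ℂ} (hK : IsCompact K) (hU : IsOpen U)
    (hKU : K ⊆ U) {h : ℂ → ℂ} (hh : DifferentiableOn ℂ h Kᶜ) (hK0 : ∀ w ∈ K, h w = 0)
    (hb : ∀ w, ‖h w‖ ≤ 5) {g : ℂ → ℝ} (hg : g ∈ Unit1) (hgU : ∀ z ∈ U, g z = 0) {χ : ℂ → ℝ}
    (hχ : ContDiff ℝ 1 χ) (hχ01 : ∀ z, 0 ≤ χ z ∧ χ z ≤ 1) {a : ℂ} {ρ : ℝ}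
    (hχ0 : ∀ z, z ∉ ball a ρ → χ z = 0) {c : ℝ} (hc0 : 0 ≤ c) (hc : ∀ z, ‖fderiv ℝ χ z‖ ≤ c)
    (v : ℂ) :
    ‖v * ∫ w, h w * dbar (fun z => (χ z : ℂ)) w‖ₑ ≤
      5 * m (closedBall a ρ) + 5 * (∫⁻ z, ‖F z‖ₑ * ‖fderiv ℝ g z‖ₑ) +
        ENNReal.ofReal (5 * c) * ∫⁻ z in closedBall a ρ, ‖g z * F z - v‖ₑ := by
  rcases eq_or_ne (∫⁻ z, ‖F z‖ₑ * ‖fderiv ℝ g z‖ₑ) ∞ with htop | htop
  · rw [htop]
    simp
  obtain ⟨hgc, hg01⟩ := hg
  obtain ⟨hsm, hdb⟩ := smooth_hg hK.isClosed hU hKU hh hgc hgU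
  obtain ⟨hχb, hχz⟩ := dbar_chi hχ hχ0 hc
  set χc : ℂ → ℂ := fun z => (χ z : ℂ) with hχc
  set gc : ℂ → ℂ := fun z => (g z : ℂ) with hgcdef
  have hχcC : ContDiff ℝ 1 χc := ofRealCLM.contDiff.comp hχ
  have hgcC : ContDiff ℝ 1 gc := ofRealCLM.contDiff.comp hgc
  -- measurability of h
  have hhm : AEStronglyMeasurable h volume := by
    have h1 : AEStronglyMeasurable h (volume.restrict Kᶜ) :=
      hh.continuousOn.aestronglyMeasurable hK.isClosed.isOpen_compl.measurableSet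
    have h2 : Kᶜ.indicator h = h := by
      funext w
      by_cases hw : w ∈ K
      · rw [indicator_of_notMem (by simpa using hw), hK0 w hw]
      · rw [indicator_of_mem (by simpa using hw)]
    rw [← h2]
    exact (aestronglyMeasurable_indicator_iff hK.isClosed.isOpen_compl.measurableSet).2 h1
  have hdχ : Continuous (dbar χc) := Pool.Lib.continuous_dbar hχcC
  have hdg : Continuous (dbar gc) := Pool.Lib.continuous_dbar hgcC
  set φ : ℂ → ℂ := fun w => χc w * (h w * gc w) with hφ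
  have hφC : ContDiff ℝ 1 φ := hχcC.mul hsm
  have hφs : HasCompactSupport φ := by
    refine HasCompactSupport.intro (isCompact_closedBall a ρ) fun w hw => ?_
    rw [hφ, hχc]
    simp only
    rw [hχ0 w fun hb => hw (ball_subset_closedBall hb)]
    simp
  have hφb : ∀ w, ‖φ w‖ₑ ≤ (closedBall a ρ).indicator (fun _ => (5 : ℝ≥0∞)) w := by
    intro w
    by_cases hwD : w ∈ closedBall a ρ
    · rw [indicator_of_mem hwD]
      have h1 : ‖φ w‖ ≤ 5 := by
        rw [hφ, hχc, hgcdef]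
        simp only
        rw [norm_mul, norm_mul, Complex.norm_real, Complex.norm_real, Real.norm_of_nonneg (hχ01 w).1,
          Real.norm_of_nonneg (hg01 w).1]
        have h2 := hb w
        have h3 := hχ01 w
        have h4 := hg01 w
        calc χ w * (‖h w‖ * g w) ≤ 1 * (5 * 1) := by
              refine mul_le_mul h3.2 (mul_le_mul h2 h4.2 h4.1 (by norm_num)) ?_ zero_le_one
              exact mul_nonneg (norm_nonneg _) h4.1
          _ = 5 := by norm_num
      rw [← ofReal_norm]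
      calc ENNReal.ofReal ‖φ w‖ ≤ ENNReal.ofReal 5 := ENNReal.ofReal_le_ofReal h1
        _ = 5 := by simp
    · rw [indicator_of_notMem hwD]
      have h1 : φ w = 0 := by
        rw [hφ, hχc]
        simp only
        rw [hχ0 w fun hb => hwD (ball_subset_closedBall hb)]
        simp
      rw [h1]; simp
  -- the first integral
  have hI1 : ‖∫ z, F z * dbar φ z‖ₑ ≤ 5 * m (closedBall a ρ) := by
    have h1 : Integrable φ m := hφC.continuous.integrable_of_hasCompactSupport hφs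
    calc ‖∫ z, F z * dbar φ z‖ₑ = ENNReal.ofReal ‖∫ z, F z * dbar φ z‖ := (ofReal_norm _).symm
      _ ≤ ENNReal.ofReal (∫ z, ‖φ z‖ ∂m) := ENNReal.ofReal_le_ofReal (hw φ hφC hφs)
      _ = ∫⁻ z, ‖φ z‖ₑ ∂m := ofReal_integral_norm_eq_lintegral_enorm h1
      _ ≤ ∫⁻ z, (closedBall a ρ).indicator (fun _ => (5 : ℝ≥0∞)) z ∂m := lintegral_mono hφb
      _ = 5 * m (closedBall a ρ) := by
          rw [lintegral_indicator_const isClosed_closedBall.measurableSet]
  -- the second integral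
  have hI2m : AEStronglyMeasurable (fun w => F w * (χc w * (h w * dbar gc w))) volume :=
    hF.aestronglyMeasurable.mul (hχcC.continuous.aestronglyMeasurable.mul
      (hhm.mul hdg.aestronglyMeasurable))
  have hI2b : ∀ w, ‖F w * (χc w * (h w * dbar gc w))‖ₑ ≤ 5 * (‖F w‖ₑ * ‖fderiv ℝ g w‖ₑ) := by
    intro w
    have h1 : ‖χc w * (h w * dbar gc w)‖ ≤ 5 * ‖fderiv ℝ g w‖ := by
      rw [norm_mul, norm_mul, hχc]
      simp only
      rw [Complex.norm_real, Real.norm_of_nonneg (hχ01 w).1]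
      have h2 := norm_dbar_ofReal_le g w (hgc.differentiable one_ne_zero w)
      calc χ w * (‖h w‖ * ‖dbar gc w‖) ≤ 1 * (5 * ‖fderiv ℝ g w‖) := by
            refine mul_le_mul (hχ01 w).2 (mul_le_mul (hb w) h2 (norm_nonneg _) (by norm_num)) ?_ zero_le_one
            positivity
        _ = _ := by ring
    rw [enorm_mul]
    calc ‖F w‖ₑ * ‖χc w * (h w * dbar gc w)‖ₑ ≤ ‖F w‖ₑ * (5 * ‖fderiv ℝ g w‖ₑ) := by
          refine mul_le_mul_right ?_ _
          rw [← ofReal_norm, ← ofReal_norm]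
          calc ENNReal.ofReal ‖χc w * (h w * dbar gc w)‖ ≤ ENNReal.ofReal (5 * ‖fderiv ℝ g w‖) :=
                ENNReal.ofReal_le_ofReal h1
            _ = 5 * ENNReal.ofReal ‖fderiv ℝ g w‖ := by
                rw [ENNReal.ofReal_mul (by norm_num)]; simp
      _ = _ := by ring
  have hI2i : Integrable (fun w => F w * (χc w * (h w * dbar gc w))) volume := by
    refine ⟨hI2m, ?_⟩
    refine lt_of_le_of_lt (lintegral_mono hI2b) ?_
    rw [lintegral_const_mul' _ _ (by norm_num)]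
    exact ENNReal.mul_lt_top (by norm_num) (lt_top_iff_ne_top.2 htop)
  have hI2 : ‖∫ w, F w * (χc w * (h w * dbar gc w))‖ₑ ≤ 5 * ∫⁻ z, ‖F z‖ₑ * ‖fderiv ℝ g z‖ₑ := by
    refine (enorm_integral_le_lintegral_enorm _).trans ((lintegral_mono hI2b).trans ?_)
    rw [lintegral_const_mul' _ _ (by norm_num)]
  -- the third integral
  have hvi : Integrable (fun w => h w * dbar χc w) volume := by
    have h1 : Integrable (dbar χc) volume := by
      refine hdχ.integrable_of_hasCompactSupport ?_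
      exact HasCompactSupport.intro (isCompact_closedBall a ρ) hχz
    exact h1.bdd_mul hhm (c := 5) (Eventually.of_forall hb)
  have hI3i : Integrable (fun w => F w * ((h w * gc w) * dbar χc w)) volume := by
    have h1 : Integrable (fun w => ((h w * gc w) * dbar χc w) * F w) volume := by
      refine hi.bdd_mul ((hhm.mul hgcC.continuous.aestronglyMeasurable).mul
        hdχ.aestronglyMeasurable) (c := 5 * c) (Eventually.of_forall fun w => ?_)
      rw [norm_mul, norm_mul, hgcdef]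
      simp only
      rw [Complex.norm_real, Real.norm_of_nonneg (hg01 w).1]
      have h2 := hb w
      have h3 := hg01 w
      calc ‖h w‖ * g w * ‖dbar χc w‖ ≤ 5 * 1 * c := by
            refine mul_le_mul (mul_le_mul h2 h3.2 h3.1 (by norm_num)) (hχb w) (norm_nonneg _) (by norm_num)
        _ = 5 * c := by ring
    refine h1.congr (Eventually.of_forall fun w => ?_)
    simp only
    ring
  have hI4i : Integrable (fun w => (gc w * F w - v) * (h w * dbar χc w)) volume := by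
    have h1 := hI3i.sub (hvi.const_mul v)
    refine h1.congr (Eventually.of_forall fun w => ?_)
    simp only [Pi.sub_apply]
    ring
  have hI4 : ‖∫ w, (gc w * F w - v) * (h w * dbar χc w)‖ₑ ≤
      ENNReal.ofReal (5 * c) * ∫⁻ z in closedBall a ρ, ‖g z * F z - v‖ₑ := by
    refine (enorm_integral_le_lintegral_enorm _).trans ?_
    rw [← lintegral_const_mul' _ _ ENNReal.ofReal_ne_top,
      ← lintegral_indicator isClosed_closedBall.measurableSet]
    refine lintegral_mono fun w => ?_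
    by_cases hwD : w ∈ closedBall a ρ
    · rw [indicator_of_mem hwD, enorm_mul, mul_comm]
      refine mul_le_mul_left ?_ _
      rw [← ofReal_norm]
      refine ENNReal.ofReal_le_ofReal ?_
      rw [norm_mul]
      exact mul_le_mul (hb w) (hχb w) (norm_nonneg _) (by norm_num)
    · rw [indicator_of_notMem hwD, hχz w hwD]
      simp
  -- combination
  have hkey : v * ∫ w, h w * dbar χc w = (∫ z, F z * dbar φ z) -
      (∫ w, F w * (χc w * (h w * dbar gc w))) - ∫ w, (gc w * F w - v) * (h w * dbar χc w) := by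
    have h1 : ∀ w, F w * dbar φ w = F w * (χc w * (h w * dbar gc w)) +
        F w * ((h w * gc w) * dbar χc w) := by
      intro w
      have h2 := dbar_mul χc (fun w => h w * gc w) w (hχcC.differentiable one_ne_zero w)
        (hsm.differentiable one_ne_zero w)
      rw [hφ, h2, hdb w]
      ring
    have h3 : (∫ z, F z * dbar φ z) = (∫ w, F w * (χc w * (h w * dbar gc w))) +
        ∫ w, F w * ((h w * gc w) * dbar χc w) := by
      rw [← integral_add hI2i hI3i]
      exact integral_congr_ae (Eventually.of_forall h1)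
    have h4 : (∫ w, F w * ((h w * gc w) * dbar χc w)) = (∫ w, (gc w * F w - v) * (h w * dbar χc w)) +
        v * ∫ w, h w * dbar χc w := by
      rw [← integral_const_mul, ← integral_add hI4i (hvi.const_mul v)]
      refine integral_congr_ae (Eventually.of_forall fun w => ?_)
      simp only
      ring
    rw [h3, h4]
    ring
  rw [hkey]
  calc ‖(∫ z, F z * dbar φ z) - (∫ w, F w * (χc w * (h w * dbar gc w))) -
        ∫ w, (gc w * F w - v) * (h w * dbar χc w)‖ₑ ≤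
      ‖∫ z, F z * dbar φ z‖ₑ + ‖∫ w, F w * (χc w * (h w * dbar gc w))‖ₑ +
        ‖∫ w, (gc w * F w - v) * (h w * dbar χc w)‖ₑ :=
        (enorm_sub_le).trans (add_le_add enorm_sub_le le_rfl)
    _ ≤ _ := add_le_add (add_le_add hI1 hI2) hI4

end CapAux

open CapAux in
theorem capacity : ∃ C N : ℝ, 0 < C ∧ 1 ≤ N ∧ ∀ (F : ℂ → ℂ) (m : Measure ℂ), IsFiniteMeasure m →
    Measurable F → Integrable F →
    (∀ φ : ℂ → ℂ, ContDiff ℝ 1 φ → HasCompactSupport φ →
      ‖∫ z, F z * dbar φ z‖ ≤ ∫ z, ‖φ z‖ ∂m) →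
    ∀ (E : Set ℂ) (a y v : ℂ) (r : ℝ) (g : ℂ → ℝ), 0 < r → IsPreconnected E → a ∈ E → y ∈ E →
      r ≤ dist y a → g ∈ Adm E →
      ENNReal.ofReal (‖v‖ * r) ≤ ENNReal.ofReal C * (m (closedBall a (N * r)) +
        (∫⁻ z, ‖F z‖ₑ * ‖fderiv ℝ g z‖ₑ) +
        ENNReal.ofReal (1 / r) * ∫⁻ z in closedBall a (N * r), ‖g z * F z - v‖ₑ) := by
  obtain ⟨C₁, hC₁, hbump⟩ := bump
  obtain ⟨N₁, hN₁, hint⟩ := h_integral C₁ hC₁
  refine ⟨20 + 20 * C₁, 2 * N₁, by positivity, by linarith, ?_⟩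
  intro F m hm hF hi hw E a y v r g hr hE ha hy hry hg
  obtain ⟨hg1, U, hU, hEU, hgU⟩ := hg
  obtain ⟨γ, hγ, hγ0, hγ1, hγd⟩ := path_in hE hU hEU ha hy hr hry
  have hdist : ∀ t ∈ Icc (0 : ℝ) 1, dist (γ t) a ≤ r := fun t ht => (hγd t ht).2
  obtain ⟨h₀, hh₀, hb₀, hexp₀⟩ := exists_h hγ hr hγ0 hγ1 hdist
  set K : Set ℂ := γ '' Icc 0 1 with hKdef
  have hK : IsCompact K := isCompact_Icc.image_of_continuousOn hγ
  have hKU : K ⊆ U := by
    rintro w ⟨t, ht, rfl⟩
    exact (hγd t ht).1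
  have hKball : K ⊆ closedBall a r := by
    rintro w ⟨t, ht, rfl⟩
    exact (hγd t ht).2
  set h : ℂ → ℂ := Kᶜ.indicator h₀ with hhdef
  have hheq : ∀ w, w ∉ K → h w = h₀ w := fun w hw => indicator_of_mem (show w ∈ Kᶜ from hw) _
  have hh : DifferentiableOn ℂ h Kᶜ := hh₀.congr fun w hw => hheq w hw
  have hK0 : ∀ w ∈ K, h w = 0 := fun w hw => indicator_of_notMem (by simpa using hw) _
  have hb : ∀ w, ‖h w‖ ≤ 5 := by
    intro w
    by_cases hw : w ∈ K
    · rw [hK0 w hw]; simp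
    · rw [hheq w hw]; exact hb₀ w hw
  have hfar : ∀ w, 4 * r ≤ ‖w - a‖ → w ∉ K := by
    intro w hw hwK
    have := hKball hwK
    rw [mem_closedBall, dist_eq_norm] at this
    linarith
  have hNr : 0 < N₁ * r := by positivity
  obtain ⟨χ, hχ, hχ01, hχ1, hχ0, hχd⟩ := hbump a (N₁ * r) hNr
  have hba : ‖γ 1 - a‖ = r := by rw [← dist_eq_norm]; exact hγ1
  have hlow : r / 4 ≤ ‖∫ w, h w * dbar (fun z => (χ z : ℂ)) w‖ := by
    refine hint a (γ 1) r hr hba h ?_ ?_ χ hχ hχ1 hχ0 hχd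
    · exact hh.continuousOn.mono fun w hw => hfar w hw
    · intro w hw
      rw [hheq w (hfar w hw)]
      exact hexp₀ w hw
  have hest := est hm hF hi hw hK hU hKU hh hK0 hb hg1 hgU hχ hχ01 hχ0 (c := C₁ / (N₁ * r))
    (by positivity) hχd v
  have h1 : ENNReal.ofReal (‖v‖ * (r / 4)) ≤ ‖v * ∫ w, h w * dbar (fun z => (χ z : ℂ)) w‖ₑ := by
    rw [← ofReal_norm, norm_mul]
    exact ENNReal.ofReal_le_ofReal (mul_le_mul_of_nonneg_left hlow (norm_nonneg _))
  have h2 := h1.trans hest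
  have h3 : ENNReal.ofReal (‖v‖ * r) = 4 * ENNReal.ofReal (‖v‖ * (r / 4)) := by
    rw [show (4 : ℝ≥0∞) = ENNReal.ofReal 4 by simp, ← ENNReal.ofReal_mul (by norm_num)]
    congr 1
    ring
  have h4 : closedBall a (2 * (N₁ * r)) = closedBall a (2 * N₁ * r) := by rw [mul_assoc]
  rw [h4] at h2
  set A := m (closedBall a (2 * N₁ * r)) with hA
  set B' := ∫⁻ z, ‖F z‖ₑ * ‖fderiv ℝ g z‖ₑ with hB'
  set D := ∫⁻ z in closedBall a (2 * N₁ * r), ‖g z * F z - v‖ₑ with hD
  have h5 : ENNReal.ofReal (5 * (C₁ / (N₁ * r))) ≤ ENNReal.ofReal (5 * C₁) * ENNReal.ofReal (1 / r) := by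
    rw [← ENNReal.ofReal_mul (by positivity)]
    refine ENNReal.ofReal_le_ofReal ?_
    have h6 : C₁ / (N₁ * r) ≤ C₁ / r := by
      refine div_le_div_of_nonneg_left hC₁.le hr ?_
      nlinarith
    calc 5 * (C₁ / (N₁ * r)) ≤ 5 * (C₁ / r) := by linarith
      _ = 5 * C₁ * (1 / r) := by ring
  have h7 : (20 : ℝ≥0∞) ≤ ENNReal.ofReal (20 + 20 * C₁) := by
    rw [show (20 : ℝ≥0∞) = ENNReal.ofReal 20 by simp]
    exact ENNReal.ofReal_le_ofReal (by linarith)
  have h8 : 4 * ENNReal.ofReal (5 * C₁) ≤ ENNReal.ofReal (20 + 20 * C₁) := by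
    rw [show (4 : ℝ≥0∞) = ENNReal.ofReal 4 by simp, ← ENNReal.ofReal_mul (by norm_num)]
    exact ENNReal.ofReal_le_ofReal (by linarith)
  calc ENNReal.ofReal (‖v‖ * r) = 4 * ENNReal.ofReal (‖v‖ * (r / 4)) := h3
    _ ≤ 4 * (5 * A + 5 * B' + ENNReal.ofReal (5 * (C₁ / (N₁ * r))) * D) := mul_le_mul_right h2 _
    _ ≤ 4 * (5 * A + 5 * B' + (ENNReal.ofReal (5 * C₁) * ENNReal.ofReal (1 / r)) * D) :=
        mul_le_mul_right (add_le_add le_rfl (mul_le_mul_left h5 _)) _
    _ = 20 * A + 20 * B' + (4 * ENNReal.ofReal (5 * C₁)) * (ENNReal.ofReal (1 / r) * D) := by ring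
    _ ≤ ENNReal.ofReal (20 + 20 * C₁) * A + ENNReal.ofReal (20 + 20 * C₁) * B' +
        ENNReal.ofReal (20 + 20 * C₁) * (ENNReal.ofReal (1 / r) * D) :=
        add_le_add (add_le_add (mul_le_mul_left h7 _) (mul_le_mul_left h7 _)) (mul_le_mul_left h8 _)
    _ = _ := by ring

end CarA
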