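import Mathlib
import Pool.Agent.CarA.Defs
import Pool.Agent.CarA.Bump

/-!
# CarA/Cost : elementary properties of the cost

* `cost_mono`: `Adm E' ⊆ Adm E`.
* `cost_le_val`: `iInf₂_le`.
* `cost_le`: `g = 0` is admissible, `val F 0 = ∫⁻ ‖F‖ₑ`.
* `val_mul`: `g = g₁ g₂` is in `Unit1`, `|∇g| ≤ |∇g₁| + |∇g₂|`, `1 - g ≤ (1 - g₁) + (1 - g₂)`. (`lintegral_add_left`
  needs the measurability of `‖F‖ₑ (‖∇g₁‖ₑ + …)`; `measurable_fderiv` or continuity of the derivative.)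
* `cost_union`: `g₁ g₂` vanishes near `E ∪ E'` (on `U ∪ U'`); infimum over `g₁`, `g₂` (`ENNReal.le_of_forall_pos_le_add` or
  `iInf` manipulations).
* `cost_ball`: `g = 1 - χ`, `χ` from `bump` with centre `x` and radius `ρ`: `g = 0` on `ball x ρ`, `g = 1` and `∇g = 0` off
  `closedBall x (2ρ)`; `|∇g| + (1 - g) ≤ C/ρ + 1`.
* `cost_tendsto`: `(C/ρ + 1) ∫_{closedBall x (2ρ)} |F| = (2C + 2ρ) · (∫_{closedBall x (2ρ)} |F|)/(2ρ) → 0` by `Dat.small`.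
* `cost_off`: `closedBall x (2ρ) ⊆ Xᶜ` for small `ρ`, there `F = 0`, `cost_ball`.
-/

open MeasureTheory Complex Set Filter Topology Metric
open scoped ENNReal

namespace CarA

private theorem enorm_zero' : ‖(0 : ℂ →L[ℝ] ℝ)‖ₑ = 0 := by
  rw [← ofReal_norm, norm_zero, ENNReal.ofReal_zero]

theorem cost_mono (F : ℂ → ℂ) {E E' : Set ℂ} (h : E ⊆ E') : cost F E ≤ cost F E' := by
  refine biInf_mono fun g hg => ?_
  obtain ⟨h1, U, hU, hEU, hz⟩ := hg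
  exact ⟨h1, U, hU, h.trans hEU, hz⟩

theorem cost_le_val (F : ℂ → ℂ) {E : Set ℂ} {g : ℂ → ℝ} (hg : g ∈ Adm E) : cost F E ≤ val F g :=
  iInf₂_le g hg

theorem cost_le (F : ℂ → ℂ) (E : Set ℂ) : cost F E ≤ ∫⁻ z, ‖F z‖ₑ := by
  have h0 : (fun _ : ℂ => (0 : ℝ)) ∈ Adm E :=
    ⟨⟨contDiff_const, fun z => ⟨le_rfl, zero_le_one⟩⟩, univ, isOpen_univ, subset_univ _,
      fun z _ => rfl⟩
  refine (cost_le_val F h0).trans (le_of_eq ?_)
  unfold val
  simp [enorm_zero']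

private theorem enorm_add_ofReal {V : Type*} [SeminormedAddCommGroup V] (v : V) {t : ℝ}
    (ht : 0 ≤ t) : ‖v‖ₑ + ENNReal.ofReal t = ENNReal.ofReal (‖v‖ + t) := by
  rw [ENNReal.ofReal_add (norm_nonneg _) ht, ofReal_norm]

theorem val_mul (F : ℂ → ℂ) (hF : Measurable F) {g₁ g₂ : ℂ → ℝ} (h₁ : g₁ ∈ Unit1)
    (h₂ : g₂ ∈ Unit1) : val F (fun z => g₁ z * g₂ z) ≤ val F g₁ + val F g₂ := by
  unfold val
  have hm : Measurable fun z => ‖F z‖ₑ * (‖fderiv ℝ g₁ z‖ₑ + ENNReal.ofReal (1 - g₁ z)) := by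
    have h3 : Continuous (fderiv ℝ g₁) := h₁.1.continuous_fderiv (by norm_num)
    have h4 : Continuous g₁ := h₁.1.continuous
    exact hF.enorm.mul (h3.measurable.enorm.add
      (ENNReal.measurable_ofReal.comp (measurable_const.sub h4.measurable)))
  rw [← lintegral_add_left hm]
  refine lintegral_mono fun z => ?_
  obtain ⟨a1, a2⟩ := h₁.2 z
  obtain ⟨b1, b2⟩ := h₂.2 z
  have hab : g₁ z * g₂ z ≤ 1 := mul_le_one₀ a2 b1 b2
  have hd1 : DifferentiableAt ℝ g₁ z := (h₁.1.differentiable (by norm_num)) z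
  have hd2 : DifferentiableAt ℝ g₂ z := (h₂.1.differentiable (by norm_num)) z
  have hd : ‖fderiv ℝ (fun z => g₁ z * g₂ z) z‖ ≤ ‖fderiv ℝ g₁ z‖ + ‖fderiv ℝ g₂ z‖ := by
    rw [fderiv_fun_mul hd1 hd2]
    refine (norm_add_le _ _).trans ?_
    rw [norm_smul, norm_smul, Real.norm_of_nonneg a1, Real.norm_of_nonneg b1]
    have e1 : g₁ z * ‖fderiv ℝ g₂ z‖ ≤ 1 * ‖fderiv ℝ g₂ z‖ :=
      mul_le_mul_of_nonneg_right a2 (norm_nonneg _)
    have e2 : g₂ z * ‖fderiv ℝ g₁ z‖ ≤ 1 * ‖fderiv ℝ g₁ z‖ :=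
      mul_le_mul_of_nonneg_right b2 (norm_nonneg _)
    linarith
  show ‖F z‖ₑ * (‖fderiv ℝ (fun z => g₁ z * g₂ z) z‖ₑ + ENNReal.ofReal (1 - g₁ z * g₂ z)) ≤
    ‖F z‖ₑ * (‖fderiv ℝ g₁ z‖ₑ + ENNReal.ofReal (1 - g₁ z)) +
    ‖F z‖ₑ * (‖fderiv ℝ g₂ z‖ₑ + ENNReal.ofReal (1 - g₂ z))
  rw [← mul_add, enorm_add_ofReal _ (by linarith), enorm_add_ofReal _ (by linarith),
    enorm_add_ofReal _ (by linarith), ← ENNReal.ofReal_add (add_nonneg (norm_nonneg _) (by linarith)) (add_nonneg (norm_nonneg _) (by linarith))]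
  refine mul_le_mul_right (ENNReal.ofReal_le_ofReal ?_) _
  have h5 : 0 ≤ (1 - g₁ z) * (1 - g₂ z) := mul_nonneg (by linarith) (by linarith)
  nlinarith

theorem cost_union (F : ℂ → ℂ) (hF : Measurable F) (E E' : Set ℂ) :
    cost F (E ∪ E') ≤ cost F E + cost F E' := by
  have key : ∀ g₁ ∈ Adm E, ∀ g₂ ∈ Adm E', cost F (E ∪ E') ≤ val F g₁ + val F g₂ := by
    rintro g₁ ⟨h1, U, hU, hEU, hU0⟩ g₂ ⟨h2, U', hU', hEU', hU0'⟩
    refine le_trans (cost_le_val F ⟨⟨h1.1.mul h2.1, fun z => ?_⟩, U ∪ U', hU.union hU',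
      union_subset_union hEU hEU', ?_⟩) (val_mul F hF h1 h2)
    · exact ⟨mul_nonneg (h1.2 z).1 (h2.2 z).1, mul_le_one₀ (h1.2 z).2 (h2.2 z).1 (h2.2 z).2⟩
    · rintro z (hz | hz)
      · show g₁ z * g₂ z = 0
        rw [hU0 z hz, zero_mul]
      · show g₁ z * g₂ z = 0
        rw [hU0' z hz, mul_zero]
  have e1 : cost F E + cost F E' = ⨅ g₁ ∈ Adm E, ⨅ g₂ ∈ Adm E', (val F g₁ + val F g₂) := by
    unfold cost
    simp only [ENNReal.iInf_add]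
    refine iInf_congr fun g₁ => iInf_congr fun _ => ?_
    simp only [ENNReal.add_iInf]
  rw [e1]
  exact le_iInf₂ fun g₁ h1 => le_iInf₂ fun g₂ h2 => key g₁ h1 g₂ h2

theorem cost_ball : ∃ C : ℝ, 0 < C ∧ ∀ (F : ℂ → ℂ) (x : ℂ) (ρ : ℝ), 0 < ρ →
    cost F (ball x ρ) ≤ ENNReal.ofReal (C / ρ + 1) * ∫⁻ z in closedBall x (2 * ρ), ‖F z‖ₑ := by
  obtain ⟨C, hC, h⟩ := bump
  refine ⟨C, hC, fun F x ρ hρ => ?_⟩
  obtain ⟨χ, h1, h2, h3, h4, h5⟩ := h x ρ hρ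
  have hadm : (fun z => 1 - χ z) ∈ Adm (ball x ρ) := by
    refine ⟨⟨contDiff_const.sub h1, fun z => ⟨by linarith [(h2 z).2], by linarith [(h2 z).1]⟩⟩,
      ball x ρ, isOpen_ball, Subset.rfl, fun z hz => ?_⟩
    show 1 - χ z = 0
    rw [h3 z (ball_subset_closedBall hz), sub_self]
  refine (cost_le_val F hadm).trans ?_
  have hpt : ∀ z, ‖F z‖ₑ * (‖fderiv ℝ (fun z => 1 - χ z) z‖ₑ + ENNReal.ofReal (1 - (1 - χ z))) ≤
      (closedBall x (2 * ρ)).indicator (fun z => ENNReal.ofReal (C / ρ + 1) * ‖F z‖ₑ) z := by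
    intro z
    have hfd : fderiv ℝ (fun z => 1 - χ z) z = - fderiv ℝ χ z := by
      rw [fderiv_const_sub]
    by_cases hz : z ∈ closedBall x (2 * ρ)
    · rw [indicator_of_mem hz, mul_comm]
      refine mul_le_mul_left ?_ _
      rw [hfd, sub_sub_cancel, enorm_neg, enorm_add_ofReal _ (h2 z).1]
      exact ENNReal.ofReal_le_ofReal (add_le_add (h5 z) (h2 z).2)
    · rw [indicator_of_notMem hz]
      have hev : χ =ᶠ[𝓝 z] fun _ => 0 := by
        filter_upwards [isClosed_closedBall.isOpen_compl.mem_nhds hz] with w hw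
        exact h4 w fun hw2 => hw (ball_subset_closedBall hw2)
      have hz2 : χ z = 0 := h4 z fun hw2 => hz (ball_subset_closedBall hw2)
      rw [hfd, hev.fderiv_eq, sub_sub_cancel, hz2]
      simp [enorm_zero']
  calc val F (fun z => 1 - χ z)
      ≤ ∫⁻ z, (closedBall x (2 * ρ)).indicator
          (fun z => ENNReal.ofReal (C / ρ + 1) * ‖F z‖ₑ) z := lintegral_mono hpt
    _ = ∫⁻ z in closedBall x (2 * ρ), ENNReal.ofReal (C / ρ + 1) * ‖F z‖ₑ :=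
        lintegral_indicator measurableSet_closedBall _
    _ = _ := lintegral_const_mul' _ _ ENNReal.ofReal_ne_top

theorem cost_tendsto {X : Set ℂ} {F : ℂ → ℂ} {m : Measure ℂ} (h : Dat X F m) (x : ℂ) :
    Tendsto (fun ρ : ℝ => cost F (ball x ρ)) (𝓝[>] 0) (𝓝 0) := by
  obtain ⟨C, hC, hb⟩ := cost_ball
  have hint : ∀ ρ : ℝ, ∫⁻ z in closedBall x (2 * ρ), ‖F z‖ₑ =
      ENNReal.ofReal (∫ z in closedBall x (2 * ρ), ‖F z‖) := fun ρ =>
    (ofReal_integral_norm_eq_lintegral_enorm h.int.integrableOn).symm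
  have hle : ∀ᶠ ρ in 𝓝[>] (0 : ℝ), cost F (ball x ρ) ≤ ENNReal.ofReal
      ((2 * C + 2 * ρ) * ((∫ z in closedBall x (2 * ρ), ‖F z‖) / (2 * ρ))) := by
    filter_upwards [self_mem_nhdsWithin] with ρ hρ
    have hρ' : 0 < ρ := hρ
    refine (hb F x ρ hρ').trans (le_of_eq ?_)
    rw [hint, ← ENNReal.ofReal_mul (by positivity)]
    congr 1
    field_simp
  have h2 : Tendsto (fun ρ : ℝ => 2 * ρ) (𝓝[>] 0) (𝓝[>] 0) := by
    refine tendsto_nhdsWithin_iff.2 ⟨?_, ?_⟩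
    · have : Tendsto (fun ρ : ℝ => 2 * ρ) (𝓝 0) (𝓝 (2 * 0)) := tendsto_id.const_mul 2
      rw [mul_zero] at this
      exact this.mono_left nhdsWithin_le_nhds
    · filter_upwards [self_mem_nhdsWithin] with ρ hρ
      exact mul_pos two_pos (show (0 : ℝ) < ρ from hρ)
  have h3 : Tendsto (fun ρ : ℝ => (∫ z in closedBall x (2 * ρ), ‖F z‖) / (2 * ρ)) (𝓝[>] 0)
      (𝓝 0) := (h.small x).comp h2
  have h4 : Tendsto (fun ρ : ℝ => 2 * C + 2 * ρ) (𝓝[>] 0) (𝓝 (2 * C + 0)) :=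
    tendsto_const_nhds.add (h2.mono_right nhdsWithin_le_nhds)
  have h5 := ENNReal.tendsto_ofReal (h4.mul h3)
  rw [mul_zero, ENNReal.ofReal_zero] at h5
  exact tendsto_of_tendsto_of_tendsto_of_le_of_le' tendsto_const_nhds h5
    (Eventually.of_forall fun _ => zero_le) hle

theorem cost_off {X : Set ℂ} {F : ℂ → ℂ} {m : Measure ℂ} (h : Dat X F m) (x : ℂ) (hx : x ∉ X) :
    ∃ ρ > 0, cost F (ball x ρ) = 0 := by
  obtain ⟨C, hC, hb⟩ := cost_ball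
  obtain ⟨ε, hε, hball⟩ := Metric.isOpen_iff.1 h.comp.isClosed.isOpen_compl x hx
  refine ⟨ε / 4, by positivity, ?_⟩
  have h1 := hb F x (ε / 4) (by positivity)
  have h2 : ∫⁻ z in closedBall x (2 * (ε / 4)), ‖F z‖ₑ = 0 := by
    have h3 : ∫⁻ z in closedBall x (2 * (ε / 4)), ‖F z‖ₑ =
        ∫⁻ z in closedBall x (2 * (ε / 4)), 0 := by
      refine setLIntegral_congr_fun measurableSet_closedBall fun z hz => ?_
      have h4 : z ∉ X := by
        refine hball (closedBall_subset_ball ?_ hz)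
        linarith
      show ‖F z‖ₑ = 0
      rw [h.off z h4, enorm_zero]
    rw [h3, lintegral_zero]
  rw [h2, mul_zero] at h1
  exact le_antisymm h1 zero_le

end CarA
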