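import Mathlib
import Pool.Agent.CarA.Cost

/-!
# CarA/Dist : the pseudometric `dd`

* `dd_le`: `iInf₂_le`.
* `dd_symm`: the same family of continua.
* `dd_tri`: if `E` joins `x`, `y` and `E'` joins `y`, `z` then `E ∪ E'` joins `x`, `z` (`IsPreconnected.union`), `cost_union`.
* `dd_self`: `E = {x} ⊆ ball x ρ`, `cost_tendsto`.
* `dd_ne_top`: for convex `B` the segment (compact, convex) joins `x`, `y`; `cost_le`, `∫⁻ ‖F‖ₑ < ∞`.
* `dd_near`: for `y` close to `x` the segment from `x` to `y` lies in `ball x ρ` (convex); `cost_mono`, `cost_tendsto`.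
* `dd_cont`: `dd x' y' ≤ dd x' x + dd x y + dd y y'` and conversely, so `dd` is continuous on `B × B`; stated with
  `toReal` (finite by `dd_ne_top`): for sequences or `ContinuousOn`.
-/

open MeasureTheory Complex Set Filter Topology Metric
open scoped ENNReal

namespace CarA

variable {X : Set ℂ} {F : ℂ → ℂ} {m : Measure ℂ} {B : Set ℂ}

theorem dd_le (F : ℂ → ℂ) {B E : Set ℂ} {x y : ℂ} (hE : E ∈ Conts B x y) : dd F B x y ≤ cost F E :=
  iInf₂_le E hE

private theorem conts_symm (B : Set ℂ) (x y : ℂ) : Conts B x y = Conts B y x := by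
  ext E
  unfold Conts
  constructor
  · rintro ⟨h1, h2, h3, h4, h5⟩
    exact ⟨h1, h2, h3, h5, h4⟩
  · rintro ⟨h1, h2, h3, h4, h5⟩
    exact ⟨h1, h2, h3, h5, h4⟩

theorem dd_symm (F : ℂ → ℂ) (B : Set ℂ) (x y : ℂ) : dd F B x y = dd F B y x := by
  unfold dd
  rw [conts_symm]

theorem dd_tri (hF : Measurable F) (B : Set ℂ) (x y z : ℂ) :
    dd F B x z ≤ dd F B x y + dd F B y z := by
  have key : ∀ E ∈ Conts B x y, ∀ E' ∈ Conts B y z, dd F B x z ≤ cost F E + cost F E' := by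
    rintro E ⟨h1, h2, h3, h4, h5⟩ E' ⟨h1', h2', h3', h4', h5'⟩
    have hm : E ∪ E' ∈ Conts B x z :=
      ⟨h1.union h1', h2.union y h5 h4' h2', Set.union_subset h3 h3', Or.inl h4, Or.inr h5'⟩
    exact (dd_le F hm).trans (cost_union F hF E E')
  have h1 : dd F B x y + dd F B y z =
      ⨅ E ∈ Conts B x y, ⨅ E' ∈ Conts B y z, (cost F E + cost F E') := by
    conv_lhs => rw [dd, ENNReal.iInf_add]
    congr 1
    funext E
    rw [ENNReal.iInf_add]
    congr 1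
    funext hE
    rw [dd, ENNReal.add_iInf]
    congr 1
    funext E'
    rw [ENNReal.add_iInf]
  rw [h1]
  exact le_iInf₂ fun E hE => le_iInf₂ fun E' hE' => key E hE E' hE'

theorem dd_self (h : Dat X F m) {x : ℂ} (hx : x ∈ B) : dd F B x x = 0 := by
  have hm : ({x} : Set ℂ) ∈ Conts B x x :=
    ⟨isCompact_singleton, isPreconnected_singleton, Set.singleton_subset_iff.2 hx, rfl, rfl⟩
  have h1 : ∀ᶠ ρ : ℝ in 𝓝[>] 0, dd F B x x ≤ cost F (ball x ρ) := by
    filter_upwards [self_mem_nhdsWithin] with ρ hρ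
    refine (dd_le F hm).trans (cost_mono F ?_)
    exact Set.singleton_subset_iff.2 (mem_ball_self hρ)
  have h2 := ge_of_tendsto (cost_tendsto h x) h1
  exact le_antisymm h2 (zero_le)

private theorem seg_mem {B : Set ℂ} (hB : Convex ℝ B) {x y : ℂ} (hx : x ∈ B) (hy : y ∈ B) :
    segment ℝ x y ∈ Conts B x y := by
  refine ⟨?_, (convex_segment x y).isPreconnected, hB.segment_subset hx hy,
    left_mem_segment ℝ x y, right_mem_segment ℝ x y⟩
  rw [← convexHull_pair]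
  exact Set.Finite.isCompact_convexHull (𝕜 := ℝ) (Set.toFinite {x, y})

theorem dd_ne_top (h : Dat X F m) (hB : Convex ℝ B) {x y : ℂ} (hx : x ∈ B) (hy : y ∈ B) :
    dd F B x y ≠ ∞ := by
  have h1 : dd F B x y ≤ ∫⁻ z, ‖F z‖ₑ := (dd_le F (seg_mem hB hx hy)).trans (cost_le F _)
  exact (lt_of_le_of_lt h1 h.int.2).ne

theorem dd_near (h : Dat X F m) (hB : Convex ℝ B) {x : ℂ} (hx : x ∈ B) {ε : ℝ≥0∞} (hε : ε ≠ 0) :
    ∃ δ > 0, ∀ y ∈ B, dist y x < δ → dd F B x y < ε := by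
  have h1 : ∀ᶠ ρ : ℝ in 𝓝[>] 0, cost F (ball x ρ) < ε :=
    (cost_tendsto h x).eventually_lt_const (pos_iff_ne_zero.2 hε)
  obtain ⟨ρ, hρ, hρ0⟩ := (h1.and self_mem_nhdsWithin).exists
  refine ⟨ρ, hρ0, fun y hy hd => ?_⟩
  refine lt_of_le_of_lt ((dd_le F (seg_mem hB hx hy)).trans (cost_mono F ?_)) hρ
  exact (convex_ball x ρ).segment_subset (mem_ball_self hρ0) (mem_ball.2 hd)

theorem dd_cont (h : Dat X F m) (hB : Convex ℝ B) :
    ContinuousOn (fun q : ℂ × ℂ => (dd F B q.1 q.2).toReal) (B ×ˢ B) := by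
  have tri : ∀ x ∈ B, ∀ y ∈ B, ∀ z ∈ B,
      (dd F B x z).toReal ≤ (dd F B x y).toReal + (dd F B y z).toReal := by
    intro x hx y hy z hz
    have h1 := dd_ne_top h hB hx hy
    have h2 := dd_ne_top h hB hy hz
    rw [← ENNReal.toReal_add h1 h2]
    exact ENNReal.toReal_mono (ENNReal.add_ne_top.2 ⟨h1, h2⟩) (dd_tri h.meas B x y z)
  have near : ∀ x ∈ B, ∀ ε : ℝ, 0 < ε → ∃ δ > 0, ∀ y ∈ B, dist y x < δ →
      (dd F B x y).toReal < ε := by
    intro x hx ε hε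
    obtain ⟨δ, hδ, hd⟩ := dd_near h hB hx (ε := ENNReal.ofReal ε) (by
      rw [Ne, ENNReal.ofReal_eq_zero, not_le]; exact hε)
    refine ⟨δ, hδ, fun y hy hy' => ?_⟩
    have := hd y hy hy'
    rwa [← ENNReal.ofReal_lt_ofReal_iff hε, ENNReal.ofReal_toReal (dd_ne_top h hB hx hy)]
  rw [Metric.continuousOn_iff]
  rintro ⟨x, y⟩ ⟨hx, hy⟩ ε hε
  obtain ⟨δ₁, hδ₁, h1⟩ := near x hx (ε / 2) (by linarith)
  obtain ⟨δ₂, hδ₂, h2⟩ := near y hy (ε / 2) (by linarith)
  refine ⟨min δ₁ δ₂, lt_min hδ₁ hδ₂, ?_⟩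
  rintro ⟨x', y'⟩ ⟨hx', hy'⟩ hd
  simp only at hx hy hx' hy'
  rw [Prod.dist_eq, max_lt_iff] at hd
  have a1 := h1 x' hx' (lt_of_lt_of_le hd.1 (min_le_left _ _))
  have a2 := h2 y' hy' (lt_of_lt_of_le hd.2 (min_le_right _ _))
  have s1 : dd F B x' x = dd F B x x' := dd_symm F B x' x
  have s2 : dd F B y' y = dd F B y y' := dd_symm F B y' y
  have t1 := tri x' hx' x hx y' hy'
  have t2 := tri x hx y hy y' hy'
  have t3 := tri x hx x' hx' y hy
  have t4 := tri x' hx' y' hy' y hy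
  rw [s1] at t1
  rw [s2] at t4
  show dist (dd F B x' y').toReal (dd F B x y).toReal < ε
  rw [Real.dist_eq, abs_lt]
  constructor <;> linarith

end CarA
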