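import Mathlib
import Pool.Agent.CarA.Dist
import Pool.Agent.CarA.Cap

/-!
# CarA/CapDd : the capacity inequality for the pseudometric

From `capacity`: `‖g F - v‖ ≤ ‖F - v‖ + (1 - g) ‖F‖`, so for every continuum `E ∈ Conts B a y` and every `g ∈ Adm E`
`|v| r ≤ C (m(closedBall a (Nr)) + (1 + 1/r) val F g + (1/r) ∫_{closedBall a (Nr)} |F - v|)`.
Take the infimum over `g` and `E` (multiplication by the positive finite constant `1 + 1/r` and addition are continuous:
`ENNReal.mul_iInf…`, or: if the inequality failed for `dd`, choose `E`, `g` with `val F g` close to `dd F B a y`; if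
`dd F B a y = ∞` nothing is to be proved).
-/

open MeasureTheory Complex Set Filter Topology Metric
open scoped ENNReal

namespace CarA

theorem cap_dd : ∃ C N : ℝ, 0 < C ∧ 1 ≤ N ∧ ∀ (X : Set ℂ) (F : ℂ → ℂ) (m : Measure ℂ), Dat X F m →
    ∀ (B : Set ℂ) (a y v : ℂ) (r : ℝ), 0 < r → r ≤ dist y a →
      ENNReal.ofReal (‖v‖ * r) ≤ ENNReal.ofReal C * (m (closedBall a (N * r)) +
        ENNReal.ofReal (1 + 1 / r) * dd F B a y +
        ENNReal.ofReal (1 / r) * ∫⁻ z in closedBall a (N * r), ‖F z - v‖ₑ) := by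
  obtain ⟨C, N, hC, hN, hcap⟩ := capacity
  refine ⟨C, N, hC, hN, ?_⟩
  intro X F m h B a y v r hr hry
  obtain ⟨c, hc⟩ : ∃ c : ℝ≥0∞, c = ENNReal.ofReal C := ⟨_, rfl⟩
  obtain ⟨κ, hκ⟩ : ∃ κ : ℝ≥0∞, κ = ENNReal.ofReal (1 + 1 / r) := ⟨_, rfl⟩
  obtain ⟨s, hs⟩ : ∃ s : ℝ≥0∞, s = ENNReal.ofReal (1 / r) := ⟨_, rfl⟩
  obtain ⟨M, hM⟩ : ∃ M : ℝ≥0∞, M = m (closedBall a (N * r)) := ⟨_, rfl⟩
  obtain ⟨S, hS⟩ : ∃ S : ℝ≥0∞, S = ∫⁻ z in closedBall a (N * r), ‖F z - v‖ₑ := ⟨_, rfl⟩
  obtain ⟨L, hL⟩ : ∃ L : ℝ≥0∞, L = ENNReal.ofReal (‖v‖ * r) := ⟨_, rfl⟩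
  have hr' : (0 : ℝ) < 1 / r := by positivity
  have hc0 : c ≠ 0 := by
    rw [hc]
    exact (ENNReal.ofReal_pos.2 hC).ne'
  have hct : c ≠ ∞ := by
    rw [hc]
    exact ENNReal.ofReal_ne_top
  have hκ0 : κ ≠ 0 := by
    rw [hκ]
    exact (ENNReal.ofReal_pos.2 (by linarith)).ne'
  have hκt : κ ≠ ∞ := by
    rw [hκ]
    exact ENNReal.ofReal_ne_top
  have hκs : κ = 1 + s := by
    rw [hκ, hs, ENNReal.ofReal_add zero_le_one hr'.le, ENNReal.ofReal_one]
  have hmain : ∀ E ∈ Conts B a y, ∀ g ∈ Adm E, L ≤ c * κ * val F g + (c * M + c * (s * S)) := by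
    intro E hE g hg
    obtain ⟨-, hEp, -, haE, hyE⟩ := hE
    have h1 := hcap F m h.fin h.meas h.int h.weak E a y v r g hr hEp haE hyE hry hg
    rw [← hc, ← hM, ← hs, ← hL] at h1
    have hg01 := hg.1.2
    have hG : ∫⁻ z, ‖F z‖ₑ * ‖fderiv ℝ g z‖ₑ ≤ val F g := by
      refine lintegral_mono fun z => ?_
      exact mul_le_mul_right le_self_add _
    have hH : ∫⁻ z, ‖F z‖ₑ * ENNReal.ofReal (1 - g z) ≤ val F g := by
      refine lintegral_mono fun z => ?_
      exact mul_le_mul_right le_add_self _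
    have hSg : ∫⁻ z in closedBall a (N * r), ‖g z * F z - v‖ₑ ≤ S + val F g := by
      calc ∫⁻ z in closedBall a (N * r), ‖g z * F z - v‖ₑ
          ≤ ∫⁻ z in closedBall a (N * r), (‖F z - v‖ₑ + ‖F z‖ₑ * ENNReal.ofReal (1 - g z)) := by
            refine lintegral_mono fun z => ?_
            have e1 : (g z : ℂ) * F z - v = (F z - v) + (-((1 - g z : ℝ) : ℂ)) * F z := by
              push_cast
              ring
            rw [e1]
            refine (enorm_add_le _ _).trans ?_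
            refine add_le_add le_rfl ?_
            rw [enorm_mul, enorm_neg, mul_comm]
            refine mul_le_mul_right ?_ _
            rw [← ofReal_norm, Complex.norm_real, Real.norm_of_nonneg (by linarith [(hg01 z).2])]
        _ = S + ∫⁻ z in closedBall a (N * r), ‖F z‖ₑ * ENNReal.ofReal (1 - g z) := by
            rw [lintegral_add_left, hS]
            exact (h.meas.sub_const v).enorm
        _ ≤ S + val F g := by
            refine add_le_add le_rfl (le_trans ?_ hH)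
            exact setLIntegral_le_lintegral _ _
    calc L ≤ c * (M + (∫⁻ z, ‖F z‖ₑ * ‖fderiv ℝ g z‖ₑ) +
          s * ∫⁻ z in closedBall a (N * r), ‖g z * F z - v‖ₑ) := h1
      _ ≤ c * (M + val F g + s * (S + val F g)) := by
          refine mul_le_mul_right ?_ _
          exact add_le_add (add_le_add le_rfl hG) (mul_le_mul_right hSg _)
      _ = c * κ * val F g + (c * M + c * (s * S)) := by
          rw [hκs]
          ring
  have hk0 : c * κ ≠ 0 := mul_ne_zero hc0 hκ0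
  have hkt : c * κ ≠ ∞ := ENNReal.mul_ne_top hct hκt
  have hinf : (L - (c * M + c * (s * S))) / (c * κ) ≤ dd F B a y := by
    refine le_iInf₂ fun E hE => le_iInf₂ fun g hg => ?_
    rw [ENNReal.div_le_iff' hk0 hkt, tsub_le_iff_right]
    exact hmain E hE g hg
  rw [ENNReal.div_le_iff' hk0 hkt, tsub_le_iff_right] at hinf
  rw [← hc, ← hM, ← hs, ← hL, ← hκ, ← hS]
  refine hinf.trans (le_of_eq ?_)
  ring

end CarA
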