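import Mathlib
import Pool.Agent.CarA.Dist

/-!
# CarA/RelA : the relation is closed and its classes are connected

`B` compact and convex.

* `rel_refl`, `rel_symm`, `rel_trans`, `rel_mem`: from `dd_self`, `dd_symm`, `dd_tri`.
* `rel_closed`: `{q | rel F B q.1 q.2}` is the set of the points of the compact set `B ×ˢ B` where the continuous function
  `dd_cont` vanishes (`toReal = 0` iff `dd = 0`, as `dd ≠ ∞`).
* `rel_conn`: the class `K` of `x` is compact (closed in `B`). Suppose that `K ⊆ O₁ ∪ O₂`, `O₁`, `O₂` open, disjoint on `K`;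
  separate the compact sets `K ∩ O₁`-part and `K ∩ O₂`-part by disjoint open sets `V₁`, `V₂` (for closed sets:
  `isPreconnected_closed_iff`/`IsPreconnected` and normality). Let `x ∈ V₁` and `y ∈ K ∩ V₂`. As `dd x y = 0` there are
  continua `E_n ∈ Conts B x y` with `cost F E_n < 1/n`. `E_n` is connected and meets `V₁` and `V₂`, so it has a point `e_n`
  outside `V₁ ∪ V₂`; `dd x e_n ≤ cost F E_n` (`dd_le`). A limit point `e ∈ B \ (V₁ ∪ V₂)` of `e_n` satisfies `dd x e = 0` by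
  continuity, i.e. `e ∈ K ⊆ V₁ ∪ V₂`, a contradiction.
* `rel_off`: a point `x ∈ interior B` outside `X` has a nontrivial class: `ball x ρ ⊆ B`, `cost F (ball x ρ) = 0`
  (`cost_off`, smaller balls by `cost_mono`), so all points of the ball are related to `x` (segments).
-/

open MeasureTheory Complex Set Filter Topology Metric
open scoped ENNReal

namespace CarA

variable {X : Set ℂ} {F : ℂ → ℂ} {m : Measure ℂ} {B : Set ℂ}

theorem rel_refl (h : Dat X F m) {x : ℂ} (hx : x ∈ B) : rel F B x x := ⟨hx, hx, dd_self h hx⟩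

theorem rel_symm {x y : ℂ} (hxy : rel F B x y) : rel F B y x :=
  ⟨hxy.2.1, hxy.1, by rw [dd_symm]; exact hxy.2.2⟩

theorem rel_trans (h : Dat X F m) {x y z : ℂ} (hxy : rel F B x y) (hyz : rel F B y z) :
    rel F B x z := by
  refine ⟨hxy.1, hyz.2.1, ?_⟩
  have := dd_tri h.meas B x y z
  rw [hxy.2.2, hyz.2.2, add_zero] at this
  exact le_antisymm this zero_le

theorem rel_closed (h : Dat X F m) (hB : Convex ℝ B) (hc : IsCompact B) :
    IsClosed {q : ℂ × ℂ | rel F B q.1 q.2} := by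
  have h1 : {q : ℂ × ℂ | rel F B q.1 q.2} =
      (B ×ˢ B) ∩ (fun q : ℂ × ℂ => (dd F B q.1 q.2).toReal) ⁻¹' {0} := by
    ext ⟨x, y⟩
    constructor
    · rintro ⟨hx, hy, hxy⟩
      refine ⟨⟨hx, hy⟩, ?_⟩
      change (dd F B x y).toReal = 0
      rw [hxy, ENNReal.toReal_zero]
    · rintro ⟨⟨hx, hy⟩, hxy⟩
      refine ⟨hx, hy, ?_⟩
      have h2 : (dd F B x y).toReal = 0 := hxy
      rcases (ENNReal.toReal_eq_zero_iff _).1 h2 with h3 | h3
      · exact h3
      · exact absurd h3 (dd_ne_top h hB hx hy)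
  rw [h1]
  exact (dd_cont h hB).preimage_isClosed_of_isClosed (hc.isClosed.prod hc.isClosed)
    isClosed_singleton

theorem rel_compact (h : Dat X F m) (hB : Convex ℝ B) (hc : IsCompact B) (x : ℂ) :
    IsCompact {y | rel F B x y} := by
  have h1 : IsClosed {y | rel F B x y} :=
    (rel_closed h hB hc).preimage (Continuous.prodMk_right x)
  exact hc.of_isClosed_subset h1 fun y hy => hy.2.1

private theorem rel_conn_aux (h : Dat X F m) (hB : Convex ℝ B) (hc : IsCompact B) {x : ℂ}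
    (hx : x ∈ B) {u v : Set ℂ} (hu : IsClosed u) (hv : IsClosed v)
    (hK : {y | rel F B x y} ⊆ u ∪ v) (huv : Disjoint u v) (hxu : x ∈ u) :
    {y | rel F B x y} ⊆ u := by
  intro y hy
  by_contra hyu
  have hyv : y ∈ v := (hK hy).resolve_left hyu
  obtain ⟨V₁, V₂, hV₁, hV₂, huV, hvV, hdis⟩ := normal_separation hu hv huv
  have key : ∀ ε : ℝ≥0∞, ε ≠ 0 → ∃ e ∈ B \ (V₁ ∪ V₂), dd F B x e < ε := by
    intro ε hε
    have h1 : dd F B x y < ε := by
      rw [hy.2.2]
      exact pos_iff_ne_zero.2 hε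
    unfold dd at h1
    rw [iInf_lt_iff] at h1
    obtain ⟨E, h2⟩ := h1
    rw [iInf_lt_iff] at h2
    obtain ⟨hE, h3⟩ := h2
    obtain ⟨hEc, hEp, hEB, hxE, hyE⟩ := hE
    have h4 : ¬ E ⊆ V₁ ∪ V₂ := by
      intro hsub
      obtain ⟨z, _, hz1, hz2⟩ := hEp V₁ V₂ hV₁ hV₂ hsub ⟨x, hxE, huV hxu⟩ ⟨y, hyE, hvV hyv⟩
      exact Set.disjoint_left.1 hdis hz1 hz2
    rw [Set.not_subset] at h4
    obtain ⟨e, heE, he⟩ := h4
    exact ⟨e, ⟨hEB heE, he⟩, (dd_le F ⟨hEc, hEp, hEB, hxE, heE⟩).trans_lt h3⟩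
  have hL : IsCompact (B \ (V₁ ∪ V₂)) := hc.diff (hV₁.union hV₂)
  obtain ⟨e₀, he₀, _⟩ := key 1 one_ne_zero
  have hcont : ContinuousOn (fun y => (dd F B x y).toReal) (B \ (V₁ ∪ V₂)) := by
    have h1 : ContinuousOn (fun y : ℂ => ((x, y) : ℂ × ℂ)) (B \ (V₁ ∪ V₂)) :=
      (Continuous.prodMk_right x).continuousOn
    have h2 : MapsTo (fun y : ℂ => ((x, y) : ℂ × ℂ)) (B \ (V₁ ∪ V₂)) (B ×ˢ B) :=
      fun y hy => Set.mk_mem_prod hx hy.1
    have h3 := ContinuousOn.comp (dd_cont h hB) h1 h2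
    exact h3.congr (fun y _ => rfl)
  obtain ⟨e, he, hmin⟩ := hL.exists_isMinOn ⟨e₀, he₀⟩ hcont
  have hpos : 0 < (dd F B x e).toReal := by
    rcases (ENNReal.toReal_nonneg (a := dd F B x e)).lt_or_eq with h1 | h1
    · exact h1
    · exfalso
      rcases (ENNReal.toReal_eq_zero_iff _).1 h1.symm with h3 | h3
      · have h4 : e ∈ u ∪ v := hK ⟨hx, he.1, h3⟩
        apply he.2
        rcases h4 with h4 | h4
        · exact Or.inl (huV h4)
        · exact Or.inr (hvV h4)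
      · exact dd_ne_top h hB hx he.1 h3
  obtain ⟨e', he', hlt⟩ := key (ENNReal.ofReal (dd F B x e).toReal)
    (ENNReal.ofReal_pos.2 hpos).ne'
  have h5 : (dd F B x e').toReal < (dd F B x e).toReal := ENNReal.toReal_lt_of_lt_ofReal hlt
  have h6 : (dd F B x e).toReal ≤ (dd F B x e').toReal := hmin he'
  exact absurd h6 (not_le.2 h5)

theorem rel_conn (h : Dat X F m) (hB : Convex ℝ B) (hc : IsCompact B) {x : ℂ} (hx : x ∈ B) :
    IsConnected {y | rel F B x y} := by
  refine ⟨⟨x, rel_refl h hx⟩, ?_⟩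
  rw [isPreconnected_iff_subset_of_fully_disjoint_closed (rel_compact h hB hc x).isClosed]
  intro u v hu hv hK huv
  have hxK : x ∈ u ∪ v := hK (rel_refl h hx)
  rcases hxK with hxu | hxv
  · exact Or.inl (rel_conn_aux h hB hc hx hu hv hK huv hxu)
  · rw [Set.union_comm] at hK
    exact Or.inr (rel_conn_aux h hB hc hx hv hu hK huv.symm hxv)

theorem rel_off (h : Dat X F m) {x : ℂ} (hx : x ∈ interior B) (hX : x ∉ X) :
    {y | rel F B x y} ≠ {x} := by
  intro heq
  obtain ⟨ρ, hρ, hcost⟩ := cost_off h x hX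
  obtain ⟨ρ', hρ', hball⟩ := Metric.isOpen_iff.1 isOpen_interior x hx
  have hr : 0 < min ρ ρ' := lt_min hρ hρ'
  have hsub1 : closedBall x (min ρ ρ' / 2) ⊆ ball x ρ :=
    closedBall_subset_ball (by linarith [min_le_left ρ ρ'])
  have hsub2 : closedBall x (min ρ ρ' / 2) ⊆ B :=
    ((closedBall_subset_ball (by linarith [min_le_right ρ ρ'])).trans hball).trans interior_subset
  have hmem : x + ((min ρ ρ' / 2 : ℝ) : ℂ) ∈ closedBall x (min ρ ρ' / 2) := by
    rw [mem_closedBall, dist_eq_norm, add_sub_cancel_left, Complex.norm_real, Real.norm_eq_abs,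
      abs_of_pos (by linarith)]
  have hrel : rel F B x (x + ((min ρ ρ' / 2 : ℝ) : ℂ)) := by
    refine ⟨interior_subset hx, hsub2 hmem, ?_⟩
    apply le_antisymm _ zero_le
    have h1 : closedBall x (min ρ ρ' / 2) ∈ Conts B x (x + ((min ρ ρ' / 2 : ℝ) : ℂ)) :=
      ⟨isCompact_closedBall x _, (convex_closedBall x _).isPreconnected, hsub2,
        mem_closedBall_self (by linarith), hmem⟩
    calc dd F B x (x + ((min ρ ρ' / 2 : ℝ) : ℂ)) ≤ cost F (closedBall x (min ρ ρ' / 2)) := dd_le F h1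
      _ ≤ cost F (ball x ρ) := cost_mono F hsub1
      _ = 0 := hcost
  have h2 : x + ((min ρ ρ' / 2 : ℝ) : ℂ) ∈ ({x} : Set ℂ) := by
    rw [← heq]
    exact hrel
  rw [mem_singleton_iff, add_eq_left, ofReal_eq_zero] at h2
  linarith

end CarA
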