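import Mathlib
import Pool.Agent.CarA.Defs

/-!
# CarA/Leb : density points

For almost every `z`: (i) there is `M` with `m(closedBall z r) ≤ M r²` for small `r > 0`; (ii)
`∫_{closedBall z r} |F - F z| ≤ ε r²` for small `r`, for every `ε > 0`.

Proof. (i) `Besicovitch.ae_tendsto_rnDeriv`: `m(closedBall z r)/volume(closedBall z r) → m.rnDeriv volume z`, which is finite
a.e. (`Measure.rnDeriv_lt_top`), and `volume (closedBall z r) = π r²` (`Complex.volume_closedBall`).
(ii) `IsUnifLocDoublingMeasure.ae_tendsto_average_norm_sub` or `VitaliFamily.ae_tendsto_lintegral_enorm_sub_div` with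
`Besicovitch.vitaliFamily` (`F` is integrable), for the centred closed balls.
-/

open MeasureTheory Complex Set Filter Topology Metric
open scoped ENNReal

namespace CarA

theorem leb_vol (z : ℂ) {r : ℝ} (hr : 0 < r) :
    volume (closedBall z r) = ENNReal.ofReal (Real.pi * r ^ 2) := by
  rw [Complex.volume_closedBall, mul_comm, ENNReal.ofReal_mul Real.pi_pos.le,
    ENNReal.ofReal_pow hr.le]
  congr 1
  exact (ENNReal.ofReal_coe_nnreal (p := NNReal.pi)).symm

/-- if the ratio tends to `L < C`, the numerator is eventually at most `C π r²` -/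
theorem leb_aux (z : ℂ) (h : ℝ → ℝ≥0∞) {L : ℝ≥0∞} {C : ℝ} (hC : 0 ≤ C)
    (ht : Tendsto (fun r => h r / volume (closedBall z r)) (𝓝[>] 0) (𝓝 L))
    (hL : L < ENNReal.ofReal C) :
    ∀ᶠ r in 𝓝[>] (0 : ℝ), h r ≤ ENNReal.ofReal (C * Real.pi * r ^ 2) := by
  filter_upwards [ht.eventually (gt_mem_nhds hL), self_mem_nhdsWithin] with r hr hr0
  have hr0' : (0 : ℝ) < r := hr0
  have hv : volume (closedBall z r) = ENNReal.ofReal (Real.pi * r ^ 2) := leb_vol z hr0'
  have hv0 : volume (closedBall z r) ≠ 0 := by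
    rw [hv]
    exact (ENNReal.ofReal_pos.2 (by positivity)).ne'
  have hvt : volume (closedBall z r) ≠ ∞ := by rw [hv]; exact ENNReal.ofReal_ne_top
  have h1 : h r ≤ ENNReal.ofReal C * volume (closedBall z r) :=
    (ENNReal.div_le_iff hv0 hvt).1 hr.le
  rw [hv, ← ENNReal.ofReal_mul hC] at h1
  rwa [mul_assoc]

theorem ae_mass (m : Measure ℂ) [IsFiniteMeasure m] :
    ∀ᵐ z : ℂ, ∃ M : ℝ, 0 < M ∧ ∀ᶠ r in 𝓝[>] (0 : ℝ), m (closedBall z r) ≤ ENNReal.ofReal (M * r ^ 2) := by
  filter_upwards [Besicovitch.ae_tendsto_rnDeriv m (volume : Measure ℂ),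
    Measure.rnDeriv_lt_top m (volume : Measure ℂ)] with z hz hz'
  refine ⟨((m.rnDeriv volume z).toReal + 1) * Real.pi, by positivity, ?_⟩
  refine leb_aux z (fun r => m (closedBall z r)) (by positivity) hz ?_
  rw [ENNReal.lt_ofReal_iff_toReal_lt hz'.ne]
  linarith

theorem ae_leb (F : ℂ → ℂ) (hF : Integrable F) :
    ∀ᵐ z : ℂ, ∀ ε : ℝ, 0 < ε → ∀ᶠ r in 𝓝[>] (0 : ℝ),
      ∫⁻ w in closedBall z r, ‖F w - F z‖ₑ ≤ ENNReal.ofReal (ε * r ^ 2) := by
  filter_upwards [(Besicovitch.vitaliFamily (volume : Measure ℂ)).ae_tendsto_lintegral_enorm_sub_div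
    hF.locallyIntegrable] with z hz ε hε
  have h1 := hz.comp (Besicovitch.tendsto_filterAt (volume : Measure ℂ) z)
  have h2 := leb_aux z (fun r => ∫⁻ w in closedBall z r, ‖F w - F z‖ₑ)
    (C := ε / Real.pi) (L := 0) (by positivity) h1 (ENNReal.ofReal_pos.2 (by positivity))
  rwa [div_mul_cancel₀ _ Real.pi_ne_zero] at h2

end CarA
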