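import Mathlib
import Pool.Agent.CarA.CapDd
import Pool.Agent.CarA.Leb

/-!
# CarA/Triv : points with trivial classes; a disc in which all classes are small

`triv_ae`: let `z` be as in `ae_mass`, `ae_leb`, `F z ≠ 0`, and `dd F B z y = 0`, `y ≠ z`. For all small `r > 0` (`r ≤ dist y z`), `cap_dd` with
`a = z`, `v = F z` gives `|F z| r ≤ C (M N² r² + 0 + (1/r) ε N² r²)`, i.e. `|F z| ≤ C M N² r + C ε N²`. Choose
`ε = |F z|/(4 C N²)` and `r` small: contradiction. (`N r → 0⁺` as `r → 0⁺` for the eventual statements.)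

`good_disc`: choose `p` with `F p ≠ 0` as above (`F ≠ 0` on a set of positive measure, `Dat.ne`). Let `R > 0` be small and `x, y` in
`closedBall p R` with `dd F (closedBall p R) x y = 0` and `dist x y > R/200`. `cap_dd` with `a = x`, `v = F p`, `r = R/200`:
`closedBall x (N r) ⊆ closedBall p (N' R)`, `N' = 1 + N`, so
`|F p| R/200 ≤ C (M N'² R² + (200/R) ε N'² R²)`, i.e. `|F p|/200 ≤ C M N'² R + 200 C ε N'²`; contradiction for
`ε = |F p|/(10⁵ C N'²)` and `R` small.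
-/

open MeasureTheory Complex Set Filter Topology Metric
open scoped ENNReal

namespace CarA

variable {X : Set ℂ} {F : ℂ → ℂ} {m : Measure ℂ}

private lemma triv_scale {K : ℝ} (hK : 0 < K) {P : ℝ → Prop} (h : ∀ᶠ r in 𝓝[>] (0 : ℝ), P r) :
    ∀ᶠ r in 𝓝[>] (0 : ℝ), P (K * r) := by
  have ht : Tendsto (fun r : ℝ => K * r) (𝓝[>] 0) (𝓝[>] 0) := by
    rw [tendsto_nhdsWithin_iff]
    constructor
    · have h1 : Tendsto (fun r : ℝ => K * r) (𝓝 0) (𝓝 (K * 0)) :=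
        (continuous_const.mul continuous_id).tendsto 0
      rw [mul_zero] at h1
      exact h1.mono_left nhdsWithin_le_nhds
    · filter_upwards [self_mem_nhdsWithin] with r hr
      exact mul_pos hK hr
  exact ht.eventually h

private lemma triv_core {C M ε K R r : ℝ} (hC : 0 < C) (hM : 0 < M) (hε : 0 < ε)
    (hR : 0 < R) (hr : 0 < r) {v : ℂ} {A I D : ℝ≥0∞}
    (hA : A ≤ ENNReal.ofReal (M * (K * R) ^ 2)) (hI : I ≤ ENNReal.ofReal (ε * (K * R) ^ 2))
    (hD : D = 0)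
    (h : ENNReal.ofReal (‖v‖ * r) ≤ ENNReal.ofReal C * (A + ENNReal.ofReal (1 + 1 / r) * D +
      ENNReal.ofReal (1 / r) * I)) :
    ‖v‖ * r ≤ C * (M * (K * R) ^ 2 + 1 / r * (ε * (K * R) ^ 2)) := by
  have h1 : ENNReal.ofReal (‖v‖ * r) ≤
      ENNReal.ofReal (C * (M * (K * R) ^ 2 + 1 / r * (ε * (K * R) ^ 2))) := by
    refine h.trans ?_
    rw [hD, mul_zero, add_zero, ENNReal.ofReal_mul hC.le, ENNReal.ofReal_add (by positivity)
      (by positivity), ENNReal.ofReal_mul (by positivity : (0 : ℝ) ≤ 1 / r)]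
    gcongr
  exact (ENNReal.ofReal_le_ofReal_iff (by positivity)).mp h1

theorem triv_ae (h : Dat X F m) (B : Set ℂ) :
    ∀ᵐ z : ℂ, F z ≠ 0 → ∀ y, dd F B z y = 0 → y = z := by
  haveI := h.fin
  obtain ⟨C, N, hC, hN, hcap⟩ := cap_dd
  filter_upwards [ae_mass m, ae_leb F h.int] with z hz1 hz2 hFz y hy
  by_contra hne
  obtain ⟨M, hM, hz1⟩ := hz1
  have hN0 : 0 < N := by linarith
  have hF0 : 0 < ‖F z‖ := norm_pos_iff.mpr hFz
  have hdist : 0 < dist y z := dist_pos.mpr hne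
  set ε : ℝ := ‖F z‖ / (4 * C * N ^ 2) with hε
  have hε0 : 0 < ε := by positivity
  have e1 := triv_scale hN0 hz1
  have e2 := triv_scale hN0 (hz2 ε hε0)
  have e3 : ∀ᶠ r in 𝓝[>] (0 : ℝ), r < min (dist y z) (‖F z‖ / (4 * C * M * N ^ 2)) := by
    have hpos : 0 < min (dist y z) (‖F z‖ / (4 * C * M * N ^ 2)) := lt_min hdist (by positivity)
    exact (eventually_lt_nhds hpos).filter_mono nhdsWithin_le_nhds
  have e4 : ∀ᶠ r in 𝓝[>] (0 : ℝ), 0 < r := self_mem_nhdsWithin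
  obtain ⟨r, h1, h2, h3, h4⟩ := (e1.and (e2.and (e3.and e4))).exists
  have h5 := hcap X F m h B z y (F z) r h4 (h3.le.trans (min_le_left _ _))
  have h6 := triv_core hC hM hε0 h4 h4 h1 h2 hy h5
  have h7 : r < ‖F z‖ / (4 * C * M * N ^ 2) := h3.trans_le (min_le_right _ _)
  rw [lt_div_iff₀ (by positivity)] at h7
  have h8 : C * (M * (N * r) ^ 2 + 1 / r * (ε * (N * r) ^ 2)) =
      (C * M * N ^ 2 * r + C * N ^ 2 * ε) * r := by
    field_simp
  have h9 : C * N ^ 2 * ε = ‖F z‖ / 4 := by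
    rw [hε]
    field_simp
  rw [h8, h9] at h6
  have h10 : ‖F z‖ ≤ C * M * N ^ 2 * r + ‖F z‖ / 4 := le_of_mul_le_mul_right h6 h4
  nlinarith

theorem good_disc (h : Dat X F m) : ∃ (p : ℂ) (R : ℝ), 0 < R ∧ ∀ x ∈ closedBall p R,
    ∀ y ∈ closedBall p R, dd F (closedBall p R) x y = 0 → dist x y ≤ R / 200 := by
  haveI := h.fin
  obtain ⟨C, N, hC, hN, hcap⟩ := cap_dd
  have hex : ∃ p : ℂ, (∃ M : ℝ, 0 < M ∧ ∀ᶠ r in 𝓝[>] (0 : ℝ),
      m (closedBall p r) ≤ ENNReal.ofReal (M * r ^ 2)) ∧ (∀ ε : ℝ, 0 < ε → ∀ᶠ r in 𝓝[>] (0 : ℝ),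
      ∫⁻ w in closedBall p r, ‖F w - F p‖ₑ ≤ ENNReal.ofReal (ε * r ^ 2)) ∧ F p ≠ 0 := by
    by_contra hcon
    push Not at hcon
    apply h.ne
    filter_upwards [ae_mass m, ae_leb F h.int] with z hz1 hz2
    exact hcon z hz1 hz2
  obtain ⟨p, ⟨M, hM, hp1⟩, hp2, hFp⟩ := hex
  have hN0 : 0 < 1 + N := by linarith
  have hF0 : 0 < ‖F p‖ := norm_pos_iff.mpr hFp
  set ε : ℝ := ‖F p‖ / (100000 * C * (1 + N) ^ 2) with hε
  have hε0 : 0 < ε := by positivity
  have e1 := triv_scale hN0 hp1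
  have e2 := triv_scale hN0 (hp2 ε hε0)
  have e3 : ∀ᶠ r in 𝓝[>] (0 : ℝ), r < ‖F p‖ / (500 * C * M * (1 + N) ^ 2) := by
    have hpos : 0 < ‖F p‖ / (500 * C * M * (1 + N) ^ 2) := by positivity
    exact (eventually_lt_nhds hpos).filter_mono nhdsWithin_le_nhds
  have e4 : ∀ᶠ r in 𝓝[>] (0 : ℝ), 0 < r := self_mem_nhdsWithin
  obtain ⟨R, h1, h2, h3, h4⟩ := (e1.and (e2.and (e3.and e4))).exists
  refine ⟨p, R, h4, ?_⟩
  intro x hx y hy hdd
  by_contra hlt
  push Not at hlt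
  have hr : 0 < R / 200 := by positivity
  have h5 := hcap X F m h (closedBall p R) x y (F p) (R / 200) hr (by
    rw [dist_comm]
    exact hlt.le)
  have hsub : closedBall x (N * (R / 200)) ⊆ closedBall p ((1 + N) * R) := by
    intro w hw
    rw [mem_closedBall] at hw hx ⊢
    have h6 := dist_triangle w x p
    have h7 : N * (R / 200) ≤ N * R := by
      apply mul_le_mul_of_nonneg_left _ (by linarith)
      linarith
    nlinarith
  have hA : m (closedBall x (N * (R / 200))) ≤ ENNReal.ofReal (M * ((1 + N) * R) ^ 2) :=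
    (measure_mono hsub).trans h1
  have hI : ∫⁻ w in closedBall x (N * (R / 200)), ‖F w - F p‖ₑ ≤
      ENNReal.ofReal (ε * ((1 + N) * R) ^ 2) := (lintegral_mono_set hsub).trans h2
  have h6 := triv_core hC hM hε0 h4 hr hA hI hdd h5
  rw [lt_div_iff₀ (by positivity)] at h3
  have h8 : C * (M * ((1 + N) * R) ^ 2 + 1 / (R / 200) * (ε * ((1 + N) * R) ^ 2)) =
      (200 * (C * M * (1 + N) ^ 2 * R) + 40000 * (C * (1 + N) ^ 2 * ε)) * (R / 200) := by
    field_simp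
    ring
  have h9 : C * (1 + N) ^ 2 * ε = ‖F p‖ / 100000 := by
    rw [hε]
    field_simp
  rw [h8, h9] at h6
  have h10 := le_of_mul_le_mul_right h6 hr
  nlinarith

end CarA
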