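import Mathlib
import Pool.Agent.CarA.RelA
import Pool.Agent.CarA.Triv

/-!
# CarA/Fe : the union of the big classes

`Fe F B ε = {x ∈ B | ε ≤ diam (class of x)}`, `B` compact and convex.

* `fe_closed`: `Fe` is compact: let `x_n → x`, `x_n ∈ Fe`; the class of `x_n` is compact and contains `y_n, z_n` with
  `dist y_n z_n ≥ ε` (`IsCompact.exists_…`: the diameter is attained, `ε > 0`); pass to a subsequence with limits `y, z`; by
  `rel_closed` `rel x y`, `rel x z`, `dist y z ≥ ε`.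
* `fe_null`: a.e. `z ∈ Fe` has `F z = 0`: `triv_ae` (a one-point class has diameter `0 < ε`).
-/

open MeasureTheory Complex Set Filter Topology Metric
open scoped ENNReal

namespace CarA

variable {X : Set ℂ} {F : ℂ → ℂ} {m : Measure ℂ} {B : Set ℂ}

/-- the union of the classes of diameter at least `ε` -/
def Fe (F : ℂ → ℂ) (B : Set ℂ) (ε : ℝ) : Set ℂ := {x | x ∈ B ∧ ε ≤ diam {y | rel F B x y}}

/-- `x` is in `Fe` iff its class contains two points at distance at least `ε` -/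
theorem fe_mem_iff (h : Dat X F m) (hB : Convex ℝ B) (hc : IsCompact B) {ε : ℝ}
    (x : ℂ) : x ∈ Fe F B ε ↔ x ∈ B ∧ ∃ y z, rel F B x y ∧ rel F B x z ∧ ε ≤ dist y z := by
  constructor
  · rintro ⟨hx, hd⟩
    refine ⟨hx, ?_⟩
    have hK : IsCompact {y | rel F B x y} := rel_compact h hB hc x
    have hne : ({y | rel F B x y} ×ˢ {y | rel F B x y}).Nonempty :=
      ⟨(x, x), rel_refl h hx, rel_refl h hx⟩
    obtain ⟨p, hp, hmax⟩ := (hK.prod hK).exists_isMaxOn hne
      (continuous_dist.continuousOn)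
    refine ⟨p.1, p.2, hp.1, hp.2, hd.trans ?_⟩
    refine diam_le_of_forall_dist_le dist_nonneg fun y hy z hz => ?_
    exact hmax (a := (y, z)) ⟨hy, hz⟩
  · rintro ⟨hx, y, z, hy, hz, hd⟩
    exact ⟨hx, hd.trans (dist_le_diam_of_mem (rel_compact h hB hc x).isBounded hy hz)⟩

theorem fe_compact (h : Dat X F m) (hB : Convex ℝ B) (hc : IsCompact B) {ε : ℝ} (hε : 0 < ε) :
    IsCompact (Fe F B ε) := by
  have _ := hε
  have hcl := rel_closed h hB hc
  set S : Set (ℂ × ℂ × ℂ) := {p | rel F B p.1 p.2.1 ∧ rel F B p.1 p.2.2 ∧ ε ≤ dist p.2.1 p.2.2}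
    with hS
  have hSc : IsClosed S := by
    refine IsClosed.inter ?_ (IsClosed.inter ?_ ?_)
    · exact hcl.preimage (f := fun p : ℂ × ℂ × ℂ => (p.1, p.2.1)) (by fun_prop)
    · exact hcl.preimage (f := fun p : ℂ × ℂ × ℂ => (p.1, p.2.2)) (by fun_prop)
    · exact isClosed_le (f := fun _ : ℂ × ℂ × ℂ => ε) (g := fun p : ℂ × ℂ × ℂ => dist p.2.1 p.2.2)
        continuous_const (by fun_prop)
  have hSB : S ⊆ B ×ˢ (B ×ˢ B) := by
    rintro p ⟨h1, h2, -⟩
    exact ⟨h1.1, h1.2.1, h2.2.1⟩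
  have hScomp : IsCompact S := (hc.prod (hc.prod hc)).of_isClosed_subset hSc hSB
  have himg : Fe F B ε = Prod.fst '' S := by
    ext x
    rw [fe_mem_iff h hB hc]
    constructor
    · rintro ⟨-, y, z, hy, hz, hd⟩
      exact ⟨(x, y, z), ⟨hy, hz, hd⟩, rfl⟩
    · rintro ⟨⟨x', y, z⟩, ⟨hy, hz, hd⟩, rfl⟩
      exact ⟨hy.1, y, z, hy, hz, hd⟩
  rw [himg]
  exact hScomp.image continuous_fst

theorem fe_null (h : Dat X F m) (B : Set ℂ) {ε : ℝ} (hε : 0 < ε) :
    ∀ᵐ z : ℂ, z ∈ Fe F B ε → F z = 0 := by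
  filter_upwards [triv_ae h B] with z hz hzF
  by_contra hne
  have hsub : {y | rel F B z y} ⊆ {z} := fun y hy => hz hne y hy.2.2
  have hd : diam {y | rel F B z y} = 0 :=
    diam_subsingleton (Set.subsingleton_singleton.anti hsub)
  have := hzF.2
  rw [hd] at this
  linarith

end CarA
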