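import Mathlib

/-!
# CarA/Null : the image of a null set of the integrand

`f ≥ 0` integrable on the line, `f = 0` a.e. on the compact set `Z`, `|u y₁ - u y₂| ≤ C ∫_{y₁}^{y₂} f` for `y₁ ≤ y₂` in `Z`.
Then `u '' Z` has measure zero.

Proof. Let `δ > 0`. `ρ = volume.withDensity f` is a finite measure with `ρ Z = 0`; by outer regularity
(`Set.exists_isOpen_lt_of_lt`) there is an open `V ⊇ Z` with `ρ V < δ`. Let `η > 0` be a Lebesgue number: every point at distance
`< η` from `Z` lies in `V` (`IsCompact.exists_thickening_subset_open`). Let `J_j = [jη/2, (j+1)η/2)`, `j ∈ ℤ`. If `J_j` meets `Z` then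
`J_j ⊆ V`, and `ediam (u '' (Z ∩ J_j)) ≤ C ρ(J_j)` (for `y₁ ≤ y₂` in `Z ∩ J_j`, `Icc y₁ y₂ ⊆ J_j`). So
`volume (u '' Z) ≤ ∑_j volume (u '' (Z ∩ J_j)) ≤ ∑_{j : J_j ∩ Z ≠ ∅} C ρ(J_j) ≤ C ρ(V) ≤ C δ`
(`Real.volume_le_diam`, countable subadditivity, the `J_j` are disjoint).
-/

open MeasureTheory Set Filter Topology Metric
open scoped ENNReal

namespace CarA

theorem image_null (f : ℝ → ℝ≥0∞) (hf : Measurable f) (hi : ∫⁻ y, f y ≠ ∞) (Z : Set ℝ)
    (hZ : IsCompact Z) (h0 : ∀ᵐ y : ℝ, y ∈ Z → f y = 0) (u : ℝ → ℝ) (C : ℝ≥0∞) (hC : C ≠ ∞)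
    (hu : ∀ y₁ ∈ Z, ∀ y₂ ∈ Z, y₁ ≤ y₂ → edist (u y₁) (u y₂) ≤ C * ∫⁻ y in Icc y₁ y₂, f y) :
    volume (u '' Z) = 0 := by
  have hρf : IsFiniteMeasure (volume.withDensity f) := isFiniteMeasure_withDensity hi
  have hρZ : (volume.withDensity f) Z = 0 := by
    rw [withDensity_apply _ hZ.isClosed.measurableSet, lintegral_eq_zero_iff hf,
      Filter.EventuallyEq, ae_restrict_iff' hZ.isClosed.measurableSet]
    exact h0
  -- the basic estimate
  have key : ∀ δ : ℝ≥0∞, 0 < δ → volume (u '' Z) ≤ C * δ := by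
    intro δ hδ
    obtain ⟨V, hZV, hV, hVδ⟩ := Z.exists_isOpen_lt_of_lt (μ := volume.withDensity f) δ
      (by rw [hρZ]; exact hδ)
    obtain ⟨η, hη, hthick⟩ := hZ.exists_thickening_subset_open hV hZV
    let p : ℝ := η / 2
    have hp : 0 < p := half_pos hη
    let J : ℤ → Set ℝ := fun j => Ico (j • p) ((j + 1) • p)
    have hJU : ⋃ j, J j = univ := iUnion_Ico_zsmul hp
    have hJd : Pairwise (Function.onFun Disjoint J) := pairwise_disjoint_Ico_zsmul p
    have hJm : ∀ j, MeasurableSet (J j) := fun j => measurableSet_Ico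
    have hcov : u '' Z = ⋃ j, u '' (Z ∩ J j) := by
      rw [← image_iUnion, ← inter_iUnion, hJU, inter_univ]
    have hj : ∀ j, volume (u '' (Z ∩ J j)) ≤ C * (volume.withDensity f) (V ∩ J j) := by
      intro j
      rcases eq_empty_or_nonempty (Z ∩ J j) with he | ⟨z, hz, hzJ⟩
      · rw [he]; simp
      · have hJV : J j ⊆ V := by
          intro y hy
          refine hthick (mem_thickening_iff.2 ⟨z, hz, ?_⟩)
          have e : ((j + 1) • p : ℝ) = j • p + p := by rw [add_smul, one_smul]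
          have h1 : j • p ≤ y ∧ y < j • p + p := ⟨hy.1, e ▸ hy.2⟩
          have h2 : j • p ≤ z ∧ z < j • p + p := ⟨hzJ.1, e ▸ hzJ.2⟩
          rw [Real.dist_eq, abs_lt]
          have hpη : p = η / 2 := rfl
          constructor <;> linarith
        rw [inter_eq_self_of_subset_right hJV]
        refine (Real.volume_le_diam _).trans (Metric.ediam_le ?_)
        have hle : ∀ y₁ ∈ Z ∩ J j, ∀ y₂ ∈ Z ∩ J j, y₁ ≤ y₂ →
            edist (u y₁) (u y₂) ≤ C * (volume.withDensity f) (J j) := by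
          intro y₁ h₁ y₂ h₂ h12
          refine (hu y₁ h₁.1 y₂ h₂.1 h12).trans (mul_le_mul' le_rfl ?_)
          rw [withDensity_apply _ (hJm j)]
          refine lintegral_mono_set fun y hy => ?_
          exact ⟨h₁.2.1.trans hy.1, hy.2.trans_lt h₂.2.2⟩
        rintro _ ⟨y₁, h₁, rfl⟩ _ ⟨y₂, h₂, rfl⟩
        rcases le_total y₁ y₂ with h | h
        · exact hle y₁ h₁ y₂ h₂ h
        · rw [edist_comm]
          exact hle y₂ h₂ y₁ h₁ h
    calc volume (u '' Z) = volume (⋃ j, u '' (Z ∩ J j)) := by rw [← hcov]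
      _ ≤ ∑' j, volume (u '' (Z ∩ J j)) := measure_iUnion_le _
      _ ≤ ∑' j, C * (volume.withDensity f) (V ∩ J j) := ENNReal.tsum_le_tsum hj
      _ = C * ∑' j, (volume.withDensity f) (V ∩ J j) := ENNReal.tsum_mul_left
      _ = C * (volume.withDensity f) (⋃ j, V ∩ J j) := by
          rw [measure_iUnion (fun i j hij => (hJd hij).mono inter_subset_right inter_subset_right)
            (fun j => hV.measurableSet.inter (hJm j))]
      _ = C * (volume.withDensity f) V := by rw [← inter_iUnion, hJU, inter_univ]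
      _ ≤ C * δ := mul_le_mul' le_rfl hVδ.le
  have htend : Tendsto (fun δ : ℝ≥0∞ => C * δ) (𝓝[>] 0) (𝓝 (C * 0)) :=
    (ENNReal.Tendsto.const_mul tendsto_id (Or.inr hC)).mono_left nhdsWithin_le_nhds
  rw [mul_zero] at htend
  have := ge_of_tendsto htend (eventually_nhdsWithin_of_forall fun δ hδ => key δ hδ)
  exact le_antisymm this zero_le

end CarA
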