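import Mathlib
import Pool.Agent.CarA.Cost

/-!
# CarA/Strip : the cost of a vertical segment, first bound

`g = 1 - χ`, `χ` from `strip` (file Bump): `g` vanishes on the open set `|re z - c| < t`, `y₁ - τ < im z < y₂ + τ`, which contains the
segment; off the closed rectangle `Q = {|re z - c| ≤ 2t, y₁ - 2τ ≤ im z ≤ y₂ + 2τ}` (open complement) `g = 1`, so `∇g = 0` and the
integrand of `val F g` vanishes; on `Q` it is at most `‖F‖ₑ (C/t + C/τ + 1)`.
-/

open MeasureTheory Complex Set Filter Topology Metric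
open scoped ENNReal

namespace CarA

theorem cost_strip : ∃ C : ℝ, 0 < C ∧ ∀ (F : ℂ → ℂ) (c y₁ y₂ t τ : ℝ), 0 < t → 0 < τ → y₁ ≤ y₂ →
    cost F ((fun y : ℝ => (c : ℂ) + y * I) '' Icc y₁ y₂) ≤
      ENNReal.ofReal (C / t + C / τ + 1) *
        ∫⁻ z in {z : ℂ | |z.re - c| ≤ 2 * t ∧ y₁ - 2 * τ ≤ z.im ∧ z.im ≤ y₂ + 2 * τ}, ‖F z‖ₑ := by
  obtain ⟨C, hC, hstrip⟩ := strip
  refine ⟨C, hC, ?_⟩
  intro F c y₁ y₂ t τ ht hτ hy
  obtain ⟨χ, hχ, hχ01, hχ1, hχ0, hχd⟩ := hstrip c y₁ y₂ t τ ht hτ hy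
  set Q : Set ℂ := {z : ℂ | |z.re - c| ≤ 2 * t ∧ y₁ - 2 * τ ≤ z.im ∧ z.im ≤ y₂ + 2 * τ} with hQ
  have hQc : IsClosed Q := by
    have h1 : IsClosed {z : ℂ | |z.re - c| ≤ 2 * t} :=
      isClosed_le (by fun_prop) continuous_const
    have h2 : IsClosed {z : ℂ | y₁ - 2 * τ ≤ z.im} :=
      isClosed_le continuous_const Complex.continuous_im
    have h3 : IsClosed {z : ℂ | z.im ≤ y₂ + 2 * τ} :=
      isClosed_le Complex.continuous_im continuous_const
    exact h1.inter (h2.inter h3)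
  have hQ0 : ∀ z, z ∉ Q → χ z = 0 := by
    intro z hz
    apply hχ0
    by_contra hcon
    push Not at hcon
    exact hz ⟨hcon.1.le, hcon.2.1.le, hcon.2.2.le⟩
  set g : ℂ → ℝ := fun z => 1 - χ z with hg
  have hgAdm : g ∈ Adm ((fun y : ℝ => (c : ℂ) + y * I) '' Icc y₁ y₂) := by
    refine ⟨⟨contDiff_const.sub hχ, fun z => ?_⟩, {z : ℂ | |z.re - c| < t ∧ y₁ - τ < z.im ∧
      z.im < y₂ + τ}, ?_, ?_, ?_⟩
    · have := hχ01 z
      constructor
      · show 0 ≤ 1 - χ z
        linarith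
      · show 1 - χ z ≤ 1
        linarith
    · have h1 : IsOpen {z : ℂ | |z.re - c| < t} := isOpen_lt (by fun_prop) continuous_const
      have h2 : IsOpen {z : ℂ | y₁ - τ < z.im} :=
        isOpen_lt continuous_const Complex.continuous_im
      have h3 : IsOpen {z : ℂ | z.im < y₂ + τ} :=
        isOpen_lt Complex.continuous_im continuous_const
      exact h1.inter (h2.inter h3)
    · rintro _ ⟨y, hy', rfl⟩
      have hre : ((c : ℂ) + y * I).re = c := by simp
      have him : ((c : ℂ) + y * I).im = y := by simp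
      refine ⟨?_, ?_, ?_⟩
      · show |((c : ℂ) + y * I).re - c| < t
        rw [hre, sub_self, abs_zero]
        exact ht
      · show y₁ - τ < ((c : ℂ) + y * I).im
        rw [him]
        linarith [hy'.1]
      · show ((c : ℂ) + y * I).im < y₂ + τ
        rw [him]
        linarith [hy'.2]
    · rintro z ⟨h1, h2, h3⟩
      show 1 - χ z = 0
      rw [hχ1 z h1.le h2.le h3.le, sub_self]
  have hK : 0 ≤ C / t + C / τ := by positivity
  have hpt : ∀ z, ‖F z‖ₑ * (‖fderiv ℝ g z‖ₑ + ENNReal.ofReal (1 - g z)) ≤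
      Q.indicator (fun z => ENNReal.ofReal (C / t + C / τ + 1) * ‖F z‖ₑ) z := by
    intro z
    by_cases hz : z ∈ Q
    · rw [indicator_of_mem hz, mul_comm]
      gcongr
      have hd : fderiv ℝ g z = - fderiv ℝ χ z := by
        have : g = fun z => (1 : ℝ) - χ z := rfl
        rw [this, fderiv_const_sub]
      rw [hd, enorm_neg, ENNReal.ofReal_add hK zero_le_one]
      refine add_le_add ?_ (ENNReal.ofReal_le_ofReal ?_)
      · rw [← ofReal_norm_eq_enorm]
        exact ENNReal.ofReal_le_ofReal (hχd z)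
      · show 1 - (1 - χ z) ≤ 1
        linarith [(hχ01 z).2]
    · rw [indicator_of_notMem hz]
      have hev : g =ᶠ[𝓝 z] fun _ => (1 : ℝ) := by
        filter_upwards [hQc.isOpen_compl.mem_nhds hz] with w hw
        show 1 - χ w = 1
        rw [hQ0 w hw, sub_zero]
      have hd : fderiv ℝ g z = 0 := by
        rw [hev.fderiv_eq, fderiv_fun_const]
        rfl
      have hgz : g z = 1 := hev.eq_of_nhds
      have hn : ‖(0 : ℂ →L[ℝ] ℝ)‖ₑ = 0 := by
        rw [← ofReal_norm_eq_enorm, norm_zero, ENNReal.ofReal_zero]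
      rw [hd, hgz, sub_self, ENNReal.ofReal_zero, hn, add_zero, mul_zero]
  calc cost F ((fun y : ℝ => (c : ℂ) + y * I) '' Icc y₁ y₂) ≤ val F g := cost_le_val F hgAdm
    _ ≤ ∫⁻ z, Q.indicator (fun z => ENNReal.ofReal (C / t + C / τ + 1) * ‖F z‖ₑ) z :=
        lintegral_mono hpt
    _ = ∫⁻ z in Q, ENNReal.ofReal (C / t + C / τ + 1) * ‖F z‖ₑ :=
        lintegral_indicator hQc.measurableSet _
    _ = ENNReal.ofReal (C / t + C / τ + 1) * ∫⁻ z in Q, ‖F z‖ₑ :=
        lintegral_const_mul' _ _ ENNReal.ofReal_ne_top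

end CarA
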