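import Mathlib
import Pool.Agent.CarA.Strip

/-!
# CarA/Seg : the cost of a vertical segment

* `seg_v`: let `f_q x = ∫⁻_{y ∈ [q₁,q₂]} ‖F(x + iy)‖ₑ` for rational `q₁ < q₂` (integrable in `x` by Tonelli;
  `Complex.volume_preserving_equiv_real_prod`). For a.e. `c`, `f_q(c) < ∞` and
  `(1/4t) ∫_{c-2t}^{c+2t} f_q → f_q(c)` for all rational `q` (Lebesgue differentiation on the line, countably many `q`). Fix such a `c` and
  `y₁ ≤ y₂`. For rational `q₁ < y₁`, `q₂ > y₂` and `τ > 0` with `q₁ ≤ y₁ - 2τ`, `y₂ + 2τ ≤ q₂`, `cost_strip` gives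
  `cost ≤ (C/t + C/τ + 1) ∫_{c-2t}^{c+2t} f_q → 4 C f_q(c)` as `t → 0`. So `cost ≤ 4C f_q(c)` for all such `q`, and
  `f_q(c) → ∫⁻_{[y₁,y₂]} ‖F(c + iy)‖ₑ` as `q₁ ↑ y₁`, `q₂ ↓ y₂` (continuity from above of the finite measure
  `‖F(c + i·)‖ₑ dy`; the sets `Icc q₁ q₂` decrease to `Icc y₁ y₂`).
-/

open MeasureTheory Complex Set Filter Topology Metric
open scoped ENNReal

namespace CarA

private theorem seg_meas {F : ℂ → ℂ} (hF : Measurable F) :
    Measurable fun p : ℝ × ℝ => ‖F ((p.1 : ℂ) + p.2 * I)‖ₑ := by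
  have h : Continuous fun p : ℝ × ℝ => ((p.1 : ℂ) + p.2 * I) := by fun_prop
  exact (hF.comp h.measurable).enorm

private theorem seg_tonelli {F : ℂ → ℂ} (hF : Measurable F) {s t : Set ℝ} (hs : MeasurableSet s)
    (ht : MeasurableSet t) :
    ∫⁻ z in {z : ℂ | z.re ∈ s ∧ z.im ∈ t}, ‖F z‖ₑ = ∫⁻ x in s, ∫⁻ y in t, ‖F ((x : ℂ) + y * I)‖ₑ := by
  have h1 := Complex.volume_preserving_equiv_real_prod.setLIntegral_comp_preimage (hs.prod ht)
    (seg_meas hF)
  have h2 : Complex.measurableEquivRealProd ⁻¹' (s ×ˢ t) = {z : ℂ | z.re ∈ s ∧ z.im ∈ t} := by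
    ext z
    simp [Complex.measurableEquivRealProd_apply]
  rw [h2] at h1
  have h3 : ∀ z : ℂ, ‖F (((Complex.measurableEquivRealProd z).1 : ℂ) + (Complex.measurableEquivRealProd z).2 * I)‖ₑ
      = ‖F z‖ₑ := by
    intro z
    rw [Complex.measurableEquivRealProd_apply]
    simp only
    rw [Complex.re_add_im]
  simp only [h3] at h1
  rw [h1, Measure.volume_eq_prod, ← Measure.prod_restrict,
    lintegral_prod _ (seg_meas hF).aemeasurable]

theorem seg_v : ∃ C : ℝ, 0 < C ∧ ∀ F : ℂ → ℂ, Measurable F → Integrable F →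
    ∀ᵐ c : ℝ, ∀ y₁ y₂ : ℝ, y₁ ≤ y₂ →
      cost F ((fun y : ℝ => (c : ℂ) + y * I) '' Icc y₁ y₂) ≤
        ENNReal.ofReal C * ∫⁻ y in Icc y₁ y₂, ‖F ((c : ℂ) + y * I)‖ₑ := by
  obtain ⟨C₀, hC₀, hstrip⟩ := cost_strip
  refine ⟨4 * C₀, by positivity, fun F hF hFi => ?_⟩
  have hfin : ∫⁻ z, ‖F z‖ₑ < ∞ := hFi.2
  -- the slice integrals
  set f : ℚ × ℚ → ℝ → ℝ≥0∞ := fun q x => ∫⁻ y in Icc (q.1 : ℝ) (q.2 : ℝ), ‖F ((x : ℂ) + y * I)‖ₑ with hf
  have hfm : ∀ q, Measurable (f q) := fun q => (seg_meas hF).lintegral_prod_right'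
  have hff : ∀ q, ∫⁻ x, f q x ≠ ∞ := by
    intro q
    have h := seg_tonelli hF MeasurableSet.univ (measurableSet_Icc (a := (q.1 : ℝ)) (b := (q.2 : ℝ)))
    rw [Measure.restrict_univ] at h
    show ∫⁻ x : ℝ, ∫⁻ y in Icc (q.1 : ℝ) (q.2 : ℝ), ‖F ((x : ℂ) + y * I)‖ₑ ≠ ∞
    rw [← h]
    exact ((setLIntegral_le_lintegral _ _).trans_lt hfin).ne
  have hae : ∀ᵐ c : ℝ, ∀ q : ℚ × ℚ, f q c < ∞ ∧
      Tendsto (fun r : ℝ => (∫⁻ x in closedBall c r, f q x) / volume (closedBall c r)) (𝓝[>] 0) (𝓝 (f q c)) := by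
    rw [ae_all_iff]
    intro q
    have h1 := ae_lt_top (hfm q) (hff q)
    have h2 := (Besicovitch.vitaliFamily (volume : Measure ℝ)).ae_tendsto_lintegral_div (hfm q).aemeasurable (hff q)
    filter_upwards [h1, h2] with c hc1 hc2
    exact ⟨hc1, hc2.comp (Besicovitch.tendsto_filterAt volume c)⟩
  filter_upwards [hae] with c hc y₁ y₂ hy
  -- the bound for rational intervals
  have key : ∀ q : ℚ × ℚ, (q.1 : ℝ) < y₁ → y₂ < (q.2 : ℝ) →
      cost F ((fun y : ℝ => (c : ℂ) + y * I) '' Icc y₁ y₂) ≤ ENNReal.ofReal (4 * C₀) * f q c := by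
    intro q hq1 hq2
    obtain ⟨hqfin, hqlim⟩ := hc q
    set τ : ℝ := min (y₁ - q.1) (q.2 - y₂) / 2 with hτ
    have hτ0 : 0 < τ := by
      have : 0 < min (y₁ - q.1) (q.2 - y₂) := lt_min (by linarith) (by linarith)
      positivity
    have hτ1 : 2 * τ ≤ y₁ - q.1 := by
      rw [hτ]
      have := min_le_left (y₁ - (q.1 : ℝ)) (q.2 - y₂)
      linarith
    have hτ2 : 2 * τ ≤ q.2 - y₂ := by
      rw [hτ]
      have := min_le_right (y₁ - (q.1 : ℝ)) (q.2 - y₂)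
      linarith
    have hbd : ∀ r : ℝ, 0 < r → cost F ((fun y : ℝ => (c : ℂ) + y * I) '' Icc y₁ y₂) ≤
        ENNReal.ofReal (4 * C₀ + (C₀ / τ + 1) * (2 * r)) *
          ((∫⁻ x in closedBall c r, f q x) / volume (closedBall c r)) := by
      intro r hr
      have h1 := hstrip F c y₁ y₂ (r / 2) τ (by positivity) hτ0 hy
      refine h1.trans ?_
      have h2 : ∫⁻ z in {z : ℂ | |z.re - c| ≤ 2 * (r / 2) ∧ y₁ - 2 * τ ≤ z.im ∧ z.im ≤ y₂ + 2 * τ}, ‖F z‖ₑ ≤
          ∫⁻ x in closedBall c r, f q x := by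
        have h3 := seg_tonelli hF (measurableSet_closedBall (x := c) (ε := r))
          (measurableSet_Icc (a := (q.1 : ℝ)) (b := (q.2 : ℝ)))
        show _ ≤ ∫⁻ x in closedBall c r, ∫⁻ y in Icc (q.1 : ℝ) (q.2 : ℝ), ‖F ((x : ℂ) + y * I)‖ₑ
        rw [← h3]
        apply lintegral_mono_set
        rintro z ⟨hz1, hz2, hz3⟩
        refine ⟨?_, ?_, ?_⟩
        · rw [mem_closedBall, Real.dist_eq]
          linarith
        · linarith
        · linarith
      have hvol : volume (closedBall c r) = ENNReal.ofReal (2 * r) := Real.volume_closedBall c r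
      have hv0 : volume (closedBall c r) ≠ 0 := by
        rw [hvol]
        simp only [ne_eq, ENNReal.ofReal_eq_zero, not_le]
        positivity
      have hvt : volume (closedBall c r) ≠ ∞ := by
        rw [hvol]
        exact ENNReal.ofReal_ne_top
      have h4 : ENNReal.ofReal (C₀ / (r / 2) + C₀ / τ + 1) * volume (closedBall c r) =
          ENNReal.ofReal (4 * C₀ + (C₀ / τ + 1) * (2 * r)) := by
        rw [hvol, ← ENNReal.ofReal_mul (by positivity)]
        congr 1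
        field_simp
        ring
      rw [← h4, mul_assoc, ENNReal.mul_div_cancel hv0 hvt]
      exact mul_le_mul_right h2 _
    have hlim : Tendsto (fun r : ℝ => ENNReal.ofReal (4 * C₀ + (C₀ / τ + 1) * (2 * r)) *
        ((∫⁻ x in closedBall c r, f q x) / volume (closedBall c r))) (𝓝[>] 0)
        (𝓝 (ENNReal.ofReal (4 * C₀) * f q c)) := by
      apply ENNReal.Tendsto.mul
      · apply ENNReal.tendsto_ofReal
        have : Tendsto (fun r : ℝ => 4 * C₀ + (C₀ / τ + 1) * (2 * r)) (𝓝 0) (𝓝 (4 * C₀ + (C₀ / τ + 1) * (2 * 0))) := by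
          apply Continuous.tendsto
          fun_prop
        rw [mul_zero, mul_zero, add_zero] at this
        exact this.mono_left nhdsWithin_le_nhds
      · right
        exact hqfin.ne
      · exact hqlim
      · right
        exact ENNReal.ofReal_ne_top
    refine ge_of_tendsto hlim ?_
    filter_upwards [self_mem_nhdsWithin] with r hr
    exact hbd r hr
  -- the limit
  set ν : Measure ℝ := (volume : Measure ℝ).withDensity fun y => ‖F ((c : ℂ) + y * I)‖ₑ with hν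
  have hslice : Measurable fun y : ℝ => ‖F ((c : ℂ) + y * I)‖ₑ :=
    (seg_meas hF).comp (measurable_const.prodMk measurable_id)
  have hνI : ∀ a b : ℝ, ν (Icc a b) = ∫⁻ y in Icc a b, ‖F ((c : ℂ) + y * I)‖ₑ := fun a b => by
    rw [hν, withDensity_apply _ measurableSet_Icc]
  set s : ℕ → Set ℝ := fun n => Icc (y₁ - 1 / ((n : ℝ) + 1)) (y₂ + 1 / ((n : ℝ) + 1)) with hs
  have hsanti : Antitone s := by
    intro m n hmn
    have h1 : (1 : ℝ) / ((n : ℝ) + 1) ≤ 1 / ((m : ℝ) + 1) := by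
      apply one_div_le_one_div_of_le (by positivity)
      have : (m : ℝ) ≤ n := by exact_mod_cast hmn
      linarith
    exact Icc_subset_Icc (by linarith) (by linarith)
  have hInter : ⋂ n, s n = Icc y₁ y₂ := by
    ext y
    simp only [hs, mem_iInter, mem_Icc]
    constructor
    · intro h
      have ht : Tendsto (fun n : ℕ => (1 : ℝ) / ((n : ℝ) + 1)) atTop (𝓝 0) := tendsto_one_div_add_atTop_nhds_zero_nat
      constructor
      · have h1 : Tendsto (fun n : ℕ => y₁ - 1 / ((n : ℝ) + 1)) atTop (𝓝 (y₁ - 0)) := tendsto_const_nhds.sub ht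
        rw [sub_zero] at h1
        exact le_of_tendsto' h1 fun n => (h n).1
      · have h1 : Tendsto (fun n : ℕ => y₂ + 1 / ((n : ℝ) + 1)) atTop (𝓝 (y₂ + 0)) := tendsto_const_nhds.add ht
        rw [add_zero] at h1
        exact ge_of_tendsto' h1 fun n => (h n).2
    · rintro ⟨h1, h2⟩ n
      have : (0 : ℝ) < 1 / ((n : ℝ) + 1) := by positivity
      exact ⟨by linarith, by linarith⟩
  have hrat : ∀ n : ℕ, ∃ q : ℚ × ℚ, (q.1 : ℝ) < y₁ ∧ y₂ < (q.2 : ℝ) ∧ y₁ - 1 / ((n : ℝ) + 1) < q.1 ∧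
      (q.2 : ℝ) < y₂ + 1 / ((n : ℝ) + 1) := by
    intro n
    have hn : (0 : ℝ) < 1 / ((n : ℝ) + 1) := by positivity
    obtain ⟨a, ha1, ha2⟩ := exists_rat_btwn (show y₁ - 1 / ((n : ℝ) + 1) < y₁ by linarith)
    obtain ⟨b, hb1, hb2⟩ := exists_rat_btwn (show y₂ < y₂ + 1 / ((n : ℝ) + 1) by linarith)
    exact ⟨(a, b), ha2, hb1, ha1, hb2⟩
  have hle : ∀ n : ℕ, cost F ((fun y : ℝ => (c : ℂ) + y * I) '' Icc y₁ y₂) ≤
      ENNReal.ofReal (4 * C₀) * ν (s n) := by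
    intro n
    obtain ⟨q, h1, h2, h3, h4⟩ := hrat n
    refine (key q h1 h2).trans (mul_le_mul_right ?_ _)
    show ∫⁻ y in Icc (q.1 : ℝ) (q.2 : ℝ), ‖F ((c : ℂ) + y * I)‖ₑ ≤ _
    rw [← hνI]
    exact measure_mono (Icc_subset_Icc h3.le h4.le)
  have hνfin : ∃ n, ν (s n) ≠ ∞ := by
    obtain ⟨a, ha⟩ := exists_rat_lt (y₁ - 1)
    obtain ⟨b, hb⟩ := exists_rat_gt (y₂ + 1)
    refine ⟨0, ?_⟩
    have h1 : ν (s 0) ≤ f (a, b) c := by
      show _ ≤ ∫⁻ y in Icc (a : ℝ) (b : ℝ), ‖F ((c : ℂ) + y * I)‖ₑ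
      rw [← hνI]
      apply measure_mono
      apply Icc_subset_Icc
      · norm_num
        exact ha.le
      · norm_num
        exact hb.le
    exact (h1.trans_lt (hc (a, b)).1).ne
  have hlim := tendsto_measure_iInter_atTop (μ := ν) (s := s) (fun n => measurableSet_Icc.nullMeasurableSet)
    hsanti hνfin
  rw [hInter, hνI] at hlim
  have hlim2 : Tendsto (fun n => ENNReal.ofReal (4 * C₀) * ν (s n)) atTop
      (𝓝 (ENNReal.ofReal (4 * C₀) * ∫⁻ y in Icc y₁ y₂, ‖F ((c : ℂ) + y * I)‖ₑ)) :=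
    ENNReal.Tendsto.const_mul hlim (Or.inr ENNReal.ofReal_ne_top)
  exact ge_of_tendsto' hlim2 hle

end CarA
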