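import Mathlib
import Pool.Agent.CarA.Seg

/-!
# CarA/SegH : the cost of a horizontal segment, by reflection

Let `σ : ℂ → ℂ`, `σ (x + iy) = y + ix` (a real-linear isometry, measure preserving, `σ ∘ σ = id`).
* `cost_refl`: `cost F (σ '' E) ≤ cost (F ∘ σ) E`: for `g ∈ Adm E` the function `g ∘ σ` is in `Adm (σ '' E)`,
  `‖fderiv (g ∘ σ) z‖ ≤ ‖fderiv g (σ z)‖`, and `∫⁻ ‖F z‖ₑ(…)(σ z) dz = ∫⁻ ‖F (σ z)‖ₑ (…)(z) dz`
  (`MeasurePreserving.lintegral_comp`; `σ` as a `LinearIsometryEquiv` over `ℝ` is volume preserving: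
  `LinearIsometryEquiv.measurePreserving`).
* `seg_h`: `seg_v` for `F ∘ σ`.
-/

open MeasureTheory Complex Set Filter Topology Metric
open scoped ENNReal

namespace CarA

/-- the reflection at the diagonal -/
noncomputable def sw (z : ℂ) : ℂ := (z.im : ℂ) + z.re * I

theorem sw_re (z : ℂ) : (sw z).re = z.im := by
  simp [sw]

theorem sw_im (z : ℂ) : (sw z).im = z.re := by
  simp [sw]

theorem sw_sw (z : ℂ) : sw (sw z) = z := by
  apply Complex.ext
  · rw [sw_re, sw_im]
  · rw [sw_im, sw_re]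

/-- the reflection as an isometry -/
private noncomputable def swE : ℂ ≃ₗᵢ[ℝ] ℂ where
  toFun := sw
  invFun := sw
  map_add' := by
    intro a b
    apply Complex.ext
    · rw [add_re, sw_re, sw_re, sw_re, add_im]
    · rw [add_im, sw_im, sw_im, sw_im, add_re]
  map_smul' := by
    intro a b
    apply Complex.ext
    · simp [sw]
    · simp [sw]
  left_inv := sw_sw
  right_inv := sw_sw
  norm_map' := by
    intro z
    change ‖sw z‖ = ‖z‖
    rw [Complex.norm_def, Complex.norm_def, normSq_apply, normSq_apply, sw_re, sw_im, add_comm]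

private theorem swE_apply (z : ℂ) : swE z = sw z := rfl

theorem cost_refl (F : ℂ → ℂ) (E : Set ℂ) : cost F (sw '' E) ≤ cost (fun z => F (sw z)) E := by
  refine le_iInf₂ fun g hg => ?_
  obtain ⟨⟨hg1, hg2⟩, U, hU, hEU, hgU⟩ := hg
  have hcont : ContDiff ℝ 1 (fun z => swE z) := swE.toContinuousLinearEquiv.contDiff
  have hadm : (fun z => g (swE z)) ∈ Adm (sw '' E) := by
    refine ⟨⟨hg1.comp hcont, fun z => hg2 _⟩, (fun z => swE z) ⁻¹' U,
      hU.preimage swE.continuous, ?_, fun z hz => hgU _ hz⟩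
    rintro _ ⟨z, hz, rfl⟩
    change swE (sw z) ∈ U
    rw [swE_apply, sw_sw]
    exact hEU hz
  refine (cost_le_val F hadm).trans (le_of_eq ?_)
  have hmp : MeasurePreserving (fun z => swE z) volume volume := swE.measurePreserving
  have hme : MeasurableEmbedding (fun z => swE z) := swE.toHomeomorph.measurableEmbedding
  unfold val
  rw [← hmp.lintegral_comp_emb hme]
  refine lintegral_congr fun z => ?_

  have h2 : ∀ w, fderiv ℝ (fun z => g (swE z)) w =
      (fderiv ℝ g (swE w)).comp (swE.toContinuousLinearEquiv : ℂ →L[ℝ] ℂ) := by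
    intro w
    have h3 : HasFDerivAt g (fderiv ℝ g (swE w)) (swE w) :=
      (hg1.differentiable (by norm_num) _).hasFDerivAt
    have h4 : HasFDerivAt (fun z => swE z) (swE.toContinuousLinearEquiv : ℂ →L[ℝ] ℂ) w :=
      swE.toContinuousLinearEquiv.hasFDerivAt
    exact (h3.comp w h4).fderiv
  have h5 : ∀ w, ‖fderiv ℝ (fun z => g (swE z)) w‖ₑ = ‖fderiv ℝ g (swE w)‖ₑ := by
    intro w
    rw [h2, enorm_eq_nnnorm, enorm_eq_nnnorm]
    congr 1
    apply NNReal.eq
    exact ContinuousLinearMap.opNorm_comp_linearIsometryEquiv _ swE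
  rw [h5]
  simp only [swE_apply, sw_sw]

theorem seg_h : ∃ C : ℝ, 0 < C ∧ ∀ F : ℂ → ℂ, Measurable F → Integrable F →
    ∀ᵐ c : ℝ, ∀ y₁ y₂ : ℝ, y₁ ≤ y₂ →
      cost F ((fun y : ℝ => (y : ℂ) + c * I) '' Icc y₁ y₂) ≤
        ENNReal.ofReal C * ∫⁻ y in Icc y₁ y₂, ‖F ((y : ℂ) + c * I)‖ₑ := by
  obtain ⟨C, hC, h⟩ := seg_v
  refine ⟨C, hC, fun F hF hFi => ?_⟩
  have hmp : MeasurePreserving (fun z => swE z) volume volume := swE.measurePreserving
  have hme : MeasurableEmbedding (fun z => swE z) := swE.toHomeomorph.measurableEmbedding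
  have h1 := h (fun z => F (sw z)) (hF.comp hme.measurable)
    ((hmp.integrable_comp_emb hme).2 hFi)
  filter_upwards [h1] with c hc y₁ y₂ hy
  have h2 := hc y₁ y₂ hy
  have e1 : ∀ y : ℝ, sw ((c : ℂ) + y * I) = (y : ℂ) + c * I := by
    intro y
    apply Complex.ext <;> simp [sw]
  have e2 : (fun y : ℝ => (y : ℂ) + c * I) '' Icc y₁ y₂ =
      sw '' ((fun y : ℝ => (c : ℂ) + y * I) '' Icc y₁ y₂) := by
    rw [image_image]
    exact image_congr fun y _ => (e1 y).symm
  rw [e2]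
  refine (cost_refl F _).trans (h2.trans (le_of_eq ?_))
  simp only [e1]

end CarA
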