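import Mathlib
import Pool.Agent.CarA.Fe
import Pool.Agent.CarA.SegH
import Pool.Agent.CarA.Null

/-!
# CarA/Line : the big classes on almost every line

`Fe F B ε = {x ∈ B | ε ≤ diam (class of x)}`, `B` compact and convex.

* `line_v`: let `x₀ ∈ B`, `u y = (dd F B x₀ (c + iy)).toReal`. For a.e. `c`: `seg_v`; `y ↦ F(c + iy)` is integrable (Fubini) and for
  a.e. `y`: `c + iy ∈ Fe → F(c+iy) = 0` (Fubini for the null set of `fe_null`). Apply `image_null` with `Z = {y | c + iy ∈ Fe}` (compact),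
  `f y = ‖F(c+iy)‖ₑ`: for `y₁ ≤ y₂` in `Z` the segment lies in the convex set `B` and joins the two points, so
  `|u y₁ - u y₂| ≤ dd F B (c+iy₁) (c+iy₂) ≤ cost (segment) ≤ C ∫_{[y₁,y₂]} f` (`dd_tri`, `dd_ne_top`, `dd_le`).
* `line_h`: the same with `seg_h`.
-/

open MeasureTheory Complex Set Filter Topology Metric
open scoped ENNReal

namespace CarA

variable {X : Set ℂ} {F : ℂ → ℂ} {m : Measure ℂ} {B : Set ℂ}

/-- the change of the distance from `x₀` is at most the distance -/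
theorem edist_dd_le (h : Dat X F m) (hB : Convex ℝ B) {x₀ x y : ℂ} (hx₀ : x₀ ∈ B) (hx : x ∈ B)
    (hy : y ∈ B) : edist (dd F B x₀ x).toReal (dd F B x₀ y).toReal ≤ dd F B x y := by
  have f1 : dd F B x₀ x ≠ ∞ := dd_ne_top h hB hx₀ hx
  have f2 : dd F B x₀ y ≠ ∞ := dd_ne_top h hB hx₀ hy
  have f3 : dd F B x y ≠ ∞ := dd_ne_top h hB hx hy
  have t1 : dd F B x₀ y ≤ dd F B x₀ x + dd F B x y := dd_tri h.meas B x₀ x y
  have t2 : dd F B x₀ x ≤ dd F B x₀ y + dd F B x y := by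
    have := dd_tri h.meas B x₀ y x
    rwa [dd_symm F B y x] at this
  have s1 : (dd F B x₀ y).toReal ≤ (dd F B x₀ x).toReal + (dd F B x y).toReal := by
    rw [← ENNReal.toReal_add f1 f3]
    exact ENNReal.toReal_mono (ENNReal.add_ne_top.2 ⟨f1, f3⟩) t1
  have s2 : (dd F B x₀ x).toReal ≤ (dd F B x₀ y).toReal + (dd F B x y).toReal := by
    rw [← ENNReal.toReal_add f2 f3]
    exact ENNReal.toReal_mono (ENNReal.add_ne_top.2 ⟨f2, f3⟩) t2
  rw [edist_dist, Real.dist_eq]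
  refine (ENNReal.ofReal_le_ofReal (abs_sub_le_iff.2 ⟨?_, ?_⟩)).trans
    (ENNReal.ofReal_toReal_le (a := dd F B x y)) <;> linarith

/-- a segment on a line, as a continuum -/
theorem seg_conts (hB : Convex ℝ B) (a b : ℂ) {y₁ y₂ : ℝ} (hy : y₁ ≤ y₂)
    (h₁ : a + y₁ * b ∈ B) (h₂ : a + y₂ * b ∈ B) :
    (fun y : ℝ => a + (y : ℂ) * b) '' Icc y₁ y₂ ∈ Conts B (a + y₁ * b) (a + y₂ * b) := by
  have hcont : Continuous (fun y : ℝ => a + (y : ℂ) * b) := by fun_prop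
  refine ⟨isCompact_Icc.image hcont, isPreconnected_Icc.image _ hcont.continuousOn, ?_,
    ⟨y₁, left_mem_Icc.2 hy, rfl⟩, ⟨y₂, right_mem_Icc.2 hy, rfl⟩⟩
  rintro _ ⟨y, hyy, rfl⟩
  rw [← segment_eq_Icc hy] at hyy
  obtain ⟨s, t, hs, ht, hst, rfl⟩ := hyy
  have := hB h₁ h₂ hs ht hst
  have e : (fun y : ℝ => a + (y : ℂ) * b) (s • y₁ + t • y₂) =
      s • (a + (y₁ : ℂ) * b) + t • (a + (y₂ : ℂ) * b) := by
    have hst' : (s : ℂ) + (t : ℂ) = 1 := by exact_mod_cast hst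
    simp only [smul_eq_mul, Complex.real_smul]
    push_cast
    linear_combination (-a) * hst'
  rw [e]
  exact this

/-- the general statement for one line `a + ℝ b` -/
theorem line_core (h : Dat X F m) (hB : Convex ℝ B) (hc : IsCompact B) {ε : ℝ} (hε : 0 < ε)
    {x₀ : ℂ} (hx₀ : x₀ ∈ B) (a b : ℂ) (hb : ‖b‖ = 1) (C : ℝ≥0∞) (hC : C ≠ ∞)
    (hseg : ∀ y₁ y₂ : ℝ, y₁ ≤ y₂ → cost F ((fun y : ℝ => a + (y : ℂ) * b) '' Icc y₁ y₂) ≤
      C * ∫⁻ y in Icc y₁ y₂, ‖F (a + (y : ℂ) * b)‖ₑ)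
    (hfin : ∫⁻ y : ℝ, ‖F (a + (y : ℂ) * b)‖ₑ ≠ ∞)
    (h0 : ∀ᵐ y : ℝ, a + (y : ℂ) * b ∈ Fe F B ε → F (a + (y : ℂ) * b) = 0) :
    volume ((fun y : ℝ => (dd F B x₀ (a + (y : ℂ) * b)).toReal) ''
      {y : ℝ | a + (y : ℂ) * b ∈ Fe F B ε}) = 0 := by
  have hcont : Continuous (fun y : ℝ => a + (y : ℂ) * b) := by fun_prop
  have hFe : IsCompact (Fe F B ε) := fe_compact h hB hc hε
  have hZ : IsCompact {y : ℝ | a + (y : ℂ) * b ∈ Fe F B ε} := by
    refine Metric.isCompact_of_isClosed_isBounded (hFe.isClosed.preimage hcont) ?_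
    obtain ⟨R, hR⟩ := hFe.isBounded.exists_norm_le
    rw [isBounded_iff_forall_norm_le]
    refine ⟨R + ‖a‖, fun y hy => ?_⟩
    have h1 := hR _ hy
    have h2 : ‖(y : ℂ) * b‖ = ‖y‖ := by
      rw [norm_mul, hb, mul_one, Complex.norm_real]
    have h3 : ‖(y : ℂ) * b‖ ≤ ‖a + (y : ℂ) * b‖ + ‖a‖ := by
      have := norm_sub_le (a + (y : ℂ) * b) a
      simpa using this
    linarith
  have hm : Measurable (fun y : ℝ => ‖F (a + (y : ℂ) * b)‖ₑ) :=
    (h.meas.comp hcont.measurable).enorm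
  refine image_null (fun y : ℝ => ‖F (a + (y : ℂ) * b)‖ₑ) hm hfin _ hZ ?_ _ C hC ?_
  · filter_upwards [h0] with y hy hyZ
    rw [hy hyZ]
    simp
  · intro y₁ hy₁ y₂ hy₂ hle
    have b1 : a + (y₁ : ℂ) * b ∈ B := hy₁.1
    have b2 : a + (y₂ : ℂ) * b ∈ B := hy₂.1
    calc edist (dd F B x₀ (a + (y₁ : ℂ) * b)).toReal (dd F B x₀ (a + (y₂ : ℂ) * b)).toReal
        ≤ dd F B (a + (y₁ : ℂ) * b) (a + (y₂ : ℂ) * b) := edist_dd_le h hB hx₀ b1 b2
      _ ≤ cost F ((fun y : ℝ => a + (y : ℂ) * b) '' Icc y₁ y₂) :=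
          dd_le F (seg_conts hB a b hle b1 b2)
      _ ≤ C * ∫⁻ y in Icc y₁ y₂, ‖F (a + (y : ℂ) * b)‖ₑ := hseg y₁ y₂ hle

/-- almost everywhere in the plane is almost everywhere on almost every vertical line -/
theorem ae_vert {P : ℂ → Prop} (hP : ∀ᵐ z : ℂ, P z) :
    ∀ᵐ c : ℝ, ∀ᵐ y : ℝ, P ((c : ℂ) + y * I) := by
  have h1 : ∀ᵐ q : ℝ × ℝ, P (measurableEquivRealProd.symm q) :=
    (volume_preserving_equiv_real_prod.symm _).quasiMeasurePreserving.ae hP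
  rw [Measure.volume_eq_prod] at h1
  have h2 := Measure.ae_ae_of_ae_prod h1
  filter_upwards [h2] with c hc
  filter_upwards [hc] with y hy
  have e : measurableEquivRealProd.symm (c, y) = (c : ℂ) + y * I := by
    rw [measurableEquivRealProd_symm_apply]
    apply Complex.ext <;> simp
  rwa [e] at hy

theorem ae_horiz {P : ℂ → Prop} (hP : ∀ᵐ z : ℂ, P z) :
    ∀ᵐ c : ℝ, ∀ᵐ y : ℝ, P ((y : ℂ) + c * I) := by
  have h1 : ∀ᵐ q : ℝ × ℝ, P (measurableEquivRealProd.symm q) :=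
    (volume_preserving_equiv_real_prod.symm _).quasiMeasurePreserving.ae hP
  rw [Measure.volume_eq_prod] at h1
  have h1' : ∀ᵐ q : ℝ × ℝ ∂(volume.prod volume), P (measurableEquivRealProd.symm q.swap) :=
    (Measure.measurePreserving_swap (μ := (volume : Measure ℝ))
      (ν := (volume : Measure ℝ))).quasiMeasurePreserving.ae h1
  have h2 := Measure.ae_ae_of_ae_prod h1'
  filter_upwards [h2] with c hc
  filter_upwards [hc] with y hy
  have e : measurableEquivRealProd.symm (Prod.swap (c, y)) = (y : ℂ) + c * I := by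
    rw [measurableEquivRealProd_symm_apply]
    apply Complex.ext <;> simp
  rwa [e] at hy

theorem lint_ne_top {F : ℂ → ℂ} (hi : Integrable F) :
    ∫⁻ q : ℝ × ℝ, ‖F (measurableEquivRealProd.symm q)‖ₑ ∂(volume.prod volume) ≠ ∞ := by
  have h1 : ∫⁻ z, ‖F z‖ₑ ≠ ∞ := hi.2.ne
  rw [← Measure.volume_eq_prod,
    (volume_preserving_equiv_real_prod.symm measurableEquivRealProd).lintegral_comp_emb
      measurableEquivRealProd.symm.measurableEmbedding (fun z => ‖F z‖ₑ)]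
  exact h1

theorem fin_vert {F : ℂ → ℂ} (hm : Measurable F) (hi : Integrable F) :
    ∀ᵐ c : ℝ, ∫⁻ y : ℝ, ‖F ((c : ℂ) + y * I)‖ₑ ≠ ∞ := by
  have h1 := lint_ne_top hi
  have hmm : Measurable (fun q : ℝ × ℝ => ‖F (measurableEquivRealProd.symm q)‖ₑ) :=
    (hm.comp measurableEquivRealProd.symm.measurable).enorm
  rw [lintegral_prod _ hmm.aemeasurable] at h1
  have h2 := ae_lt_top hmm.lintegral_prod_right' h1
  filter_upwards [h2] with c hc
  have e : ∀ y : ℝ, measurableEquivRealProd.symm (c, y) = (c : ℂ) + y * I := fun y => by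
    rw [measurableEquivRealProd_symm_apply]
    apply Complex.ext <;> simp
  simp only [e] at hc
  exact hc.ne

theorem fin_horiz {F : ℂ → ℂ} (hm : Measurable F) (hi : Integrable F) :
    ∀ᵐ c : ℝ, ∫⁻ y : ℝ, ‖F ((y : ℂ) + c * I)‖ₑ ≠ ∞ := by
  have h1 := lint_ne_top hi
  have hmm : Measurable (fun q : ℝ × ℝ => ‖F (measurableEquivRealProd.symm q)‖ₑ) :=
    (hm.comp measurableEquivRealProd.symm.measurable).enorm
  rw [lintegral_prod_symm _ hmm.aemeasurable] at h1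
  have h2 := ae_lt_top hmm.lintegral_prod_left' h1
  filter_upwards [h2] with c hc
  have e : ∀ y : ℝ, measurableEquivRealProd.symm (y, c) = (y : ℂ) + c * I := fun y => by
    rw [measurableEquivRealProd_symm_apply]
    apply Complex.ext <;> simp
  simp only [e] at hc
  exact hc.ne

theorem line_v (h : Dat X F m) (hB : Convex ℝ B) (hc : IsCompact B) {ε : ℝ} (hε : 0 < ε) {x₀ : ℂ}
    (hx₀ : x₀ ∈ B) :
    ∀ᵐ c : ℝ, volume ((fun z => (dd F B x₀ z).toReal) '' {z | z ∈ Fe F B ε ∧ z.re = c}) = 0 := by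
  obtain ⟨C, hC, hseg⟩ := seg_v
  filter_upwards [hseg F h.meas h.int, fin_vert h.meas h.int, ae_vert (fe_null h B hε)]
    with c h1 h2 h3
  refine measure_mono_null ?_
    (line_core h hB hc hε hx₀ (c : ℂ) I (by simp) (ENNReal.ofReal C) ENNReal.ofReal_ne_top h1 h2 h3)
  rintro _ ⟨z, ⟨hz, hzc⟩, rfl⟩
  have e : z = (c : ℂ) + (z.im : ℂ) * I := by
    rw [← hzc]
    exact (Complex.re_add_im z).symm
  refine ⟨z.im, ?_, ?_⟩
  · show (c : ℂ) + (z.im : ℂ) * I ∈ Fe F B ε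
    rw [← e]
    exact hz
  · show (dd F B x₀ ((c : ℂ) + (z.im : ℂ) * I)).toReal = (dd F B x₀ z).toReal
    rw [← e]

theorem line_h (h : Dat X F m) (hB : Convex ℝ B) (hc : IsCompact B) {ε : ℝ} (hε : 0 < ε) {x₀ : ℂ}
    (hx₀ : x₀ ∈ B) :
    ∀ᵐ c : ℝ, volume ((fun z => (dd F B x₀ z).toReal) '' {z | z ∈ Fe F B ε ∧ z.im = c}) = 0 := by
  obtain ⟨C, hC, hseg⟩ := seg_h
  filter_upwards [hseg F h.meas h.int, fin_horiz h.meas h.int, ae_horiz (fe_null h B hε)]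
    with c h1 h2 h3
  have ee : ∀ y : ℝ, (y : ℂ) + c * I = (c : ℂ) * I + (y : ℂ) * 1 := fun y => by ring
  simp only [ee] at h1 h2 h3
  refine measure_mono_null ?_
    (line_core h hB hc hε hx₀ ((c : ℂ) * I) 1 (by simp) (ENNReal.ofReal C) ENNReal.ofReal_ne_top
      h1 h2 h3)
  rintro _ ⟨z, ⟨hz, hzc⟩, rfl⟩
  have e : z = (c : ℂ) * I + (z.re : ℂ) * 1 := by
    rw [← hzc, mul_one, add_comm]
    exact (Complex.re_add_im z).symm
  refine ⟨z.re, ?_, ?_⟩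
  · show (c : ℂ) * I + (z.re : ℂ) * 1 ∈ Fe F B ε
    rw [← e]
    exact hz
  · show (dd F B x₀ ((c : ℂ) * I + (z.re : ℂ) * 1)).toReal = (dd F B x₀ z).toReal
    rw [← e]

end CarA
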