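import Mathlib
import Pool.Agent.CarA.Line

/-!
# CarA/Comp : connected sets of points with big classes lie in one class

* `image_fe_null`: for `x₀ ∈ B` the function `u z = (dd F B x₀ z).toReal` maps `Fe F B ε` onto a null set. For `k ∈ ℤ` choose `c_k`, `c'_k` in
  the open interval `(kε/4, (k+1)ε/4)` which are good for `line_v`, `line_h` (a.e. point is good, the interval has positive
  length). Let `x ∈ Fe`; its class `K` is connected and contains `y, z` with `dist y z ≥ ε`, so `|re y - re z| ≥ ε/2` or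
  `|im y - im z| ≥ ε/2`; in the first case `re '' K` is an interval which contains some `c_k` (an interval of length `≥ ε/2` contains
  a whole `[kε/4, (k+1)ε/4]`), i.e. there is `x' ∈ K` with `re x' = c_k`; `x' ∈ Fe` (same class) and `u x' = u x`
  (`dd_tri`, `dd x x' = 0`). So `u '' Fe ⊆ ⋃_k u '' {z ∈ Fe | re z = c_k} ∪ ⋃_k u '' {z ∈ Fe | im z = c'_k}`, a null set.
* `comp`: let `A ⊆ Fe` be preconnected, `x, y ∈ A`. With `x₀ = x` the image `u '' A` is preconnected (`dd_cont`) and null, so it has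
  only one point (an interval `[s, t]` with `s < t` has positive measure); `u x = 0` (`dd_self`), hence `dd F B x y = 0` (`dd_ne_top`).
-/

open MeasureTheory Complex Set Filter Topology Metric
open scoped ENNReal

namespace CarA

variable {X : Set ℂ} {F : ℂ → ℂ} {m : Measure ℂ} {B : Set ℂ}

/-- an interval of length `≥ ε/2` contains a whole cell of the lattice `(ε/4) ℤ` -/
private theorem exists_cell {ε : ℝ} (hε : 0 < ε) {a b : ℝ} (hab : ε / 2 ≤ b - a) :
    ∃ k : ℤ, a ≤ k * (ε / 4) ∧ (k + 1) * (ε / 4) ≤ b := by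
  have h4 : 0 < ε / 4 := by positivity
  refine ⟨⌈a / (ε / 4)⌉, ?_, ?_⟩
  · exact (div_le_iff₀ h4).1 (Int.le_ceil _)
  · have h1 : (⌈a / (ε / 4)⌉ : ℝ) < a / (ε / 4) + 1 := Int.ceil_lt_add_one _
    have h2 : (⌈a / (ε / 4)⌉ : ℝ) * (ε / 4) < a + ε / 4 := by
      calc (⌈a / (ε / 4)⌉ : ℝ) * (ε / 4) < (a / (ε / 4) + 1) * (ε / 4) :=
            mul_lt_mul_of_pos_right h1 h4
        _ = a + ε / 4 := by field_simp
    nlinarith

/-- two points of a set of diameter `≥ ε` with a large difference of a coordinate -/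
private theorem exists_far {K : Set ℂ} {ε : ℝ} (hε : 0 < ε) (hK : ε ≤ diam K) :
    ∃ y ∈ K, ∃ z ∈ K, ε / 2 ≤ z.re - y.re ∨ ε / 2 ≤ z.im - y.im := by
  have h0 : ∃ y ∈ K, ∃ z ∈ K, 9 / 10 * ε < dist y z := by
    by_contra hcon
    push Not at hcon
    have := diam_le_of_forall_dist_le (by positivity) hcon
    linarith
  obtain ⟨y, hy, z, hz, hyz⟩ := h0
  rw [dist_eq_norm] at hyz
  have h1 : ε / 2 ≤ |(y - z).re| ∨ ε / 2 ≤ |(y - z).im| := by
    by_contra hcon
    push Not at hcon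
    have h2 : ‖y - z‖ ^ 2 = (y - z).re ^ 2 + (y - z).im ^ 2 := by
      rw [← normSq_eq_norm_sq, normSq_apply]; ring
    have h3 : (y - z).re ^ 2 ≤ (ε / 2) ^ 2 := by
      rw [← sq_abs]; exact pow_le_pow_left₀ (abs_nonneg _) hcon.1.le 2
    have h4 : (y - z).im ^ 2 ≤ (ε / 2) ^ 2 := by
      rw [← sq_abs]; exact pow_le_pow_left₀ (abs_nonneg _) hcon.2.le 2
    have h5 : (9 / 10 * ε) ^ 2 < ‖y - z‖ ^ 2 := pow_lt_pow_left₀ hyz (by positivity) two_ne_zero
    nlinarith
  rw [sub_re, sub_im] at h1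
  rcases h1 with h1 | h1
  · rcases le_abs.1 h1 with h | h
    · exact ⟨z, hz, y, hy, Or.inl h⟩
    · exact ⟨y, hy, z, hz, Or.inl (by linarith)⟩
  · rcases le_abs.1 h1 with h | h
    · exact ⟨z, hz, y, hy, Or.inr h⟩
    · exact ⟨y, hy, z, hz, Or.inr (by linarith)⟩

private theorem mem_fe_of_rel (h : Dat X F m) {ε : ℝ} {x x' : ℂ} (hx : x ∈ Fe F B ε)
    (hr : rel F B x x') : x' ∈ Fe F B ε := by
  refine ⟨hr.2.1, ?_⟩
  have : {y | rel F B x' y} = {y | rel F B x y} := by
    ext y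
    exact ⟨fun hy => rel_trans h hr hy, fun hy => rel_trans h (rel_symm hr) hy⟩
  rw [this]; exact hx.2

private theorem dd_congr (h : Dat X F m) {x₀ x x' : ℂ} (hr : rel F B x x') :
    dd F B x₀ x' = dd F B x₀ x := by
  apply le_antisymm
  · have := dd_tri h.meas B x₀ x x'
    rwa [hr.2.2, add_zero] at this
  · have := dd_tri h.meas B x₀ x' x
    rwa [(rel_symm hr).2.2, add_zero] at this

private theorem exists_good {p : ℝ → Prop} (hp : ∀ᵐ c : ℝ, p c) {ε : ℝ} (hε : 0 < ε) (k : ℤ) :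
    ∃ c : ℝ, (k * (ε / 4) < c ∧ c < (k + 1) * (ε / 4)) ∧ p c := by
  have hd : Dense {c | p c} := Measure.dense_of_ae hp
  obtain ⟨c, hc, hpc⟩ := hd.exists_mem_open (isOpen_Ioo (a := k * (ε / 4)) (b := (k + 1) * (ε / 4)))
    (nonempty_Ioo.2 (by nlinarith))
  exact ⟨c, hpc, hc⟩

theorem image_fe_null (h : Dat X F m) (hB : Convex ℝ B) (hc : IsCompact B) {ε : ℝ} (hε : 0 < ε)
    {x₀ : ℂ} (hx₀ : x₀ ∈ B) : volume ((fun z => (dd F B x₀ z).toReal) '' Fe F B ε) = 0 := by
  choose c hc1 hc2 using exists_good (line_v h hB hc hε hx₀) hε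
  choose d hd1 hd2 using exists_good (line_h h hB hc hε hx₀) hε
  refine measure_mono_null (t := (⋃ k : ℤ, (fun z => (dd F B x₀ z).toReal) ''
    {z | z ∈ Fe F B ε ∧ z.re = c k}) ∪ ⋃ k : ℤ, (fun z => (dd F B x₀ z).toReal) ''
    {z | z ∈ Fe F B ε ∧ z.im = d k}) ?_
    (measure_union_null (measure_iUnion_null hc2) (measure_iUnion_null hd2))
  rintro _ ⟨x, hx, rfl⟩
  have hK := rel_conn h hB hc hx.1
  obtain ⟨y, hy, z, hz, hyz⟩ := exists_far hε hx.2
  rcases hyz with hyz | hyz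
  · obtain ⟨k, hk1, hk2⟩ := exists_cell hε hyz
    have hI : IsPreconnected (re '' {y | rel F B x y}) :=
      hK.isPreconnected.image _ continuous_re.continuousOn
    have hmem : c k ∈ re '' {y | rel F B x y} :=
      hI.ordConnected.out (mem_image_of_mem _ hy) (mem_image_of_mem _ hz)
        ⟨hk1.trans (hc1 k).1.le, (hc1 k).2.le.trans hk2⟩
    obtain ⟨x', hx', hre⟩ := hmem
    refine Or.inl (mem_iUnion.2 ⟨k, x', ⟨mem_fe_of_rel h hx hx', hre⟩, ?_⟩)
    simp only [dd_congr h hx']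
  · obtain ⟨k, hk1, hk2⟩ := exists_cell hε hyz
    have hI : IsPreconnected (im '' {y | rel F B x y}) :=
      hK.isPreconnected.image _ continuous_im.continuousOn
    have hmem : d k ∈ im '' {y | rel F B x y} :=
      hI.ordConnected.out (mem_image_of_mem _ hy) (mem_image_of_mem _ hz)
        ⟨hk1.trans (hd1 k).1.le, (hd1 k).2.le.trans hk2⟩
    obtain ⟨x', hx', him⟩ := hmem
    refine Or.inr (mem_iUnion.2 ⟨k, x', ⟨mem_fe_of_rel h hx hx', him⟩, ?_⟩)
    simp only [dd_congr h hx']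

theorem comp (h : Dat X F m) (hB : Convex ℝ B) (hc : IsCompact B) {ε : ℝ} (hε : 0 < ε) {A : Set ℂ}
    (hA : A ⊆ Fe F B ε) (hAc : IsPreconnected A) {x y : ℂ} (hx : x ∈ A) (hy : y ∈ A) :
    rel F B x y := by
  have hxB : x ∈ B := (hA hx).1
  have hyB : y ∈ B := (hA hy).1
  refine ⟨hxB, hyB, ?_⟩
  have hcont : ContinuousOn (fun z => (dd F B x z).toReal) A :=
    (dd_cont h hB).comp (f := fun z : ℂ => (x, z)) (by fun_prop) fun z hz => ⟨hxB, (hA hz).1⟩
  have hI := hAc.image _ hcont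
  have h0 : (dd F B x x).toReal = 0 := by rw [dd_self h hxB]; rfl
  have hsub : Icc 0 (dd F B x y).toReal ⊆ (fun z => (dd F B x z).toReal) '' Fe F B ε := by
    refine Subset.trans ?_ (image_mono hA)
    have h1 : (fun z => (dd F B x z).toReal) x ∈ (fun z => (dd F B x z).toReal) '' A :=
      mem_image_of_mem _ hx
    have h2 : (fun z => (dd F B x z).toReal) y ∈ (fun z => (dd F B x z).toReal) '' A :=
      mem_image_of_mem _ hy
    have h3 := hI.ordConnected.out h1 h2
    simp only [h0] at h3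
    exact h3
  have hnull := measure_mono_null hsub (image_fe_null h hB hc hε hxB)
  rw [Real.volume_Icc, sub_zero, ENNReal.ofReal_eq_zero] at hnull
  have h4 : (dd F B x y).toReal = 0 := le_antisymm hnull ENNReal.toReal_nonneg
  rcases (ENNReal.toReal_eq_zero_iff _).1 h4 with h5 | h5
  · exact h5
  · exact absurd h5 (dd_ne_top h hB hxB hyB)

end CarA
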