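import Mathlib

/-!
# CarA/Dens : compactly supported `C^1` functions are dense in `C(X, ℂ)`

Proof. The functions `f : C(X, ℂ)` of the form `f = φ|X`, `φ : ℂ → ℂ` of class `C^1` (over `ℝ`) with compact
support form a star subalgebra (contains the constants: a smooth bump function which is `1` on a disc containing `X`,
`ContDiffBump`; sums, products, conjugates) which separates the points (bump times `z`), so it is dense by
Stone–Weierstrass (`ContinuousMap.starSubalgebra_topologicalClosure_eq_top_of_separatesPoints`). If `L` vanished on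
all of them it would vanish on the closure, so `L = 0`.
-/

open Set Metric Topology

namespace CarA

/-- the restrictions of compactly supported `C^1` functions -/
private def densS (X : Set ℂ) : Set C(X, ℂ) :=
  {f | ∃ φ : ℂ → ℂ, ContDiff ℝ 1 φ ∧ HasCompactSupport φ ∧ ∀ x : X, f x = φ x}

private lemma dens_bump {X : Set ℂ} (hX : IsCompact X) : ∃ χ : ℂ → ℂ, ContDiff ℝ 1 χ ∧
    HasCompactSupport χ ∧ ∀ x ∈ X, χ x = 1 := by
  obtain ⟨R, hR⟩ := hX.isBounded.subset_closedBall (0 : ℂ)
  let f : ContDiffBump (0 : ℂ) := ⟨max R 1, max R 1 + 1, by positivity, by linarith⟩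
  refine ⟨fun z => ((f z : ℝ) : ℂ), ?_, ?_, ?_⟩
  · exact Complex.ofRealCLM.contDiff.comp f.contDiff
  · exact f.hasCompactSupport.comp_left (g := fun r : ℝ => (r : ℂ)) (by simp)
  · intro x hx
    have h1 : x ∈ closedBall (0 : ℂ) f.rIn := closedBall_subset_closedBall (le_max_left _ _) (hR hx)
    show ((f x : ℝ) : ℂ) = 1
    rw [f.one_of_mem_closedBall h1, Complex.ofReal_one]

private lemma dens_mem {X : Set ℂ} (hX : IsCompact X) {ψ : ℂ → ℂ} (hψ : ContDiff ℝ 1 ψ) (f : C(X, ℂ))
    (hf : ∀ x : X, f x = ψ x) : f ∈ densS X := by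
  obtain ⟨χ, h1, h2, h3⟩ := dens_bump hX
  refine ⟨fun z => χ z * ψ z, h1.mul hψ, h2.mul_right, ?_⟩
  intro x
  show f x = χ x * ψ x
  rw [h3 x x.2, one_mul, hf x]

private lemma dens_closure {X : Set ℂ} (hX : IsCompact X) (f : C(X, ℂ)) : f ∈ closure (densS X) := by
  haveI : CompactSpace X := isCompact_iff_compactSpace.mp hX
  have hadd : ∀ a ∈ densS X, ∀ b ∈ densS X, a + b ∈ densS X := by
    rintro a ⟨φ, h1, h2, h3⟩ b ⟨ψ, h4, h5, h6⟩
    exact ⟨fun z => φ z + ψ z, h1.add h4, h2.add h5, fun x => by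
      rw [ContinuousMap.add_apply, h3, h6]⟩
  have hmul : ∀ a ∈ densS X, ∀ b ∈ densS X, a * b ∈ densS X := by
    rintro a ⟨φ, h1, h2, h3⟩ b ⟨ψ, h4, h5, h6⟩
    exact ⟨fun z => φ z * ψ z, h1.mul h4, h2.mul_right, fun x => by
      rw [ContinuousMap.mul_apply, h3, h6]⟩
  induction f using ContinuousMap.induction_on_of_compact with
  | const r => exact subset_closure (dens_mem hX (ψ := fun _ => r) contDiff_const _ (fun x => rfl))
  | id => exact subset_closure (dens_mem hX (ψ := fun z => z) contDiff_id _ (fun x => rfl))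
  | star_id =>
    exact subset_closure (dens_mem hX (ψ := fun z => (starRingEnd ℂ) z) Complex.conjCLE.contDiff _
      (fun x => rfl))
  | add f g hf hg => exact map_mem_closure₂ continuous_add hf hg hadd
  | mul f g hf hg => exact map_mem_closure₂ continuous_mul hf hg hmul
  | frequently f hf =>
    rw [← closure_closure (s := densS X)]
    exact mem_closure_iff_frequently.mpr hf

theorem exists_test {X : Set ℂ} (hX : IsCompact X) (L : C(X, ℂ) →L[ℂ] ℂ) (hL : L ≠ 0) :
    ∃ (φ : ℂ → ℂ) (hφ : ContDiff ℝ 1 φ), HasCompactSupport φ ∧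
      L ⟨X.domRestrict φ, continuousOn_iff_continuous_domRestrict.1 hφ.continuous.continuousOn⟩ ≠ 0 := by
  by_contra hcon
  push Not at hcon
  apply hL
  ext f
  have h1 : densS X ⊆ {f | L f = 0} := by
    rintro g ⟨φ, h1, h2, h3⟩
    have h4 := hcon φ h1 h2
    have h5 : g = ⟨X.domRestrict φ, continuousOn_iff_continuous_domRestrict.1
        h1.continuous.continuousOn⟩ := by
      ext x
      exact h3 x
    show L g = 0
    rw [h5]
    exact h4
  have h2 : IsClosed {f | L f = 0} := isClosed_eq L.continuous continuous_const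
  exact h2.closure_subset_iff.mpr h1 (dens_closure hX f)

end CarA
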