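import Mathlib

/-!
# CarA/VarA : the variation of a bounded functional on `C(K, ℂ)`

`K` compact, `L : C(K, ℂ) →L[ℂ] ℂ`. For `f : C(K, ℝ≥0)` let `lam L f = sup {|L g| : |g| ≤ f}`.

* `le_lam`: the family `‖L g‖₊`, `|g| ≤ f`, is bounded above by `‖L‖ ‖f‖` (`‖g‖ ≤ ‖f‖`), so `le_ciSup` applies.
* `lam_smul`: for `c ≠ 0` the map `g ↦ c g` is a bijection between the two families (or prove `≤` twice, with `c` and
  with `c⁻¹`); for `c = 0` only `g = 0`.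
* `lam_add`, `≥`: let `|g₁| ≤ f₁`, `|g₂| ≤ f₂`; choose unimodular `u_i` with `u_i L g_i = |L g_i|`; then
  `g = u₁ g₁ + u₂ g₂` satisfies `|g| ≤ f₁ + f₂` and `L g = |L g₁| + |L g₂|`. (`ciSup_add_ciSup_le`)
* `lam_add`, `≤`: let `|g| ≤ f₁ + f₂`. Put `g_i = f_i g/(f₁ + f₂)` where `f₁ + f₂ ≠ 0` and `0` elsewhere. `g_i` is
  continuous: at points with `f₁ + f₂ ≠ 0` clear, at points with `f₁ + f₂ = 0` because `|g_i| ≤ f_i → 0`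
  (`f_i(x) = 0` there). `|g_i| ≤ f_i`, `g₁ + g₂ = g`, so `|L g| ≤ lam f₁ + lam f₂`. (`ciSup_le`)
-/

open scoped NNReal

namespace CarA

variable {K : Type*} [TopologicalSpace K] [CompactSpace K]

/-- the variation -/
noncomputable def lam (L : C(K, ℂ) →L[ℂ] ℂ) (f : C(K, ℝ≥0)) : ℝ≥0 :=
  ⨆ g : {g : C(K, ℂ) // ∀ x, ‖g x‖₊ ≤ f x}, ‖L g.1‖₊

theorem le_lam (L : C(K, ℂ) →L[ℂ] ℂ) (f : C(K, ℝ≥0)) (g : C(K, ℂ)) (h : ∀ x, ‖g x‖₊ ≤ f x) :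
    ‖L g‖₊ ≤ lam L f := by
  sorry

theorem lam_smul (L : C(K, ℂ) →L[ℂ] ℂ) (c : ℝ≥0) (f : C(K, ℝ≥0)) : lam L (c • f) = c • lam L f := by
  sorry

theorem lam_add (L : C(K, ℂ) →L[ℂ] ℂ) (f₁ f₂ : C(K, ℝ≥0)) :
    lam L (f₁ + f₂) = lam L f₁ + lam L f₂ := by
  sorry

end CarA
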