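import Mathlib
import Pool.Agent.CarA.VarA

/-!
# CarA/VarB : a positive measure which dominates the functional

By `lam_add`, `lam_smul` the map `f ↦ lam L f.toContinuousMap` is an `ℝ≥0`-linear map `C_c(K, ℝ≥0) → ℝ≥0`; let
`m = NNRealRMK.rieszMeasure` of it (a regular measure; finite since `m univ = Λ 1`:
`NNRealRMK.lintegral_rieszMeasure` with `f = 1`; every function on a compact space is compactly supported). For
`f : C(K, ℂ)` apply `le_lam` with the function `‖f‖₊` : `‖L f‖₊ ≤ Λ ‖f‖₊ = ∫ ‖f‖`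
(`NNRealRMK.integral_rieszMeasure`).
-/

open MeasureTheory
open scoped NNReal

namespace CarA

open CompactlySupported in
/-- the variation as a linear functional -/
private noncomputable def varbLin {K : Type*} [TopologicalSpace K] [CompactSpace K]
    (L : C(K, ℂ) →L[ℂ] ℂ) : C_c(K, ℝ≥0) →ₗ[ℝ≥0] ℝ≥0 where
  toFun f := lam L f.toContinuousMap
  map_add' f g := lam_add L f.toContinuousMap g.toContinuousMap
  map_smul' c f := lam_smul L c f.toContinuousMap

theorem exists_dominating {K : Type*} [TopologicalSpace K] [CompactSpace K] [T2Space K]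
    [MeasurableSpace K] [BorelSpace K] (L : C(K, ℂ) →L[ℂ] ℂ) :
    ∃ m : Measure K, IsFiniteMeasure m ∧ m.Regular ∧ ∀ f : C(K, ℂ), ‖L f‖ ≤ ∫ x, ‖f x‖ ∂m := by
  refine ⟨NNRealRMK.rieszMeasure (varbLin L), ?_, inferInstance, ?_⟩
  · haveI : (NNRealRMK.rieszMeasure (varbLin L)).Regular := inferInstance
    infer_instance
  · intro f
    let F : C(K, ℝ≥0) := ⟨fun x => ‖f x‖₊, f.continuous.nnnorm⟩
    have h1 : ‖L f‖₊ ≤ lam L F := le_lam L F f (fun x => le_rfl)
    have h2 := NNRealRMK.integral_rieszMeasure (varbLin L)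
      (CompactlySupportedContinuousMap.continuousMapEquiv F)
    have h3 : ((varbLin L) (CompactlySupportedContinuousMap.continuousMapEquiv F) : ℝ) =
        (lam L F : ℝ) := rfl
    rw [h3] at h2
    have h4 : ∫ x, ‖f x‖ ∂(NNRealRMK.rieszMeasure (varbLin L)) = (lam L F : ℝ) := h2
    rw [h4]
    exact_mod_cast h1

end CarA
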