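import Mathlib

/-!
# CarA/VarC : the density (Riesz representation for `C(K, ℂ)`, via `L²`)

`m` finite regular Borel measure on the compact space `K`, `|L f| ≤ ∫ |f| dm`. Then there is a bounded measurable
`h` with `L f = ∫ f h dm`.

Proof. On the subspace `S` of `L²(m)` which consists of the classes of continuous functions (range of
`ContinuousMap.toLp`) the functional `f ↦ L f` is well defined (if `f = g` a.e. then `|L f - L g| ≤ ∫ |f - g| = 0`) and
bounded (`∫ |f| ≤ m(K)^{1/2} ‖f‖₂`). Extend it to `L²(m)` (Hahn–Banach `exists_extension_norm_eq`, or density) and use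
`InnerProductSpace.toDual`: there is `k ∈ L²(m)` with `L f = ⟪k, f⟫ = ∫ conj k · f dm` for all continuous `f`. Let `h` be a
measurable representative of `conj k`; `h` is integrable (`L² ⊆ L¹`, finite measure). This gives
`exists_density_int`.
* `exists_density`: put `m' = m.withDensity ‖h‖ₑ` and `h' = h/‖h‖` (`0` where `h = 0`): `∫ f h dm = ∫ f h' dm'`
  (`integral_withDensity_eq_integral_smul` with the `ℝ≥0`-valued function `‖h‖₊`).
-/

open MeasureTheory
open scoped NNReal ENNReal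

namespace CarA

variable {K : Type*} [TopologicalSpace K] [CompactSpace K] [T2Space K] [MeasurableSpace K]
  [BorelSpace K]

theorem exists_density_int (m : Measure K) [IsFiniteMeasure m] [m.Regular]
    (L : C(K, ℂ) →L[ℂ] ℂ) (hL : ∀ f : C(K, ℂ), ‖L f‖ ≤ ∫ x, ‖f x‖ ∂m) :
    ∃ h : K → ℂ, Measurable h ∧ Integrable h m ∧ ∀ f : C(K, ℂ), L f = ∫ x, f x * h x ∂m := by
  have hTae : ∀ f : C(K, ℂ), (ContinuousMap.toLp (E := ℂ) 2 m ℂ f : K → ℂ) =ᵐ[m] f :=
    fun f => ContinuousMap.coeFn_toLp m f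
  have hint : ∀ f : C(K, ℂ), AEStronglyMeasurable f m := fun f =>
    (Lp.aestronglyMeasurable (ContinuousMap.toLp (E := ℂ) 2 m ℂ f)).congr (hTae f)
  have hmem : ∀ f : C(K, ℂ), MemLp f 2 m := fun f =>
    (memLp_congr_ae (hTae f)).1 (Lp.memLp (ContinuousMap.toLp (E := ℂ) 2 m ℂ f))
  have hbd : ∀ f : C(K, ℂ), ‖L f‖ ≤
      ((m Set.univ) ^ (1 / (1 : ℝ≥0∞).toReal - 1 / (2 : ℝ≥0∞).toReal)).toReal *
        ‖ContinuousMap.toLp (E := ℂ) 2 m ℂ f‖ := by
    intro f
    refine (hL f).trans ?_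
    have h1 := eLpNorm_le_eLpNorm_mul_rpow_measure_univ (p := 1) (q := 2) (by norm_num) (hint f)
    have h2 : ∫ x, ‖f x‖ ∂m = (eLpNorm f 1 m).toReal := by
      rw [eLpNorm_one_eq_lintegral_enorm, integral_norm_eq_lintegral_enorm (hint f)]
    have h3 : ‖ContinuousMap.toLp (E := ℂ) 2 m ℂ f‖ = (eLpNorm f 2 m).toReal := by
      rw [Lp.norm_def, eLpNorm_congr_ae (hTae f)]
    have h4 : (m Set.univ) ^ (1 / (1 : ℝ≥0∞).toReal - 1 / (2 : ℝ≥0∞).toReal) ≠ ⊤ :=
      ENNReal.rpow_ne_top_of_nonneg (by norm_num) (measure_ne_top m _)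
    rw [h2, h3, mul_comm, ← ENNReal.toReal_mul]
    exact ENNReal.toReal_mono (ENNReal.mul_ne_top (hmem f).eLpNorm_ne_top h4) h1
  have hdense : DenseRange
      (ContinuousMap.toLp (E := ℂ) 2 m ℂ : C(K, ℂ) →L[ℂ] Lp ℂ 2 m).toLinearMap :=
    ContinuousMap.toLp_denseRange ℂ m ℂ (by norm_num)
  obtain ⟨g, hg⟩ : ∃ g : Lp ℂ 2 m →L[ℂ] ℂ, ∀ f : C(K, ℂ),
      g (ContinuousMap.toLp (E := ℂ) 2 m ℂ f) = L f :=
    ⟨L.toLinearMap.extendOfNorm
      (ContinuousMap.toLp (E := ℂ) 2 m ℂ : C(K, ℂ) →L[ℂ] Lp ℂ 2 m).toLinearMap,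
      fun f => LinearMap.extendOfNorm_eq hdense ⟨_, hbd⟩ f⟩
  obtain ⟨k, hk⟩ : ∃ k : Lp ℂ 2 m, ∀ u : Lp ℂ 2 m, g u = inner ℂ k u :=
    ⟨(InnerProductSpace.toDual ℂ (Lp ℂ 2 m)).symm g,
      fun u => (InnerProductSpace.toDual_symm_apply).symm⟩
  have hkm : Measurable (k : K → ℂ) := (Lp.stronglyMeasurable k).measurable
  refine ⟨fun x => (starRingEnd ℂ) (k x), ?_, ?_, fun f => ?_⟩
  · exact Complex.continuous_conj.measurable.comp hkm
  · have h1 : Integrable (k : K → ℂ) m := (Lp.memLp k).integrable (by norm_num)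
    refine h1.mono (Complex.continuous_conj.measurable.comp hkm).aestronglyMeasurable ?_
    exact Filter.Eventually.of_forall fun x => by simp
  · rw [← hg f, hk, L2.inner_def]
    refine integral_congr_ae ?_
    filter_upwards [hTae f] with x hx
    rw [hx, RCLike.inner_apply]

theorem exists_density (m : Measure K) [IsFiniteMeasure m] [m.Regular]
    (L : C(K, ℂ) →L[ℂ] ℂ) (hL : ∀ f : C(K, ℂ), ‖L f‖ ≤ ∫ x, ‖f x‖ ∂m) :
    ∃ (m' : Measure K) (h : K → ℂ), IsFiniteMeasure m' ∧ Measurable h ∧ (∀ x, ‖h x‖ ≤ 1) ∧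
      ∀ f : C(K, ℂ), L f = ∫ x, f x * h x ∂m' := by
  obtain ⟨h, hm, hi, hf⟩ := exists_density_int m L hL
  refine ⟨m.withDensity (fun x => (‖h x‖₊ : ℝ≥0∞)), fun x => h x / (‖h x‖ : ℂ), ?_, ?_, ?_, ?_⟩
  · exact isFiniteMeasure_withDensity hi.hasFiniteIntegral.ne
  · exact hm.div (Complex.measurable_ofReal.comp hm.norm)
  · intro x
    rw [norm_div, Complex.norm_real, norm_norm]
    exact div_self_le_one _
  · intro f
    have hm' : Measurable fun x => ‖h x‖₊ := measurable_nnnorm.comp hm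
    rw [hf f, integral_withDensity_eq_integral_smul hm']
    refine integral_congr_ae (Filter.Eventually.of_forall fun x => ?_)
    show f x * h x = (‖h x‖₊ : ℝ≥0) • (f x * (h x / (‖h x‖ : ℂ)))
    rw [NNReal.smul_def, coe_nnnorm, Complex.real_smul]
    by_cases hx : h x = 0
    · simp [hx]
    · have : (‖h x‖ : ℂ) ≠ 0 := by
        rw [Complex.ofReal_ne_zero]
        exact norm_ne_zero_iff.2 hx
      field_simp

end CarA
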