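import Mathlib
import Pool.Agent.CarA.VarB
import Pool.Agent.CarA.VarC

/-!
# CarA/Rep : representation of a functional on `C(X, ℂ)`, `X ⊆ ℂ` compact, by a measure on the plane

`exists_dominating` and `exists_density` for the compact space `X` give `m'` on `X` and `h'`. Let
`m = m'.map Subtype.val` and `h z = h' ⟨z, _⟩` for `z ∈ X`, `0` otherwise (measurable: `X` is measurable,
`MeasurableEmbedding.subtype_coe`). `m Xᶜ = 0`, and `∫ f h dm = ∫ f(x) h'(x) dm'(x)`
(`MeasurableEmbedding.integral_map`).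
-/

open MeasureTheory Set

namespace CarA

theorem exists_rep {X : Set ℂ} (hX : IsCompact X) (L : C(X, ℂ) →L[ℂ] ℂ) :
    ∃ (m : Measure ℂ) (h : ℂ → ℂ), IsFiniteMeasure m ∧ Measurable h ∧ (∀ z, ‖h z‖ ≤ 1) ∧
      m Xᶜ = 0 ∧ ∀ (f : ℂ → ℂ) (hf : ContinuousOn f X),
        L ⟨X.domRestrict f, continuousOn_iff_continuous_domRestrict.1 hf⟩ = ∫ z, f z * h z ∂m := by
  haveI : CompactSpace X := isCompact_iff_compactSpace.1 hX
  obtain ⟨m₀, hm₀, hreg, hb⟩ := exists_dominating L
  haveI := hm₀
  haveI := hreg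
  obtain ⟨m', h', hm', hmeas, hle, hrep⟩ := exists_density m₀ L hb
  haveI := hm'
  have hXm : MeasurableSet X := hX.measurableSet
  have hemb : MeasurableEmbedding (Subtype.val : X → ℂ) := MeasurableEmbedding.subtype_coe hXm
  have hval : ∀ x : X, Function.extend (Subtype.val : X → ℂ) h' 0 x = h' x := fun x =>
    Subtype.val_injective.extend_apply h' 0 x
  refine ⟨m'.map Subtype.val, Function.extend (Subtype.val : X → ℂ) h' 0, ?_, ?_, ?_, ?_, ?_⟩
  · exact Measure.isFiniteMeasure_map m' _
  · exact hemb.measurable_extend hmeas measurable_const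
  · intro z
    by_cases hz : z ∈ X
    · have h1 := hval ⟨z, hz⟩
      rw [show Function.extend (Subtype.val : X → ℂ) h' 0 z = h' ⟨z, hz⟩ from h1]
      exact hle _
    · rw [Function.extend_apply' _ _ _ (by
        rintro ⟨x, hx⟩
        exact hz (hx ▸ x.2))]
      simp
  · rw [hemb.map_apply]
    have h1 : (Subtype.val : X → ℂ) ⁻¹' Xᶜ = ∅ := by
      ext x
      simp
    rw [h1, measure_empty]
  · intro f hf
    rw [hrep, hemb.integral_map]
    refine integral_congr_ae (Filter.Eventually.of_forall fun x => ?_)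
    show f x * h' x = f x * Function.extend (Subtype.val : X → ℂ) h' 0 x
    rw [hval]

end CarA
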