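import Mathlib
import Pool.Agent.CarA.Defs
import Pool.Agent.CarA.Rep
import Pool.Agent.CarA.CTSmall
import Pool.Agent.CarA.Dens

/-!
# CarA/PreEx : from a functional to the data `Pre`

`L ≠ 0` a bounded functional on `C(X, ℂ)`, `X` compact, which vanishes on the functions `w ↦ 1/(w - z)`, `z ∉ X`.
Then `F = ctr m h` and the measure `π m` satisfy `Pre` (`m, h` from `exists_rep`).

* `off`: for `z ∉ X`, `F z = ∫ h(w)/(w - z) dm(w) = L(1/(w - z)) = 0` (the function `w ↦ 1/(w - z)` is continuous on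
  `X`, `exists_rep`).
* `int`: `F = 0` off `X ⊆ closedBall 0 R`, `ctr_ball`.
* `weak`: `ctr_dbar`: `|∫ F dbar φ| = π |∫ φ h dm| ≤ ∫ |φ| d(π m)`.
* `atom`: `ctr_atom`, `(π m){x} = π m{x}`.
* `ne`: if `F = 0` a.e. then `∫ φ h dm = 0` for all test functions by `ctr_dbar`, i.e. `L(φ|X) = 0`,
  contradiction to `exists_test`.
-/

open MeasureTheory Metric Set Filter Topology
open scoped ENNReal

namespace CarA

theorem exists_pre {X : Set ℂ} (hX : IsCompact X) (L : C(X, ℂ) →L[ℂ] ℂ) (hL : L ≠ 0)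
    (h0 : ∀ z, z ∉ X → ∀ f : C(X, ℂ), (∀ w : X, f w = 1 / ((w : ℂ) - z)) → L f = 0) :
    ∃ (F : ℂ → ℂ) (m : Measure ℂ), Pre X F m := by
  sorry

end CarA
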