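import Mathlib
import Pool.Agent.Carp.Rel
import Pool.Agent.CarA.PreEx
import Pool.Agent.CarA.AtB
import Pool.Agent.CarA.Comp

/-!
# CarA/Fin : the output of the analysis part

If `X` is a compact plane set and `L ≠ 0` is a bounded functional on `C(X, ℂ)` which vanishes on all functions
`w ↦ 1/(w - z)`, `z ∉ X` (i.e. `R(X) ≠ C(X)`), then there are a disc and a closed equivalence relation on it with
the properties used by the topological part, all of whose one-point classes in the open disc are points of `X`.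
-/

open MeasureTheory Complex Set Filter Topology Metric
open scoped ENNReal

namespace CarA

theorem preRel_of_dat {X : Set ℂ} {F : ℂ → ℂ} {m : Measure ℂ} (h : Dat X F m) {B : Set ℂ}
    (hB : Convex ℝ B) (hc : IsCompact B) : Pool.Agent.Carp.PreRel B (rel F B) where
  compact := hc
  refl _ hx := rel_refl h hx
  symm _ _ hxy := rel_symm hxy
  trans _ _ _ hxy hyz := rel_trans h hxy hyz
  mem _ _ hxy := ⟨hxy.1, hxy.2.1⟩
  closed := rel_closed h hB hc
  conn _ hx := rel_conn h hB hc hx
  comp _ hε _ hA hAc _ hx _ hy := comp h hB hc hε hA hAc hx hy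

theorem analysis {X : Set ℂ} (hX : IsCompact X) (L : C(X, ℂ) →L[ℂ] ℂ) (hL : L ≠ 0)
    (h0 : ∀ z, z ∉ X → ∀ f : C(X, ℂ), (∀ w : X, f w = 1 / ((w : ℂ) - z)) → L f = 0) :
    ∃ (p : ℂ) (R : ℝ) (r : ℂ → ℂ → Prop), 0 < R ∧
      Pool.Agent.Carp.PreRel (closedBall p R) r ∧
      (∀ x ∈ closedBall p R, diam {y | r x y} ≤ R / 100) ∧
      ∀ x ∈ ball p R, {y | r x y} = {x} → x ∈ X := by
  obtain ⟨F₀, m₀, h1⟩ := exists_pre hX L hL h0
  obtain ⟨F, m, h⟩ := exists_dat h1
  obtain ⟨p, R, hR, hd⟩ := good_disc h
  have hB := convex_closedBall p R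
  have hc := isCompact_closedBall p R
  refine ⟨p, R, rel F (closedBall p R), hR, preRel_of_dat h hB hc, ?_, ?_⟩
  · intro x _
    refine diam_le_of_forall_dist_le (by positivity) fun y hy z hz => ?_
    have h2 := rel_trans h (rel_symm hy) hz
    have h3 := hd y h2.1 z h2.2.1 h2.2.2
    linarith
  · intro x hx htriv
    by_contra hX'
    have hx' : x ∈ interior (closedBall p R) := ball_subset_interior_closedBall hx
    exact rel_off h hx' hX' htriv

end CarA
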