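import Mathlib
import Pool.Agent.Carp.PE
import Pool.Agent.CarA.Defs

/-!
# CarA/LocA : local versions of `exists_pair` and `exists_dat`

`exists_pair_of`: the removal of the atoms for a pair `F₀` which is dominated by a Cauchy transform.
`exists_dat_local`: if `∫ h g dm ≠ 0` for a test function `h` with support in the interior of the
compact set `V`, then there are data on `X ∩ V`: the Cauchy transform of `g m` is not zero almost
everywhere on the support of `h` (`cau_weak`); multiply it by a cut-off function.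
-/

namespace Pool.Agent.Carp

open Set Metric Topology MeasureTheory Filter

/-- the gradient of a nonnegative function vanishes where the function vanishes -/
private theorem le_fderiv_zero {Φ : ℂ → ℝ} (h01 : ∀ z, 0 ≤ Φ z ∧ Φ z ≤ 1) {z : ℂ} (hz : Φ z = 0) :
    fderiv ℝ Φ z = 0 := by
  apply IsLocalMin.fderiv_eq_zero
  apply Filter.Eventually.of_forall
  intro w
  rw [hz]
  exact (h01 w).1

private theorem le_grad {F : ℂ → ℂ} (hFm : Measurable F) (hF : Integrable F) {Φ : ℂ → ℝ}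
    {a : ℂ} {ρ C B : ℝ} (hρ : 0 < ρ) (hC : 0 < C) (hd : ContDiff ℝ 1 Φ)
    (h01 : ∀ z, 0 ≤ Φ z ∧ Φ z ≤ 1) (hout : ∀ z, z ∉ ball a ρ → Φ z = 0)
    (hgr : ∀ z, ‖fderiv ℝ Φ z‖ ≤ C / ρ) (hB : ρ⁻¹ * ∫ z in ball a ρ, ‖F z‖ ≤ B) :
    Integrable (fun z => ‖F z‖ * ‖fderiv ℝ Φ z‖) ∧
      ∫ z, ‖F z‖ * ‖fderiv ℝ Φ z‖ ≤ C * B := by
  have hcont : Continuous (fun z => ‖fderiv ℝ Φ z‖) := (hd.continuous_fderiv one_ne_zero).norm
  have hint : Integrable (fun z => ‖F z‖ * ‖fderiv ℝ Φ z‖) := by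
    refine Integrable.mono' (hF.norm.mul_const (C / ρ)) ?_ ?_
    · exact (hFm.norm.mul hcont.measurable).aestronglyMeasurable
    · refine Filter.Eventually.of_forall fun z => ?_
      rw [Real.norm_of_nonneg (by positivity)]
      exact mul_le_mul_of_nonneg_left (hgr z) (norm_nonneg _)
  refine ⟨hint, ?_⟩
  have h1 : ∫ z, ‖F z‖ * ‖fderiv ℝ Φ z‖ = ∫ z in ball a ρ, ‖F z‖ * ‖fderiv ℝ Φ z‖ := by
    symm
    apply setIntegral_eq_integral_of_forall_compl_eq_zero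
    intro z hz
    rw [le_fderiv_zero h01 (hout z hz), norm_zero, mul_zero]
  rw [h1]
  have h2 : ∫ z in ball a ρ, ‖F z‖ * ‖fderiv ℝ Φ z‖ ≤ ∫ z in ball a ρ, ‖F z‖ * (C / ρ) := by
    apply setIntegral_mono hint.integrableOn (hF.norm.mul_const (C / ρ)).integrableOn
    intro z
    exact mul_le_mul_of_nonneg_left (hgr z) (norm_nonneg _)
  refine h2.trans ?_
  rw [integral_mul_const]
  have h3 : (∫ z in ball a ρ, ‖F z‖) * (C / ρ) = C * (ρ⁻¹ * ∫ z in ball a ρ, ‖F z‖) := by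
    rw [div_eq_mul_inv]; ring
  rw [h3]
  exact mul_le_mul_of_nonneg_left hB hC.le

private theorem le_mass {F : ℂ → ℂ} (hF : Integrable F) {Φ : ℂ → ℝ}
    {a : ℂ} {ρ B : ℝ} (hd : ContDiff ℝ 1 Φ)
    (h01 : ∀ z, 0 ≤ Φ z ∧ Φ z ≤ 1) (hout : ∀ z, z ∉ ball a ρ → Φ z = 0)
    (hB : ∫ z in ball a ρ, ‖F z‖ ≤ B) :
    0 ≤ ∫ z, ‖F z‖ * Φ z ∧ ∫ z, ‖F z‖ * Φ z ≤ B := by
  have hint : Integrable (fun z => ‖F z‖ * Φ z) := by
    refine Integrable.mono' hF.norm ?_ ?_
    · exact hF.norm.aestronglyMeasurable.mul hd.continuous.aestronglyMeasurable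
    · refine Filter.Eventually.of_forall fun z => ?_
      rw [Real.norm_of_nonneg (mul_nonneg (norm_nonneg _) (h01 z).1)]
      exact mul_le_of_le_one_right (norm_nonneg _) (h01 z).2
  refine ⟨integral_nonneg fun z => mul_nonneg (norm_nonneg _) (h01 z).1, ?_⟩
  have h1 : ∫ z, ‖F z‖ * Φ z = ∫ z in ball a ρ, ‖F z‖ * Φ z := by
    symm
    apply setIntegral_eq_integral_of_forall_compl_eq_zero
    intro z hz
    rw [hout z hz, mul_zero]
  rw [h1]
  refine le_trans ?_ hB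
  apply setIntegral_mono hint.integrableOn hF.norm.integrableOn
  intro z
  exact mul_le_of_le_one_right (norm_nonneg _) (h01 z).2

private theorem le_atoms_summable {m : Measure ℂ} {g : ℂ → ℂ}
    (hg : Integrable g m) {a : ℕ → ℂ} (ha : Function.Injective a) :
    Summable (fun i => ∫ w in {a i}, ‖g w‖ ∂m) := by
  have h := hasSum_integral_iUnion (μ := m) (f := fun w => ‖g w‖) (s := fun i : ℕ => ({a i} : Set ℂ))
    (fun i => measurableSet_singleton _) ?_ hg.norm.integrableOn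
  · exact h.summable
  · intro i j hij
    rw [Function.onFun, disjoint_singleton]
    exact fun h => hij (ha h)

private theorem le_choose {F : ℂ → ℂ} {x : ℂ} {M ε δ : ℝ} (hM : 0 ≤ M) (hε : 0 < ε) (hδ : 0 < δ)
    (h : ∀ᶠ ρ : ℝ in 𝓝[>] 0, ρ⁻¹ * ∫ z in ball x ρ, ‖F z‖ ≤ M + ε) :
    ∃ ρ : ℝ, 0 < ρ ∧ (ρ⁻¹ * ∫ z in ball x ρ, ‖F z‖ ≤ M + ε) ∧ ∫ z in ball x ρ, ‖F z‖ ≤ δ := by
  have hp : 0 < δ / (M + ε) := by positivity
  have h2 : ∀ᶠ ρ : ℝ in 𝓝[>] 0, ρ < δ / (M + ε) :=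
    mem_nhdsWithin_of_mem_nhds (Iio_mem_nhds hp)
  have h3 : ∀ᶠ ρ : ℝ in 𝓝[>] 0, 0 < ρ := self_mem_nhdsWithin
  obtain ⟨ρ, h4, h5, h6⟩ := (h.and (h2.and h3)).exists
  refine ⟨ρ, h6, h4, ?_⟩
  rw [inv_mul_le_iff₀ h6] at h4
  refine h4.trans ?_
  rw [lt_div_iff₀ (by positivity)] at h5
  exact h5.le

private theorem le_mu_zero {m : Measure ℂ} {g : ℂ → ℂ} {x : ℂ}
    (h : m.withDensity (fun w => ‖g w‖ₑ) {x} = 0) : ∫ w in {x}, ‖g w‖ ∂m = 0 := by
  rw [withDensity_apply _ (measurableSet_singleton x)] at h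
  rw [integral_singleton]
  rw [lintegral_singleton] at h
  rw [mul_eq_zero] at h
  rcases h with h | h
  · have : g x = 0 := by simpa using h
    simp [this]
  · simp [Measure.real, h]

theorem exists_pair_of (m : Measure ℂ) [IsFiniteMeasure m]
    (g : ℂ → ℂ) (hgm : Measurable g) (hg : Integrable g m) {F₀ : ℂ → ℂ} {m₀ : Measure ℂ}
    (hP : Pair F₀ m₀) (hdom : ∀ z, ‖F₀ z‖ ≤ ‖cau m g z‖) (hn : ¬ F₀ =ᵐ[volume] 0) :
    ∃ (F : ℂ → ℂ) (m1 : Measure ℂ), Pair F m1 ∧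
      (∀ x, Tendsto (fun ρ : ℝ => ρ⁻¹ * ∫ z in ball x ρ, ‖F z‖) (𝓝[>] 0) (𝓝 0)) ∧
      (∀ z, ‖F z‖ ≤ ‖F₀ z‖) ∧ ¬ F =ᵐ[volume] 0 := by
  have hfin := hP.fin
  have hpt : ∀ (x : ℂ) {ε : ℝ}, 0 < ε → ∀ᶠ ρ : ℝ in 𝓝[>] 0,
      ρ⁻¹ * ∫ z in ball x ρ, ‖F₀ z‖ ≤ 20 * (∫ w in {x}, ‖g w‖ ∂m) + ε := by
    intro x ε hε
    filter_upwards [cau_point (m := m) hgm hg x hε, self_mem_nhdsWithin] with ρ h1 h2
    have h2' : (0 : ℝ) < ρ := h2
    refine le_trans ?_ h1
    refine mul_le_mul_of_nonneg_left ?_ (by positivity)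
    exact setIntegral_mono hP.int.norm.integrableOn
      (cau_integrableOn hgm hg x h2').1.norm hdom
  have hfing : IsFiniteMeasure (m.withDensity (fun w => ‖g w‖ₑ)) :=
    isFiniteMeasure_withDensity hg.2.ne
  obtain ⟨a, hainj, ha⟩ := exists_atoms (m.withDensity (fun w => ‖g w‖ₑ))
  obtain ⟨C, hC, hb⟩ := exists_bump
  have hI : 0 < ∫ z, ‖F₀ z‖ := by
    rcases (integral_nonneg (fun z => norm_nonneg (F₀ z)) :
      0 ≤ ∫ z, ‖F₀ z‖).lt_or_eq with h | h
    · exact h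
    · exfalso
      apply hn
      have h1 := (integral_eq_zero_iff_of_nonneg (μ := (volume : Measure ℂ))
        (f := fun z => ‖F₀ z‖) (fun z => norm_nonneg _) hP.int.norm).1 h.symm
      filter_upwards [h1] with z hz'
      exact norm_eq_zero.1 hz'
  set I : ℝ := ∫ z, ‖F₀ z‖ with hIdef
  have hM : ∀ i, 0 ≤ 20 * ∫ w in {a i}, ‖g w‖ ∂m := fun i =>
    mul_nonneg (by norm_num) (integral_nonneg fun _ => norm_nonneg _)
  have hch : ∀ i : ℕ, ∃ ρ : ℝ, 0 < ρ ∧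
      (ρ⁻¹ * ∫ z in ball (a i) ρ, ‖F₀ z‖ ≤ 20 * (∫ w in {a i}, ‖g w‖ ∂m) + (1 / 2) ^ i) ∧
      ∫ z in ball (a i) ρ, ‖F₀ z‖ ≤ I / 4 * (1 / 2) ^ i := fun i =>
    le_choose (hM i) (by positivity) (by positivity) (hpt (a i) (by positivity))
  choose ρ hρ hρ1 hρ2 using hch
  have hΦ := fun i => hb (a i) (ρ i) (hρ i)
  choose Φ hd h01 hone hout hgr using hΦ
  have hgrad := fun i => le_grad hP.meas hP.int (hρ i) hC (hd i) (h01 i) (hout i) (hgr i) (hρ1 i)
  have hmass := fun i => le_mass hP.int (hd i) (h01 i) (hout i) (hρ2 i)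
  have hgeo : Summable (fun i : ℕ => ((1 : ℝ) / 2) ^ i) := summable_geometric_two
  have hs : Summable (fun i => ∫ z, ‖F₀ z‖ * ‖fderiv ℝ (Φ i) z‖) := by
    refine Summable.of_nonneg_of_le (fun i => integral_nonneg fun z => by positivity)
      (fun i => (hgrad i).2) ?_
    exact (((le_atoms_summable hg hainj).mul_left 20).add hgeo).mul_left C
  have hgeo2 : Summable (fun i : ℕ => I / 4 * ((1 : ℝ) / 2) ^ i) := hgeo.mul_left _
  have ht : Summable (fun i => ∫ z, ‖F₀ z‖ * Φ i z) :=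
    Summable.of_nonneg_of_le (fun i => (hmass i).1) (fun i => (hmass i).2) hgeo2
  have hlt : ∑' i, ∫ z, ‖F₀ z‖ * Φ i z < ∫ z, ‖F₀ z‖ := by
    have h1 : ∑' i, ∫ z, ‖F₀ z‖ * Φ i z ≤ ∑' i : ℕ, I / 4 * ((1 : ℝ) / 2) ^ i :=
      ht.tsum_le_tsum (fun i => (hmass i).2) hgeo2
    have h2 : ∑' i : ℕ, I / 4 * ((1 : ℝ) / 2) ^ i = I / 4 * 2 := by
      rw [tsum_mul_left, tsum_geometric_two]
    rw [h2] at h1
    linarith
  obtain ⟨F', m', hP', hle, hzero, hn'⟩ := pair_prod hP Φ hd h01 (fun i => (hgrad i).1) hs ht hlt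
  refine ⟨F', m', hP', ?_, hle, hn'⟩
  · intro x
    by_cases hx : ∃ i, a i = x
    · obtain ⟨i, rfl⟩ := hx
      apply tendsto_const_nhds.congr'
      have hlt4 : ∀ᶠ r : ℝ in 𝓝[>] 0, r < ρ i / 4 :=
        mem_nhdsWithin_of_mem_nhds (Iio_mem_nhds (by have := hρ i; positivity))
      filter_upwards [hlt4] with r hr
      have : ∫ z in ball (a i) r, ‖F' z‖ = 0 := by
        apply setIntegral_eq_zero_of_forall_eq_zero
        intro z hz'
        rw [hzero i z (hone i z (ball_subset_ball hr.le hz')), norm_zero]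
      rw [this, mul_zero]
    · have hmu : m.withDensity (fun w => ‖g w‖ₑ) {x} = 0 := by
        by_contra hcon
        exact hx (ha x hcon)
      have hg0 := le_mu_zero hmu
      rw [Metric.tendsto_nhds]
      intro ε hε
      have h1 := hpt x (half_pos hε)
      rw [hg0, mul_zero, zero_add] at h1
      have h3 : ∀ᶠ ρ : ℝ in 𝓝[>] 0, 0 < ρ := self_mem_nhdsWithin
      filter_upwards [h1, h3] with r hr hr0
      have h4 : ∫ z in ball x r, ‖F' z‖ ≤ ∫ z in ball x r, ‖F₀ z‖ :=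
        setIntegral_mono hP'.int.norm.integrableOn hP.int.norm.integrableOn hle
      have h5 : 0 ≤ ∫ z in ball x r, ‖F' z‖ := integral_nonneg fun _ => norm_nonneg _
      rw [Real.dist_eq, sub_zero, abs_of_nonneg (by positivity)]
      calc r⁻¹ * ∫ z in ball x r, ‖F' z‖ ≤ r⁻¹ * ∫ z in ball x r, ‖F₀ z‖ :=
            mul_le_mul_of_nonneg_left h4 (by positivity)
        _ ≤ ε / 2 := hr
        _ < ε := by linarith

/-- a cut-off of a pair -/
theorem pair_cut {F : ℂ → ℂ} {m : Measure ℂ} (h : Pair F m) {θ : ℂ → ℝ} (hθ : ContDiff ℝ 1 θ)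
    (hc : HasCompactSupport θ) (h01 : ∀ z, 0 ≤ θ z ∧ θ z ≤ 1) :
    ∃ m' : Measure ℂ, Pair (fun z => (θ z : ℂ) * F z) m' := by
  have hfin := h.fin
  have hcd : Continuous (fun z => ‖fderiv ℝ θ z‖) := (hθ.continuous_fderiv one_ne_zero).norm
  obtain ⟨C, hC⟩ := (hc.fderiv (𝕜 := ℝ)).exists_bound_of_continuous
    (hθ.continuous_fderiv one_ne_zero)
  have hint : Integrable (fun z => ‖F z‖ * ‖fderiv ℝ θ z‖) := by
    refine Integrable.mono' (h.int.norm.mul_const C) ?_ ?_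
    · exact (h.meas.norm.mul hcd.measurable).aestronglyMeasurable
    · refine Filter.Eventually.of_forall fun z => ?_
      rw [Real.norm_of_nonneg (by positivity)]
      exact mul_le_mul_of_nonneg_left (hC z) (norm_nonneg _)
  have hmeas : Measurable (fun z => ‖(‖F z‖ * ‖fderiv ℝ θ z‖ : ℝ)‖ₑ) :=
    (h.meas.norm.mul hcd.measurable).enorm
  have hfin2 : IsFiniteMeasure (volume.withDensity
      (fun z => ‖(‖F z‖ * ‖fderiv ℝ θ z‖ : ℝ)‖ₑ)) :=
    isFiniteMeasure_withDensity hint.2.ne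
  refine ⟨m + volume.withDensity (fun z => ‖(‖F z‖ * ‖fderiv ℝ θ z‖ : ℝ)‖ₑ), ?_, ?_, ?_, ?_⟩
  · exact (Complex.measurable_ofReal.comp hθ.continuous.measurable).mul h.meas
  · refine Integrable.mono' h.int.norm ?_ ?_
    · exact ((Complex.measurable_ofReal.comp hθ.continuous.measurable).mul
        h.meas).aestronglyMeasurable
    · refine Filter.Eventually.of_forall fun z => ?_
      rw [norm_mul, Complex.norm_real, Real.norm_of_nonneg (h01 z).1]
      exact mul_le_of_le_one_left (norm_nonneg _) (h01 z).2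
  · infer_instance
  · intro φ hφ hφc
    refine (h.mul hθ h01 hφ hφc).trans ?_
    have hi1 : Integrable (fun z => ‖φ z‖) m := PCAux.int_norm hφ.continuous hφc
    have hi2 : Integrable (fun z => ‖φ z‖)
        (volume.withDensity (fun z => ‖(‖F z‖ * ‖fderiv ℝ θ z‖ : ℝ)‖ₑ)) :=
      PCAux.int_norm hφ.continuous hφc
    rw [integral_add_measure hi1 hi2, mul_add]
    refine add_le_add le_rfl ?_
    rw [integral_withDensity_eq_integral_toReal_smul hmeas
      (Eventually.of_forall fun w => enorm_lt_top)]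
    have e1 : ∫ z, ‖F z‖ * ‖φ z‖ * ‖fderiv ℝ θ z‖ =
        ∫ z, (‖(‖F z‖ * ‖fderiv ℝ θ z‖ : ℝ)‖ₑ).toReal • ‖φ z‖ := by
      refine integral_congr_ae (Eventually.of_forall fun z => ?_)
      show ‖F z‖ * ‖φ z‖ * ‖fderiv ℝ θ z‖ = (‖(‖F z‖ * ‖fderiv ℝ θ z‖ : ℝ)‖ₑ).toReal • ‖φ z‖
      rw [toReal_enorm, smul_eq_mul, Real.norm_of_nonneg (by positivity)]
      ring
    rw [e1]
    have hnn : 0 ≤ ∫ z, (‖(‖F z‖ * ‖fderiv ℝ θ z‖ : ℝ)‖ₑ).toReal • ‖φ z‖ :=
      integral_nonneg fun z => by positivity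
    have hpi : (1 : ℝ) ≤ Real.pi := by linarith [Real.pi_gt_three]
    exact le_mul_of_one_le_left hnn hpi

/-- from a pair without point cost to the data -/
theorem dat_of_pair {X : Set ℂ} (hX : IsCompact X) {F : ℂ → ℂ} {m1 : Measure ℂ} (hP : Pair F m1)
    (hsm : ∀ x, Tendsto (fun ρ : ℝ => ρ⁻¹ * ∫ z in ball x ρ, ‖F z‖) (𝓝[>] 0) (𝓝 0))
    (hoff : ∀ z, z ∉ X → F z = 0) (hn : ¬ F =ᵐ[volume] 0) :
    CarA.Dat X F (ENNReal.ofReal Real.pi • m1) := by
  have hfin := hP.fin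
  have hpi : (ENNReal.ofReal Real.pi) ≠ ⊤ := ENNReal.ofReal_ne_top
  refine ⟨hX, ?_, hP.meas, hP.int, hoff, ?_, ?_, hn⟩
  · exact Measure.smul_finite m1 hpi
  · intro φ hφ hc
    rw [integral_smul_measure, ENNReal.toReal_ofReal Real.pi_pos.le, smul_eq_mul]
    exact hP.wi φ hφ hc
  · intro x
    have h := hsm x
    have h2 : Tendsto (fun ρ : ℝ => 2 * ρ) (𝓝[>] 0) (𝓝[>] 0) := by
      rw [tendsto_nhdsWithin_iff]
      constructor
      · have : Tendsto (fun ρ : ℝ => 2 * ρ) (𝓝 0) (𝓝 (2 * 0)) := by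
          exact (continuous_const.mul continuous_id).tendsto 0
        rw [mul_zero] at this
        exact this.mono_left nhdsWithin_le_nhds
      · filter_upwards [self_mem_nhdsWithin] with ρ hρ
        have : (0 : ℝ) < ρ := hρ
        show (0 : ℝ) < 2 * ρ
        linarith
    have h3 := (h.comp h2).const_mul 2
    rw [mul_zero] at h3
    refine squeeze_zero' ?_ ?_ h3
    · filter_upwards [self_mem_nhdsWithin] with ρ hρ
      have hρ' : (0 : ℝ) < ρ := hρ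
      exact div_nonneg (integral_nonneg fun _ => norm_nonneg _) hρ'.le
    · filter_upwards [self_mem_nhdsWithin] with ρ hρ
      have hρ' : (0 : ℝ) < ρ := hρ
      have h4 : ∫ z in closedBall x ρ, ‖F z‖ ≤ ∫ z in ball x (2 * ρ), ‖F z‖ := by
        apply setIntegral_mono_set hP.int.norm.integrableOn
        · exact Filter.Eventually.of_forall fun _ => norm_nonneg _
        · exact (closedBall_subset_ball (by linarith)).eventuallyLE
      show (∫ z in closedBall x ρ, ‖F z‖) / ρ ≤ 2 * ((2 * ρ)⁻¹ * ∫ z in ball x (2 * ρ), ‖F z‖)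
      have h5 : 2 * ((2 * ρ)⁻¹ * ∫ z in ball x (2 * ρ), ‖F z‖) =
          (∫ z in ball x (2 * ρ), ‖F z‖) / ρ := by
        field_simp
      rw [h5]
      gcongr

/-- a `C¹` cut-off function -/
theorem exists_cut {S V : Set ℂ} (hS : IsClosed S) (hV : IsCompact V) (h : S ⊆ interior V) :
    ∃ θ : ℂ → ℝ, ContDiff ℝ 1 θ ∧ HasCompactSupport θ ∧ (∀ z, 0 ≤ θ z ∧ θ z ≤ 1) ∧
      (∀ z ∈ S, θ z = 1) ∧ ∀ z, z ∉ V → θ z = 0 := by
  have hd : Disjoint (interior V)ᶜ S := by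
    rw [Set.disjoint_left]
    exact fun z hz hzS => hz (h hzS)
  obtain ⟨f, hf0, hf1, hf⟩ := exists_contMDiffMap_zero_one_of_isClosed (n := 1)
    (modelWithCornersSelf ℝ ℂ) isOpen_interior.isClosed_compl hS hd
  have h0 : ∀ z, z ∉ V → f z = 0 := fun z hz => hf0 fun hzi => hz (interior_subset hzi)
  refine ⟨f, contMDiff_iff_contDiff.1 f.contMDiff, ?_, fun z => hf z, fun z hz => hf1 hz, h0⟩
  exact HasCompactSupport.intro hV h0

theorem exists_dat_local {X : Set ℂ} (hX : IsCompact X) (m : Measure ℂ) [IsFiniteMeasure m]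
    (g : ℂ → ℂ) (hgm : Measurable g) (hg : Integrable g m)
    (h0 : ∀ z, z ∉ X → ∫ w, g w / (w - z) ∂m = 0) {V : Set ℂ} (hV : IsCompact V)
    {h : ℂ → ℂ} (hh : ContDiff ℝ 1 h) (hhV : tsupport h ⊆ interior V)
    (hne : ∫ w, h w * g w ∂m ≠ 0) :
    ∃ (F : ℂ → ℂ) (m1 : Measure ℂ), CarA.Dat (X ∩ V) F m1 := by
  have hgne : ¬ g =ᵐ[m] 0 := by
    intro hg0
    apply hne
    rw [← integral_zero ℂ ℂ (μ := m)]
    refine integral_congr_ae ?_
    filter_upwards [hg0] with w hw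
    rw [hw]
    simp
  have hhc : HasCompactSupport h :=
    hV.of_isClosed_subset (isClosed_tsupport h) (hhV.trans interior_subset)
  obtain ⟨hP, hz, -⟩ := cau_pair hX m g hgm hg h0 hgne
  obtain ⟨θ, hθ, hθc, h01, hθ1, hθ0⟩ := exists_cut (isClosed_tsupport h) hV hhV
  obtain ⟨m', hP'⟩ := pair_cut hP hθ hθc h01
  have hdom : ∀ z, ‖(θ z : ℂ) * cau m g z‖ ≤ ‖cau m g z‖ := by
    intro z
    rw [norm_mul, Complex.norm_real, Real.norm_of_nonneg (h01 z).1]
    exact mul_le_of_le_one_left (norm_nonneg _) (h01 z).2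
  have hn : ¬ (fun z => (θ z : ℂ) * cau m g z) =ᵐ[volume] 0 := by
    intro hz0
    have h1 := cau_weak (m := m) hgm hg hh hhc
    have h2 : ∫ z, cau m g z * Pool.Lib.dbar h z = 0 := by
      rw [← integral_zero ℂ ℂ (μ := volume)]
      refine integral_congr_ae ?_
      filter_upwards [hz0] with z hz1
      by_cases hzs : z ∈ tsupport h
      · have h3 : (θ z : ℂ) * cau m g z = 0 := hz1
        rw [hθ1 z hzs] at h3
        have h4 : cau m g z = 0 := by simpa using h3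
        rw [h4, zero_mul]
      · have h3 : Pool.Lib.dbar h z = 0 := image_eq_zero_of_notMem_tsupport fun hz2 =>
          hzs (Pool.Lib.tsupport_dbar_subset h hz2)
        rw [h3, mul_zero]
    rw [h2] at h1
    rcases mul_eq_zero.1 h1.symm with h3 | h3
    · exact absurd h3 (by exact_mod_cast Real.pi_ne_zero)
    · exact hne h3
  obtain ⟨F, m1, hPF, hsm, hle, hnF⟩ := exists_pair_of m g hgm hg hP' hdom hn
  refine ⟨F, _, dat_of_pair (hX.inter hV) hPF hsm ?_ hnF⟩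
  intro z hzXV
  have h1 := hle z
  have h2 : (θ z : ℂ) * cau m g z = 0 := by
    by_cases hzV : z ∈ V
    · have : z ∉ X := fun hzX => hzXV ⟨hzX, hzV⟩
      rw [hz z this, mul_zero]
    · rw [hθ0 z hzV]
      simp
  rw [h2, norm_zero] at h1
  exact norm_le_zero_iff.1 h1

end Pool.Agent.Carp
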