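import Mathlib
import Pool.Agent.CarA.LocA
import Pool.Agent.Carp.SA

/-!
# CarA/Loc : `φ ∘ f ∈ A` if the range of `f` carries no data in an open set containing `supp φ`

`Y = range f`, `B = {ψ : C(Y, ℂ) | ψ ∘ f ∈ A}` as in `Carp/SB`. If `φ|Y ∉ B` there is a functional `L` on
`C(Y, ℂ)` which vanishes on `B` with `L φ ≠ 0`; approximate `φ` by a test function `h` and use
`exists_dat_local`.
-/

namespace Pool.Agent.Carp

open Set Metric Topology MeasureTheory Filter

/-- smooth approximation with support control -/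
theorem exists_smooth_near {φ : ℂ → ℂ} (hφ : Continuous φ) (hc : HasCompactSupport φ) {U : Set ℂ}
    (hU : IsOpen U) (hs : tsupport φ ⊆ U) {ε : ℝ} (hε : 0 < ε) :
    ∃ (h : ℂ → ℂ) (V : Set ℂ), ContDiff ℝ 1 h ∧ IsCompact V ∧ V ⊆ U ∧
      tsupport h ⊆ interior V ∧ ∀ z, ‖h z - φ z‖ ≤ ε := by
  have hSc : IsCompact (tsupport φ) := hc
  obtain ⟨δ, hδ, hδU⟩ := hSc.exists_cthickening_subset_open hU hs
  have huc : UniformContinuous φ := hc.uniformContinuous_of_continuous hφ
  obtain ⟨δ₁, hδ₁, h1⟩ := Metric.uniformContinuous_iff.mp huc ε hε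
  have hη : 0 < min (δ / 2) δ₁ := lt_min (half_pos hδ) hδ₁
  obtain ⟨h, hh, happ⟩ := hφ.exists_contDiff_dist_le_of_forall_mem_ball_dist_le hη
  refine ⟨h, cthickening δ (tsupport φ), hh.of_le (by exact_mod_cast le_top), hSc.cthickening, hδU,
    ?_, ?_⟩
  · have hsub : Function.support h ⊆ cthickening (min (δ / 2) δ₁) (tsupport φ) := by
      intro a ha
      by_contra hcon
      apply ha
      have h2 : ∀ x ∈ ball a (min (δ / 2) δ₁), x ∉ tsupport φ := by
        intro x hx hxs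
        exact hcon (mem_cthickening_of_dist_le a x _ _ hxs (by
          rw [dist_comm]
          exact (mem_ball.1 hx).le))
      have h3 : φ a = 0 := image_eq_zero_of_notMem_tsupport (h2 a (mem_ball_self hη))
      have h4 : dist (h a) (φ a) ≤ 0 := by
        refine happ a 0 fun x hx => ?_
        rw [h3, image_eq_zero_of_notMem_tsupport (h2 x hx), dist_self]
      rw [h3, dist_zero_right] at h4
      exact norm_le_zero_iff.1 h4
    have h5 : tsupport h ⊆ cthickening (min (δ / 2) δ₁) (tsupport φ) :=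
      closure_minimal hsub isClosed_cthickening
    refine h5.trans ?_
    have h6 : min (δ / 2) δ₁ < δ := lt_of_le_of_lt (min_le_left _ _) (half_lt_self hδ)
    exact (cthickening_subset_thickening' hδ h6 _).trans
      (interior_maximal (thickening_subset_cthickening _ _) isOpen_thickening)
  · intro z
    rw [← dist_eq_norm]
    exact happ z ε fun x hx => (h1 ((mem_ball.1 hx).trans_le (min_le_right _ _))).le

/-- a functional which vanishes on `A` and not at `g` -/
theorem exists_annihilator_of_notMem {K : Type*} [TopologicalSpace K] [CompactSpace K]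
    (A : Subalgebra ℂ C(K, ℂ)) (hA : IsClosed (A : Set C(K, ℂ))) {g : C(K, ℂ)} (hg : g ∉ A) :
    ∃ L : C(K, ℂ) →L[ℂ] ℂ, L g ≠ 0 ∧ ∀ f ∈ A, L f = 0 := by
  set S : Submodule ℂ C(K, ℂ) := Subalgebra.toSubmodule A with hS
  have hcl : IsClosed (S : Set C(K, ℂ)) := hA
  have hx : S.mkQ g ≠ 0 := by
    intro h0
    rw [Submodule.mkQ_apply, Submodule.Quotient.mk_eq_zero] at h0
    exact hg h0
  have hx' : ‖S.mkQ g‖ ≠ 0 := fun h0 => hx (norm_eq_zero.mp h0)
  obtain ⟨φ, hφ1, hφ2⟩ := exists_dual_vector ℂ (S.mkQ g) hx'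
  refine ⟨φ.comp S.mkQL, ?_, ?_⟩
  · have h1 : (φ.comp S.mkQL) g = φ (S.mkQ g) := rfl
    rw [h1, hφ2]
    exact fun h2 => hx' (Complex.ofReal_eq_zero.mp h2)
  · intro f hf
    have : S.mkQ f = 0 := by
      rw [Submodule.mkQ_apply, Submodule.Quotient.mk_eq_zero]
      exact hf
    rw [ContinuousLinearMap.comp_apply, Submodule.mkQL_apply, this, map_zero]

/-- a proper closed algebra on a compact plane set which contains the functions `1/(w - z)` has data
near the support of every function which is not in the algebra -/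
theorem exists_dat_of_notMem {Y : Set ℂ} (hY : IsCompact Y) [CompactSpace Y]
    (B : Subalgebra ℂ C(Y, ℂ)) (hB : IsClosed (B : Set C(Y, ℂ)))
    (hinv : ∀ z, z ∉ Y → ∃ h ∈ B, ∀ y : Y, h y * ((y : ℂ) - z) = 1)
    {U : Set ℂ} (hU : IsOpen U) (φ : C(ℂ, ℂ)) (hc : HasCompactSupport φ) (hs : tsupport φ ⊆ U)
    (hφ : φ.restrict Y ∉ B) :
    ∃ (V : Set ℂ) (F : ℂ → ℂ) (m : Measure ℂ), IsCompact V ∧ V ⊆ U ∧ CarA.Dat (Y ∩ V) F m := by
  obtain ⟨L, hLφ, hLA⟩ := exists_annihilator_of_notMem B hB hφ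
  obtain ⟨ν, hfin, hreg, hbd⟩ := exists_measure_bound L
  obtain ⟨g₀, hg₀m, hg₀i, hg₀⟩ := exists_density L ν hbd
  have hme : MeasurableEmbedding (fun y : Y => (y : ℂ)) :=
    MeasurableEmbedding.subtype_coe hY.measurableSet
  have hinj : Function.Injective (fun y : Y => (y : ℂ)) := Subtype.val_injective
  have hgf : ∀ x : Y, Function.extend (fun y : Y => (y : ℂ)) g₀ 0 (x : ℂ) = g₀ x := fun x =>
    hinj.extend_apply g₀ 0 x
  have hfm : IsFiniteMeasure (Measure.map (fun y : Y => (y : ℂ)) ν) :=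
    Measure.isFiniteMeasure_map ν _
  -- the constant
  have hpos : 0 < ‖L (φ.restrict Y)‖ := norm_pos_iff.2 hLφ
  have hMnn : 0 ≤ ∫ x, ‖g₀ x‖ ∂ν := integral_nonneg fun _ => norm_nonneg _
  have hε : 0 < ‖L (φ.restrict Y)‖ / (2 * (∫ x, ‖g₀ x‖ ∂ν) + 2) := by positivity
  obtain ⟨h, V, hh, hVc, hVU, hhV, happ⟩ := exists_smooth_near φ.continuous hc hU hs hε
  have hmeasg : Measurable (Function.extend (fun y : Y => (y : ℂ)) g₀ 0) :=
    hme.measurable_extend hg₀m measurable_zero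
  have hintg : Integrable (Function.extend (fun y : Y => (y : ℂ)) g₀ 0)
      (Measure.map (fun y : Y => (y : ℂ)) ν) := by
    rw [hme.integrable_map_iff]
    have : Function.extend (fun y : Y => (y : ℂ)) g₀ 0 ∘ (fun y : Y => (y : ℂ)) = g₀ :=
      funext hgf
    rw [this]
    exact hg₀i
  have h0 : ∀ z, z ∉ Y → ∫ w, Function.extend (fun y : Y => (y : ℂ)) g₀ 0 w / (w - z)
      ∂(Measure.map (fun y : Y => (y : ℂ)) ν) = 0 := by
    intro z hz
    rw [hme.integral_map]
    obtain ⟨k, hkA, hk⟩ := hinv z hz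
    have : ∀ x : Y, Function.extend (fun y : Y => (y : ℂ)) g₀ 0 (x : ℂ) / ((x : ℂ) - z) =
        k x * g₀ x := by
      intro x
      have hne : (x : ℂ) - z ≠ 0 := by
        intro h0
        have h1 : (x : ℂ) = z := sub_eq_zero.mp h0
        exact hz (h1 ▸ x.2)
      rw [hgf, div_eq_iff hne]
      have := hk x
      calc g₀ x = (k x * ((x : ℂ) - z)) * g₀ x := by rw [this, one_mul]
        _ = k x * g₀ x * ((x : ℂ) - z) := by ring
    rw [integral_congr_ae (Filter.Eventually.of_forall this), ← hg₀ k, hLA k hkA]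
  have hne : ∫ w, h w * Function.extend (fun y : Y => (y : ℂ)) g₀ 0 w
      ∂(Measure.map (fun y : Y => (y : ℂ)) ν) ≠ 0 := by
    rw [hme.integral_map]
    have e1 : ∫ x : Y, h (x : ℂ) * Function.extend (fun y : Y => (y : ℂ)) g₀ 0 (x : ℂ) ∂ν =
        ∫ x : Y, h (x : ℂ) * g₀ x ∂ν :=
      integral_congr_ae (Filter.Eventually.of_forall fun x => by
        show h (x : ℂ) * Function.extend (fun y : Y => (y : ℂ)) g₀ 0 (x : ℂ) = h (x : ℂ) * g₀ x
        rw [hgf])
    rw [e1]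
    have e2 := hg₀ ⟨fun x : Y => h (x : ℂ), hh.continuous.comp continuous_subtype_val⟩
    have e3 : ∫ x : Y, h (x : ℂ) * g₀ x ∂ν =
        L ⟨fun x : Y => h (x : ℂ), hh.continuous.comp continuous_subtype_val⟩ := e2.symm
    rw [e3]
    intro hz
    have e4 : ‖L (φ.restrict Y)‖ ≤
        ‖L (φ.restrict Y)‖ / (2 * (∫ x, ‖g₀ x‖ ∂ν) + 2) * ∫ x, ‖g₀ x‖ ∂ν := by
      have e5 : L (φ.restrict Y) = L (φ.restrict Y -
          ⟨fun x : Y => h (x : ℂ), hh.continuous.comp continuous_subtype_val⟩) := by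
        rw [map_sub, hz, sub_zero]
      have e6 := hg₀ (φ.restrict Y -
          ⟨fun x : Y => h (x : ℂ), hh.continuous.comp continuous_subtype_val⟩)
      calc ‖L (φ.restrict Y)‖ = ‖∫ x : Y, (φ.restrict Y -
            ⟨fun x : Y => h (x : ℂ), hh.continuous.comp continuous_subtype_val⟩ : C(Y, ℂ)) x
              * g₀ x ∂ν‖ := by rw [e5, e6]
        _ ≤ ∫ x : Y, ‖L (φ.restrict Y)‖ / (2 * (∫ x, ‖g₀ x‖ ∂ν) + 2) * ‖g₀ x‖ ∂ν := by
            refine norm_integral_le_of_norm_le (hg₀i.norm.const_mul _)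
              (Filter.Eventually.of_forall fun x => ?_)
            rw [norm_mul]
            refine mul_le_mul_of_nonneg_right ?_ (norm_nonneg _)
            show ‖φ (x : ℂ) - h (x : ℂ)‖ ≤ _
            rw [norm_sub_rev]
            exact happ x
        _ = _ := by rw [integral_const_mul]
    have e7 : ‖L (φ.restrict Y)‖ / (2 * (∫ x, ‖g₀ x‖ ∂ν) + 2) * ∫ x, ‖g₀ x‖ ∂ν <
        ‖L (φ.restrict Y)‖ := by
      rw [div_mul_eq_mul_div, div_lt_iff₀ (by positivity)]
      nlinarith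
    exact absurd e4 (not_le.2 e7)
  obtain ⟨F, m1, hD⟩ := exists_dat_local hY (Measure.map (fun y : Y => (y : ℂ)) ν)
    (Function.extend (fun y : Y => (y : ℂ)) g₀ 0) hmeasg hintg h0 hVc hh hhV hne
  exact ⟨V, F, m1, hVc, hVU, hD⟩

theorem comp_mem_local {K : Type*} [TopologicalSpace K] [CompactSpace K] [T2Space K]
    (A : Subalgebra ℂ C(K, ℂ)) (hA : IsClosed (A : Set C(K, ℂ)))
    (hnat : ∀ φ : A →ₐ[ℂ] ℂ, ∃ x : K, ∀ f : A, φ f = (f : C(K, ℂ)) x)
    (f : C(K, ℂ)) (hf : f ∈ A) {U : Set ℂ} (hU : IsOpen U)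
    (hno : ∀ V : Set ℂ, IsCompact V → V ⊆ U → ∀ (F : ℂ → ℂ) (m : Measure ℂ),
      ¬ CarA.Dat (range f ∩ V) F m)
    (φ : C(ℂ, ℂ)) (hc : HasCompactSupport φ) (hs : tsupport φ ⊆ U) :
    φ.comp f ∈ A := by
  have hY : IsCompact (range f) := isCompact_range f.continuous
  have hYc : CompactSpace (range f) := isCompact_iff_compactSpace.mp hY
  let j : C(K, range f) := ⟨fun x => ⟨f x, mem_range_self x⟩, f.continuous.subtype_mk _⟩
  let B : Subalgebra ℂ C(range f, ℂ) := A.comap (ContinuousMap.compRightAlgHom ℂ ℂ j)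
  have hmem : ∀ ψ : C(range f, ℂ), ψ ∈ B ↔ ψ.comp j ∈ A := fun ψ => Iff.rfl
  have hB : IsClosed (B : Set C(range f, ℂ)) := by
    have hc : Continuous (fun ψ : C(range f, ℂ) => ψ.comp j) := ContinuousMap.continuous_precomp j
    exact hA.preimage hc
  have hinv : ∀ z, z ∉ range f → ∃ h ∈ B, ∀ y : range f, h y * ((y : ℂ) - z) = 1 := by
    intro z hz
    obtain ⟨h, hhA, hh⟩ := exists_inverse A hA hnat f hf z (fun x hx => hz ⟨x, hx⟩)
    have hnz : ∀ y : range f, (y : ℂ) - z ≠ 0 := by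
      intro y h0
      exact hz ((sub_eq_zero.mp h0) ▸ y.2)
    let ψ : C(range f, ℂ) := ⟨fun y => ((y : ℂ) - z)⁻¹,
      (continuous_subtype_val.sub continuous_const).inv₀ hnz⟩
    refine ⟨ψ, (hmem ψ).2 ?_, fun y => inv_mul_cancel₀ (hnz y)⟩
    have : ψ.comp j = h := by
      ext x
      show (f x - z)⁻¹ = h x
      exact (eq_inv_of_mul_eq_one_left (hh x)).symm
    rw [this]
    exact hhA
  have h2 : (φ.restrict (range f)).comp j = φ.comp f := by
    ext x
    rfl
  rw [← h2]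
  refine (hmem _).1 ?_
  by_contra hφ
  obtain ⟨V, F, m, hVc, hVU, hD⟩ := exists_dat_of_notMem hY B hB hinv hU φ hc hs hφ
  exact hno V hVc hVU F m hD

end Pool.Agent.Carp
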